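import Pool.Agent.TH117.BL.Defs

/-!
# Abelian varieties over finite fields whose simple factors of dimension at least four are separated by
the Galois closures of their CM fields
-/

set_option autoImplicit false

namespace Pool.Agent.Q43.HP

open NumberField Pool.Agent.H204R3.CM Pool.Agent.W547.KB Pool.Agent.W495.TA Pool.Agent.W495.TC
  Pool.Agent.TH117.BL Module

/-- For all complex embeddings `φ`, `ψ` of the field which are neither equal nor complex conjugate there
is an automorphism of `ℂ` which is the identity on the image of `φ` and the complex conjugation on the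
image of `ψ`. -/
def IsConjugationFree (E : Type) [Field E] : Prop :=
  ∀ φ ψ : E →+* ℂ, ψ ≠ φ → ψ ≠ ComplexEmbedding.conjugate φ →
    ∃ σ : ℂ ≃+* ℂ, (σ : ℂ →+* ℂ).comp φ = φ ∧
      (σ : ℂ →+* ℂ).comp ψ = ComplexEmbedding.conjugate ψ

/-- The field contains an imaginary quadratic field `ℚ(t)`, and for each three complex embeddings `φ`,
`ψ`, `ψ'` of the field with the same restriction to `ℚ(t)`, `ψ ≠ φ`, `ψ' ≠ φ`, an automorphism of `ℂ`
fixes `φ` and maps `ψ` to `ψ'`. -/
def IsDoublyTransitive (E : Type) [Field E] : Prop :=
  ∃ (t : E) (d : ℕ), 0 < d ∧ t ^ 2 = -(d : E) ∧ ∀ φ ψ ψ' : E →+* ℂ, ψ t = φ t → ψ' t = φ t →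
    ψ ≠ φ → ψ' ≠ φ → ∃ σ : ℂ ≃+* ℂ, (σ : ℂ →+* ℂ).comp φ = φ ∧ (σ : ℂ →+* ℂ).comp ψ = ψ'

/-- Functions `f` on the set of complex embeddings with `f (conjugate φ) = -f φ`. -/
def IsOddFunction {E : Type} [Field E] (f : (E →+* ℂ) → ℚ) : Prop :=
  ∀ φ, f (ComplexEmbedding.conjugate φ) = -f φ

/-- There is an odd function `s` on the set of complex embeddings (possibly zero) on which the
automorphisms of `ℂ` act by signs, such that the odd functions orthogonal to `s` are an irreducible
representation over `ℚ` of the group of automorphisms of `ℂ`. -/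
def IsIrreducible (E : Type) [Field E] [NumberField E] : Prop :=
  ∃ s : (E →+* ℂ) → ℚ, IsOddFunction s ∧
    (∀ σ : ℂ ≃+* ℂ, (∀ φ, s ((σ : ℂ →+* ℂ).comp φ) = s φ) ∨
      ∀ φ, s ((σ : ℂ →+* ℂ).comp φ) = -s φ) ∧
    ∀ v w : (E →+* ℂ) → ℚ, IsOddFunction v → IsOddFunction w → ∑ φ, s φ * v φ = 0 →
      ∑ φ, s φ * w φ = 0 → v ≠ 0 →
        w ∈ Submodule.span ℚ (Set.range fun (σ : ℂ ≃+* ℂ) φ => v ((σ : ℂ →+* ℂ).comp φ))

/-- The degree of the field is twice an odd prime number, or the Galois action has one of the
properties above. -/
def HasLargeGalois (E : Type) [Field E] [NumberField E] : Prop :=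
  (∃ g : ℕ, g.Prime ∧ g ≠ 2 ∧ finrank ℚ E = 2 * g) ∨ IsConjugationFree E ∨ IsDoublyTransitive E ∨
    IsIrreducible E

/-- The Galois closure over `ℚ`, in the field of complex numbers. -/
noncomputable abbrev clos (A : CMPair) : IntermediateField ℚ ℂ :=
  IntermediateField.normalClosure ℚ A.E ℂ

variable {p : ℕ} [Fact p.Prime] {ν : PadicAlgCl p ≃+* ℂ}

open Classical in
/-- The norm of the Frobenius endomorphism `π i` to the imaginary quadratic field `ℚ(t)` (the product
of its conjugates `φ (π i)` for the embeddings `φ` for which the imaginary part of `φ t` is positive)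
is a power of the square root of `q = p ^ a`, up to a root of unity. -/
def IsBalanced (Z : RedAV p ν) (i : Z.X.I) (t : (Z.X.factor i).E) : Prop :=
  ∃ s : ℕ, 0 < s ∧ (∏ φ : (Z.X.factor i).E →+* ℂ, if 0 < (φ t).im then eig Z ⟨i, φ⟩ else 1) ^
    (4 * s) = ((p : ℂ) ^ Z.a) ^ (s * finrank ℚ (Z.X.factor i).E)

/-- The powers of the Frobenius endomorphism of the factor `i` generate its CM field: eigenvalues
belonging to different embeddings do not differ by a root of unity. -/
def IsGenerated (Z : RedAV p ν) (i : Z.X.I) : Prop :=
  ∀ (φ φ' : (Z.X.factor i).E →+* ℂ) (s : ℕ), 0 < s → eig Z ⟨i, φ⟩ ^ s = eig Z ⟨i, φ'⟩ ^ s → φ = φ'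

open Classical in
/-- The norm of the Frobenius endomorphism `π i` to the imaginary quadratic field `ℚ(t)` occurs in the
relation of the Weil classes of this field on the product of the factor `i` and of some factors in the
set `S`, of total dimension at most five (or six, if `p` splits in `ℚ(t)`). -/
def IsWeilNorm (Z : RedAV p ν) (S : Set Z.X.I) (i : Z.X.I) (t : (Z.X.factor i).E) : Prop :=
  ∃ n : Emb Z → ℕ, IsRel Z n ∧ IsWeilRelation Z n ∧
    (∀ φ : (Z.X.factor i).E →+* ℂ, n ⟨i, φ⟩ = if 0 < (φ t).im then 1 else 0) ∧
      ∀ w, n w ≠ 0 → w.1 = i ∨ w.1 ∈ S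

/-- Conditions on the factor `i`:

* its CM field has large Galois group;
* for each other factor `k` which is not supersingular either its CM field is not contained in the
  Galois closure of the CM field of `k`, or the CM field of `k` has large Galois group or dimension at
  most three, and the Galois closures are different;
* for each imaginary quadratic field contained in its CM field either this field is contained in no
  CM field of another factor which is not supersingular, and the norm of the Frobenius endomorphism
  to this field is not a power of the square root of `q`, up to a root of unity, or the Frobenius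
  endomorphism generates the CM field and the norm occurs in the relation of a Weil class of dimension
  at most six. -/
structure IsSeparatedFactor (Z : RedAV p ν) (S : Set Z.X.I) (i : Z.X.I) : Prop where
  large : HasLargeGalois (Z.X.factor i).E
  closure : ∀ k, k ≠ i → ¬ IsSupersingular Z k →
    ¬ clos (Z.X.factor i) ≤ clos (Z.X.factor k) ∨
      ((finrank ℚ (Z.X.factor k).E ≤ 6 ∨ HasLargeGalois (Z.X.factor k).E) ∧
        clos (Z.X.factor k) ≠ clos (Z.X.factor i))
  norm : ∀ (t : (Z.X.factor i).E) (d : ℕ), 0 < d → t ^ 2 = -(d : (Z.X.factor i).E) →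
    (¬ IsBalanced Z i t ∧ ∀ k, k ≠ i → ¬ IsSupersingular Z k →
      ∀ t' : (Z.X.factor k).E, t' ^ 2 ≠ -(d : (Z.X.factor k).E)) ∨
    (IsGenerated Z i ∧ IsWeilNorm Z S i t)

/-- The factors in a set `S` are arbitrary factors of dimensions with sum at most five without
exceptional pairs, or factors of dimension at most three for which CM fields with the same Galois
closure belong to isogenous factors (unless they are Galois or one of the factors is supersingular).
The other factors have dimension at least four; they are supersingular or separated. -/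
structure IsSeparated (Z : RedAV p ν) (S : Set Z.X.I) : Prop where
  good : IsGoodSet Z S
  other : ∀ i ∉ S, IsSupersingular Z i ∨
    (6 < finrank ℚ (Z.X.factor i).E ∧ IsSeparatedFactor Z S i)

end Pool.Agent.Q43.HP
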