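import Pool.Agent.Q43.HP.Indep
import Pool.Agent.Q43.HP.Cond
import Pool.Agent.Q43.HN.Types

/-!
# Automorphisms of the field of complex numbers and the Galois group
-/

set_option autoImplicit false
set_option linter.unusedSectionVars false
set_option linter.unusedVariables false

namespace Pool.Agent.Q43.HP

open NumberField Pool.Agent.H204R3.CM Pool.Agent.W547.KB Pool.Agent.W547.LD Pool.Agent.W547.HR
  Pool.Agent.W495.TA Pool.Agent.W495.TB Pool.Agent.W495.TC Pool.Agent.TH117.F5
  Pool.Agent.TH117.PO Pool.Agent.TH117.BL Module Pool.Agent.W976.TA Equiv Pool.Agent.Q43.HN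
open scoped TensorProduct

noncomputable section

variable {p : ℕ} [Fact p.Prime] {ν : PadicAlgCl p ≃+* ℂ}
  {L : Type} [Field L] [NumberField L] [IsCMField L] [IsGalois ℚ L] {j : L →+* ℂ}
  {Z : RedAV p ν}

/-- Kernels and Galois closures. -/
theorem closure_le {A B : CMPair} (hA : BigA A j) (h : ∀ τ : L ≃ₐ[ℚ] L, Tr L B τ → Tr L A τ) :
    clos A ≤ clos B := by
  rw [normalClosure_le_iff]
  rintro ψ _ ⟨a, rfl⟩
  obtain ⟨φ, hφ⟩ := hA (ψ : A.E →+* ℂ)
  have h0 : ψ a = j (φ a) := (RingHom.congr_fun hφ a).symm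
  change ψ a ∈ clos B
  rw [h0]
  let K : IntermediateField ℚ L := IntermediateField.normalClosure ℚ B.E L
  have h1 : φ a ∈ K := by
    rw [← IsGalois.fixedField_fixingSubgroup K, IntermediateField.mem_fixedField_iff]
    intro τ hτ
    have h2 : Tr L B τ := by
      intro φ'
      ext b
      change τ (φ' b) = φ' b
      refine (IntermediateField.mem_fixingSubgroup_iff K τ).1 hτ _ ?_
      exact (RingHom.equivRatAlgHom B.E L φ').fieldRange_le_normalClosure ⟨b, rfl⟩
    exact RingHom.congr_fun (h τ h2 φ) a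
  let jj : L →ₐ[ℚ] ℂ := RingHom.equivRatAlgHom L ℂ j
  have h2 : K ≤ (clos B).comap jj := by
    rw [normalClosure_le_iff]
    rintro φ' _ ⟨b, rfl⟩
    change jj (φ' b) ∈ clos B
    exact (jj.comp φ').fieldRange_le_normalClosure ⟨b, rfl⟩
  exact h2 h1

/-- Automorphisms of `ℂ` which map embeddings to embeddings. -/
theorem exists_gal {E : Type} [Field E] (σ : ℂ ≃+* ℂ) : ∃ τ : L ≃ₐ[ℚ] L,
    ∀ φ ψ : E →+* L, (σ : ℂ →+* ℂ).comp (j.comp φ) = j.comp ψ → τ • φ = ψ := by
  obtain ⟨τ, hτ⟩ := exists_aut (j := j) ((σ : ℂ →+* ℂ).comp j)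
  refine ⟨τ, fun φ ψ h => ?_⟩
  ext x
  apply j.injective
  change j (τ (φ x)) = _
  rw [hτ]
  exact RingHom.congr_fun h x

/-- Embeddings of fields of degree at least four. -/
theorem exists_other {A : CMPair} (hA : BigA A j) (h4 : 2 < finrank ℚ A.E) (φ : A.E →+* L) :
    ∃ ψ : A.E →+* L, ψ ≠ φ ∧ ψ ≠ cc L • φ := by
  classical
  by_contra hcon
  push Not at hcon
  have h1 : Nat.card (A.E →+* L) = finrank ℚ A.E := Pool.Agent.W547.LN.card_hom A j hA
  have hfin : Finite (A.E →+* L) := Nat.finite_of_card_ne_zero (by omega)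
  have h2 : Nat.card (A.E →+* L) ≤ Nat.card Bool := by
    refine Nat.card_le_card_of_injective (fun ψ => decide (ψ = φ)) fun ψ ψ' h => ?_
    have h5 : (ψ = φ) ↔ (ψ' = φ) := decide_eq_decide.1 h
    by_cases h6 : ψ = φ
    · rw [h6, h5.1 h6]
    · rw [hcon ψ h6, hcon ψ' fun h7 => h6 (h5.2 h7)]
  rw [h1, Nat.card_eq_fintype_card, Fintype.card_bool] at h2
  omega

theorem isSelf_of {A : CMPair} (hA : BigA A j) (h4 : 2 < finrank ℚ A.E)
    (h : IsConjugationFree A.E) : IsSelf (cc L) (A.E →+* L) := by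
  refine ⟨fun φ ψ h1 h2 => ?_, fun φ => exists_other hA h4 φ⟩
  obtain ⟨σ, h3, h4⟩ := h (j.comp φ) (j.comp ψ) (fun h' => h1 (cancel_j h')) fun h' => h2 (by
    rw [← Pool.Agent.TH117.BL.comp_cc] at h'
    exact cancel_j h')
  obtain ⟨τ, hτ⟩ := exists_gal (L := L) (j := j) (E := A.E) σ
  refine ⟨τ, hτ _ _ h3, hτ _ _ ?_⟩
  rw [h4, Pool.Agent.TH117.BL.comp_cc]

theorem isDouble_of {A : CMPair} (hA : BigA A j) (h6 : 4 < finrank ℚ A.E)
    (h : IsDoublyTransitive A.E) : ∃ s : (A.E →+* L) → ℤ, IsDouble (cc L) s := by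
  classical
  obtain ⟨t, d, hd, ht, h⟩ := h
  have hcard : Nat.card (A.E →+* L) = finrank ℚ A.E := Pool.Agent.W547.LN.card_hom A j hA
  have hfin : Finite (A.E →+* L) := Nat.finite_of_card_ne_zero (by omega)
  obtain ⟨φ₀⟩ : Nonempty (A.E →+* L) := by
    by_contra h
    rw [not_nonempty_iff] at h
    rw [Nat.card_of_isEmpty] at hcard
    omega
  set η := φ₀ t with hη
  have hsq : ∀ φ : A.E →+* L, (φ t) ^ 2 = -(d : L) := fun φ => by
    rw [← map_pow, ht, map_neg, map_natCast]
  have hη0 : η ≠ 0 := by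
    intro h
    have h1 := hsq φ₀
    rw [← hη, h, zero_pow two_ne_zero, eq_comm, neg_eq_zero] at h1
    exact hd.ne' (by exact_mod_cast h1)
  have hηn : -η ≠ η := by
    intro h
    apply hη0
    have h3 : (2 : L) * η = 0 := by
      rw [two_mul]
      nth_rewrite 1 [← h]
      rw [neg_add_cancel]
    exact (mul_eq_zero.1 h3).resolve_left two_ne_zero
  have hpm : ∀ φ : A.E →+* L, φ t = η ∨ φ t = -η := fun φ => by
    apply sq_eq_sq_iff_eq_or_eq_neg.1
    rw [hsq, hη, hsq]
  have hcc : ∀ φ : A.E →+* L, (cc L • φ) t = -φ t := by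
    intro φ
    apply j.injective
    have h1 := RingHom.congr_fun (Pool.Agent.TH117.BL.comp_cc (j := j) φ) t
    change j ((cc L • φ) t) = _ at h1
    rw [h1, ComplexEmbedding.conjugate_coe_eq, map_neg]
    change (starRingEnd ℂ) (j (φ t)) = -j (φ t)
    have h2 : (j (φ t)) ^ 2 = -(d : ℂ) := by rw [← map_pow, hsq, map_neg, map_natCast]
    have h3 : (j (φ t)).re = 0 := by
      by_contra hre
      have h4 := congrArg Complex.im h2
      have h5 := congrArg Complex.re h2
      rw [sq, Complex.mul_im, Complex.neg_im, Complex.natCast_im] at h4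
      rw [sq, Complex.mul_re, Complex.neg_re, Complex.natCast_re] at h5
      have h6 : (j (φ t)).im = 0 := by
        have h7 : 2 * (j (φ t)).re * (j (φ t)).im = 0 := by linarith
        exact (mul_eq_zero.1 h7).resolve_left (mul_ne_zero two_ne_zero hre)
      rw [h6] at h5
      have h8 : (0 : ℝ) < d := by exact_mod_cast hd
      nlinarith [mul_self_nonneg (j (φ t)).re]
    apply Complex.ext
    · rw [Complex.conj_re, Complex.neg_re, h3, neg_zero]
    · rw [Complex.conj_im, Complex.neg_im]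
  let s : (A.E →+* L) → ℤ := fun φ => if φ t = η then 1 else -1
  have hs : ∀ φ ψ : A.E →+* L, s ψ = s φ ↔ ψ t = φ t := by
    intro φ ψ
    change (if ψ t = η then (1 : ℤ) else -1) = (if φ t = η then 1 else -1) ↔ _
    rcases hpm φ with h1 | h1 <;> rcases hpm ψ with h2 | h2 <;> rw [h1, h2]
    · simp
    · rw [if_neg hηn, if_pos rfl]
      exact ⟨fun h => absurd h (by norm_num), fun h => absurd h hηn⟩
    · rw [if_neg hηn, if_pos rfl]
      exact ⟨fun h => absurd h (by norm_num), fun h => absurd h.symm hηn⟩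
    · simp
  have hodd : OddF (cc L) s := by
    intro φ
    change (if (cc L • φ) t = η then (1 : ℤ) else -1) = -(if φ t = η then 1 else -1)
    rw [hcc]
    rcases hpm φ with h1 | h1
    · rw [h1, if_neg hηn, if_pos rfl]
    · rw [h1, neg_neg, if_pos rfl, if_neg hηn, neg_neg]
  have hsgn : SgnF (L ≃ₐ[ℚ] L) s := by
    intro σ
    have hσ : σ η = η ∨ σ η = -η := by
      apply sq_eq_sq_iff_eq_or_eq_neg.1
      rw [← map_pow, hη, hsq, map_neg, map_natCast]
    rcases hσ with hσ | hσ
    · left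
      intro φ
      rw [hs]
      change σ (φ t) = φ t
      rcases hpm φ with h1 | h1
      · rw [h1, hσ]
      · rw [h1, map_neg, hσ]
    · right
      intro φ
      change (if σ (φ t) = η then (1 : ℤ) else -1) = -(if φ t = η then 1 else -1)
      rcases hpm φ with h1 | h1
      · rw [h1, hσ, if_neg hηn, if_pos rfl]
      · rw [h1, map_neg, hσ, neg_neg, if_pos rfl, if_neg hηn, neg_neg]
  refine ⟨s, ⟨fun φ => ?_, hodd, hsgn, fun φ ψ ψ' h1 h2 h3 h4 => ?_, fun φ => ?_⟩⟩
  · change (if φ t = η then (1 : ℤ) else -1) = 1 ∨ (if φ t = η then (1 : ℤ) else -1) = -1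
    split_ifs
    · exact Or.inl rfl
    · exact Or.inr rfl
  · rw [hs] at h1 h2
    obtain ⟨σ, h5, h6⟩ := h (j.comp φ) (j.comp ψ) (j.comp ψ') (congrArg j h1) (congrArg j h2)
      (fun h' => h3 (cancel_j h')) fun h' => h4 (cancel_j h')
    obtain ⟨τ, hτ⟩ := exists_gal (L := L) (j := j) (E := A.E) σ
    exact ⟨τ, hτ _ _ h5, hτ _ _ h6⟩
  · by_contra hcon
    push Not at hcon
    have hset := setting j A
    obtain ⟨ψ, hψ⟩ : ∃ ψ : A.E →+* L, ∀ χ, s χ = s φ → χ = φ ∨ χ = ψ := by
      by_cases h1 : ∃ ψ, s ψ = s φ ∧ ψ ≠ φ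
      · obtain ⟨ψ, h2, h3⟩ := h1
        refine ⟨ψ, fun χ hχ => ?_⟩
        by_cases h4 : χ = φ
        · exact Or.inl h4
        · exact Or.inr (hcon ψ χ h2 hχ h3 h4).symm
      · push Not at h1
        exact ⟨φ, fun χ hχ => Or.inl (h1 χ hχ)⟩
    have hall : ∀ χ : A.E →+* L, χ = φ ∨ χ = ψ ∨ χ = cc L • φ ∨ χ = cc L • ψ := by
      intro χ
      have h5 : ∀ χ : A.E →+* L, cc L • cc L • χ = χ := fun χ => by
        rw [← mul_smul, hset.sq, one_smul]
      by_cases h1 : s χ = s φ
      · rcases hψ χ h1 with h2 | h2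
        · exact Or.inl h2
        · exact Or.inr (Or.inl h2)
      · have h2 : s (cc L • χ) = s φ := by
          rw [hodd]
          have h3 : s χ = 1 ∨ s χ = -1 := by
            change (if χ t = η then (1 : ℤ) else -1) = 1 ∨ (if χ t = η then (1 : ℤ) else -1) = -1
            split_ifs
            · exact Or.inl rfl
            · exact Or.inr rfl
          have h4 : s φ = 1 ∨ s φ = -1 := by
            change (if φ t = η then (1 : ℤ) else -1) = 1 ∨ (if φ t = η then (1 : ℤ) else -1) = -1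
            split_ifs
            · exact Or.inl rfl
            · exact Or.inr rfl
          omega
        rcases hψ _ h2 with h3 | h3
        · right
          right
          left
          rw [← h3, h5]
        · right
          right
          right
          rw [← h3, h5]
    have h7 : (Set.univ : Set (A.E →+* L)) ⊆ {φ, ψ, cc L • φ, cc L • ψ} := fun χ _ => hall χ
    have h8 := Set.ncard_le_ncard h7 (Set.toFinite _)
    rw [Set.ncard_univ, hcard] at h8
    have h9 : ({φ, ψ, cc L • φ, cc L • ψ} : Set (A.E →+* L)).ncard ≤ 4 := by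
      refine (Set.ncard_insert_le _ _).trans ?_
      refine Nat.succ_le_succ ((Set.ncard_insert_le _ _).trans ?_)
      refine Nat.succ_le_succ ((Set.ncard_insert_le _ _).trans ?_)
      rw [Set.ncard_singleton]
    omega

end

end Pool.Agent.Q43.HP
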