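import Pool.Agent.Q43.HP.Irr
import Pool.Agent.Q43.HP.Trans
import Pool.Agent.H977R3.CM.Aut

/-!
# Factors for which the odd functions are an irreducible representation
-/

set_option autoImplicit false
set_option linter.unusedSectionVars false
set_option linter.unusedVariables false
set_option linter.unusedTactic false

namespace Pool.Agent.Q43.HP

open NumberField Pool.Agent.H204R3.CM Pool.Agent.W547.KB Pool.Agent.W547.LD Pool.Agent.W547.HR
  Pool.Agent.W495.TA Pool.Agent.W495.TB Pool.Agent.W495.TC Pool.Agent.TH117.F5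
  Pool.Agent.TH117.PO Pool.Agent.TH117.BL Module Pool.Agent.W976.TA Equiv Pool.Agent.Q43.HN
open scoped TensorProduct

noncomputable section

variable {p : ℕ} [Fact p.Prime] {ν : PadicAlgCl p ≃+* ℂ}
  {L : Type} [Field L] [NumberField L] [IsCMField L] [IsGalois ℚ L] {j : L →+* ℂ}
  {Z : RedAV p ν}

/-- Squares. -/
theorem Rt_sq_inv {f : (L ≃ₐ[ℚ] L) → ℤ} (h : IsEig f) (a : L ≃ₐ[ℚ] L) : Rt (a * a)⁻¹ f = f := by
  apply Rt_inv
  rw [Rt_mul]
  rcases h a with h1 | h1
  · rw [h1, h1]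
  · rw [h1, Rt_neg, h1, neg_neg]

/-- Enough embeddings. -/
theorem hasThree_of {A : CMPair} (hA : BigA A j) (h6 : 4 < finrank ℚ A.E) :
    HasThree (cc L) (A.E →+* L) := by
  classical
  intro φ ψ
  by_contra hcon
  push Not at hcon
  have hset := setting j A
  have hcard : Nat.card (A.E →+* L) = finrank ℚ A.E := Pool.Agent.W547.LN.card_hom A j hA
  have hfin : Finite (A.E →+* L) := Nat.finite_of_card_ne_zero (by omega)
  have h7 : (Set.univ : Set (A.E →+* L)) ⊆ {φ, cc L • φ, ψ, cc L • ψ} := fun χ _ => by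
    by_cases h1 : χ = φ
    · exact Or.inl h1
    by_cases h2 : χ = cc L • φ
    · exact Or.inr (Or.inl h2)
    by_cases h3 : χ = ψ
    · exact Or.inr (Or.inr (Or.inl h3))
    exact Or.inr (Or.inr (Or.inr (hcon χ h1 h2 h3)))
  have h8 := Set.ncard_le_ncard h7 (Set.toFinite _)
  rw [Set.ncard_univ, hcard] at h8
  have h9 : ({φ, cc L • φ, ψ, cc L • ψ} : Set (A.E →+* L)).ncard ≤ 4 := by
    refine (Set.ncard_insert_le _ _).trans ?_
    refine Nat.succ_le_succ ((Set.ncard_insert_le _ _).trans ?_)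
    refine Nat.succ_le_succ ((Set.ncard_insert_le _ _).trans ?_)
    rw [Set.ncard_singleton]
  omega

section

variable [Fintype (Wt Z.X L)]

theorem indep_irr {i : Z.X.I} (hZ : Big Z.X j) [Fintype ((Z.X.factor i).E →+* L)]
    (h3 : HasThree (cc L) ((Z.X.factor i).E →+* L)) {s : ((Z.X.factor i).E →+* L) → ℚ}
    (hI : IsIrr (cc L) s) : IndepAt p ν j Z i := by
  classical
  intro x hx hE
  have hset := setting j (Z.X.factor i)
  by_cases hEig : EigF p ν j Z i
  · exact Or.inl hEig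
  right
  let X₀ := (Z.X.factor i).E →+* L
  obtain ⟨φ₀⟩ : Nonempty X₀ := by
    by_contra h
    rw [not_nonempty_iff] at h
    have h1 := Pool.Agent.W67.TA.card_emb j hZ i
    rw [Nat.card_of_isEmpty] at h1
    exact finrank_pos.ne' h1.symm
  let T : X₀ → (L ≃ₐ[ℚ] L) → ℤ := fun φ => tw p ν j Z.X ⟨i, φ⟩
  have hTs : ∀ (σ : L ≃ₐ[ℚ] L) (φ : X₀), T (σ • φ) = Rt σ (T φ) := fun σ φ =>
    tw_smul (p := p) (ν := ν) (j := j) σ (⟨i, φ⟩ : Wt Z.X L)
  have hTc : ∀ φ : X₀, T (cc L • φ) = -T φ := fun φ => tw_cw (⟨i, φ⟩ : Wt Z.X L)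
  have hR : ∀ v : X₀ → ℚ, (∀ k, ∑ x, v x * (T x k : ℚ) = 0) → ∀ (σ : L ≃ₐ[ℚ] L)
      (k : L ≃ₐ[ℚ] L), ∑ x, v (σ • x) * (T x k : ℚ) = 0 := by
    intro v hv σ k
    rw [← hv (k * σ⁻¹), ← Equiv.sum_comp (MulAction.toPerm σ) fun φ : X₀ =>
      v φ * ((T φ (k * σ⁻¹) : ℤ) : ℚ)]
    refine Finset.sum_congr rfl fun φ _ => ?_
    rw [MulAction.toPerm_apply, hTs]
    congr 2
    unfold Rt
    rw [inv_mul_cancel_right]
  -- relations of this factor alone
  have stepA : ∀ v : X₀ → ℤ, OddF (cc L) v → (∀ h, ∑ φ : X₀, v φ * T φ h = 0) →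
      SgnF (L ≃ₐ[ℚ] L) v := by
    intro v hv hrel
    by_cases hns : ∀ a : ℚ, (fun φ => (v φ : ℚ)) ≠ fun x => a * s x
    · exfalso
      apply hEig
      have hval : ∀ φ : X₀, T φ = T φ₀ ∨ T φ = -T φ₀ := fun φ =>
        rel_eq hset.comm hset.sq hset.ne hset.trans h3 hI (K := L ≃ₐ[ℚ] L) (T := T)
          (fun φ k => by rw [hTc]; rfl) hR (u := fun φ => (v φ : ℚ))
          (fun φ => by
            change ((v (cc L • φ) : ℤ) : ℚ) = -((v φ : ℤ) : ℚ)
            rw [hv]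
            push_cast
            rfl) hns (fun k => by exact_mod_cast hrel k) φ₀ φ
      have hEt : IsEig (T φ₀) := fun σ => by
        rw [← hTs]
        exact hval _
      rintro ⟨i', φ⟩ hi'
      obtain rfl : i' = i := hi'
      rcases hval φ with h | h
      · change IsEig (T φ)
        rw [h]
        exact hEt
      · change IsEig (T φ)
        rw [h]
        exact isEig_neg hEt
    · push Not at hns
      obtain ⟨a, ha⟩ := hns
      have h1 : ∀ x, (v x : ℚ) = a * s x := fun x => congrFun ha x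
      intro σ
      refine (hI.sgn σ).imp (fun h2 x => ?_) fun h2 x => ?_
      · have h4 : ((v (σ • x) : ℤ) : ℚ) = (v x : ℚ) := by rw [h1, h1, h2]
        exact_mod_cast h4
      · have h4 : ((v (σ • x) : ℤ) : ℚ) = ((-v x : ℤ) : ℚ) := by
          push_cast
          rw [h1, h1, h2]
          ring
        exact_mod_cast h4
  rw [sgn_iff]
  by_contra hnS
  have hRig : Rigid (cc L) X₀ := rigid_irr hset.comm hset.sq hset.ne hset.trans h3 hI
  -- commutators and squares act trivially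
  have stepB : ∀ ρ : L ≃ₐ[ℚ] L, (∀ f : (L ≃ₐ[ℚ] L) → ℤ, IsEig f → Rt ρ⁻¹ f = f) →
      ∀ φ : X₀, ρ • φ = φ := by
    intro ρ hρ
    refine hRig (vf x i) (vf_odd x i) hnS ρ fun σ => ?_
    let y : Wt Z.X L → ℤ := fun l => x (σ • l) - x ((σ * ρ) • l)
    have hy : Re p ν j Z y := re_sub (hx.smul σ) (hx.smul (σ * ρ))
    have hvy : ∀ φ : X₀, vf y i φ = vf x i (σ • φ) - vf x i (σ • ρ • φ) := by
      intro φ
      have h1 := vf_smul (j := j) x σ i φ
      have h2 := vf_smul (j := j) x (σ * ρ) i φ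
      rw [mul_smul] at h2
      rw [← h1, ← h2]
      change (x (σ • ⟨i, φ⟩) - x ((σ * ρ) • ⟨i, φ⟩)) -
        (x (σ • cw Z ⟨i, φ⟩) - x ((σ * ρ) • cw Z ⟨i, φ⟩)) =
        (x (σ • ⟨i, φ⟩) - x (σ • cw Z ⟨i, φ⟩)) - (x ((σ * ρ) • ⟨i, φ⟩) -
          x ((σ * ρ) • cw Z ⟨i, φ⟩))
      ring
    have h1 : (fun φ : X₀ => vf x i (σ • φ) - vf x i (σ • ρ • φ)) = vf y i :=
      funext fun φ => (hvy φ).symm
    rw [h1]
    refine stepA (vf y i) (vf_odd y i) fun h => alone hy (fun k hk h => ?_) h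
    rw [Fi_sub, Fi_smul, Fi_smul, mul_inv_rev, Rt_mul, hρ _ (isEig_Rt (hE k hk) σ⁻¹), sub_self]
  have _ : Nonempty X₀ := ⟨φ₀⟩
  refine not_elem hset.comm hset.sq hset.ne hset.trans h3 hI (v := fun φ => (vf x i φ : ℚ))
    (fun φ => by
      change ((vf x i (cc L • φ) : ℤ) : ℚ) = -((vf x i φ : ℤ) : ℚ)
      rw [vf_odd]
      push_cast
      rfl) (fun a ha => hnS fun σ => ?_) (fun a b φ => ?_) fun a φ => ?_
  · have h1 : ∀ φ, (vf x i φ : ℚ) = a * s φ := fun φ => congrFun ha φ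
    refine (hI.sgn σ).imp (fun h2 φ => ?_) fun h2 φ => ?_
    · have h4 : ((vf x i (σ • φ) : ℤ) : ℚ) = (vf x i φ : ℚ) := by rw [h1, h1, h2]
      exact_mod_cast h4
    · have h4 : ((vf x i (σ • φ) : ℤ) : ℚ) = ((-vf x i φ : ℤ) : ℚ) := by
        push_cast
        rw [h1, h1, h2]
        ring
      exact_mod_cast h4
  · have h1 := stepB (a * b * a⁻¹ * b⁻¹) (fun f hf => Rt_comm_inv hf a b) (b • a • φ)
    rw [← h1, ← mul_smul, ← mul_smul, ← mul_smul]
    congr 1
    group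
  · have h1 := stepB (a * a) (fun f hf => Rt_sq_inv hf a) φ
    rwa [mul_smul] at h1

end

/-- Transfer to the Galois group of a number field. -/
theorem isIrr_of {A : CMPair} (hA : BigA A j) [Fintype (A.E →+* L)] (h : IsIrreducible A.E) :
    ∃ s : (A.E →+* L) → ℚ, IsIrr (cc L) s := by
  classical
  obtain ⟨s, h1, h2, h3⟩ := h
  let e : (A.E →+* L) ≃ (A.E →+* ℂ) := Equiv.ofBijective (fun φ => j.comp φ)
    ⟨fun φ ψ h => cancel_j h, fun φ => hA φ⟩
  have he : ∀ φ, e φ = j.comp φ := fun φ => rfl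
  have hsum : ∀ f g : (A.E →+* L) → ℚ, ∑ φ, f φ * g φ = ∑ φ, f (e.symm φ) * g (e.symm φ) :=
    fun f g => (Equiv.sum_comp e.symm fun φ => f φ * g φ).symm
  have hcc : ∀ φ : A.E →+* L, e (cc L • φ) = ComplexEmbedding.conjugate (e φ) := fun φ =>
    Pool.Agent.TH117.BL.comp_cc (j := j) φ
  have hodd : ∀ f : (A.E →+* L) → ℚ, (∀ φ, f (cc L • φ) = -f φ) →
      IsOddFunction fun φ : A.E →+* ℂ => f (e.symm φ) := by
    intro f hf φ
    have h4 : e.symm (ComplexEmbedding.conjugate φ) = cc L • e.symm φ := by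
      rw [Equiv.symm_apply_eq, hcc, Equiv.apply_symm_apply]
    change f (e.symm (ComplexEmbedding.conjugate φ)) = -f (e.symm φ)
    rw [h4, hf]
  refine ⟨fun φ => s (e φ), ⟨fun φ => ?_, fun τ => ?_, fun v w hv hw hsv hsw hv0 => ?_⟩⟩
  · change s (e (cc L • φ)) = -s (e φ)
    rw [hcc, h1]
  · obtain ⟨σ, hσ⟩ := Pool.Agent.H977R3.CM.exists_aut j (τ : L ≃+* L)
    have h4 : ∀ φ : A.E →+* L, e (τ • φ) = (σ : ℂ →+* ℂ).comp (e φ) := by
      intro φ
      ext x
      exact (hσ (φ x)).symm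
    refine (h2 σ).imp (fun h φ => ?_) fun h φ => ?_
    · change s (e (τ • φ)) = s (e φ)
      rw [h4, h]
    · change s (e (τ • φ)) = -s (e φ)
      rw [h4, h]
  · have h4 := h3 (fun φ => v (e.symm φ)) (fun φ => w (e.symm φ)) (hodd v hv) (hodd w hw) (by
      have h5 := hsum (fun φ => s (e φ)) v
      simp only [Equiv.apply_symm_apply] at h5
      rw [← h5]
      exact hsv) (by
      have h5 := hsum (fun φ => s (e φ)) w
      simp only [Equiv.apply_symm_apply] at h5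
      rw [← h5]
      exact hsw) (fun h5 => hv0 (funext fun φ => by
        have h6 := congrFun h5 (e φ)
        rw [Equiv.symm_apply_apply] at h6
        exact h6))
    let D : ((A.E →+* ℂ) → ℚ) →ₗ[ℚ] ((A.E →+* L) → ℚ) :=
      { toFun := fun u φ => u (e φ)
        map_add' := fun _ _ => rfl
        map_smul' := fun _ _ => rfl }
    have h5 : Submodule.span ℚ (Set.range fun (σ : ℂ ≃+* ℂ) φ =>
        (fun φ => v (e.symm φ)) ((σ : ℂ →+* ℂ).comp φ)) ≤
        (Submodule.span ℚ (Set.range fun σ : L ≃ₐ[ℚ] L => fun x => v (σ • x))).comap D := by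
      refine Submodule.span_le.2 ?_
      rintro _ ⟨σ, rfl⟩
      obtain ⟨τ, hτ⟩ := exists_gal (L := L) (j := j) (E := A.E) σ
      refine Submodule.mem_comap.2 (Submodule.subset_span ⟨τ, funext fun φ => ?_⟩)
      change v (τ • φ) = v (e.symm ((σ : ℂ →+* ℂ).comp (e φ)))
      congr 1
      exact hτ φ _ (e.apply_symm_apply _).symm
    have h6 := Submodule.mem_comap.1 (h5 h4)
    have h7 : D (fun φ => w (e.symm φ)) = w := funext fun φ => by
      change w (e.symm (e φ)) = w φ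
      rw [Equiv.symm_apply_apply]
    rwa [h7] at h6

end

end Pool.Agent.Q43.HP
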