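import Pool.Agent.Q43.HP.Quad
import Pool.Agent.Q43.HP.IrrB

/-!
# The types of factors
-/

set_option autoImplicit false
set_option linter.unusedSectionVars false
set_option linter.unusedVariables false

namespace Pool.Agent.Q43.HP

open NumberField Pool.Agent.H204R3.CM Pool.Agent.W547.KB Pool.Agent.W547.LD Pool.Agent.W547.HR
  Pool.Agent.W495.TA Pool.Agent.W495.TB Pool.Agent.W495.TC Pool.Agent.TH117.F5
  Pool.Agent.TH117.PO Pool.Agent.TH117.BL Module Pool.Agent.W976.TA Equiv Pool.Agent.Q43.HN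
open scoped TensorProduct

noncomputable section

variable {p : ℕ} [Fact p.Prime] {ν : PadicAlgCl p ≃+* ℂ}
  {L : Type} [Field L] [NumberField L] [IsCMField L] [IsGalois ℚ L] {j : L →+* ℂ}
  {Z : RedAV p ν}

/-- Cycles in odd prime dimension. -/
theorem prime_data (hZ : Big Z.X j) {i : Z.X.I} {g : ℕ} (hg : g.Prime) (hg2 : g ≠ 2)
    (hdim : finrank ℚ (Z.X.factor i).E = 2 * g) :
    ∃ (τ : L ≃ₐ[ℚ] L) (φ₀ : (Z.X.factor i).E →+* L), Odd (orderOf τ) ∧ τ ^ g • φ₀ = φ₀ ∧
      Function.Bijective (cyc (cc L) τ g φ₀) := by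
  have hcard : Nat.card ((Z.X.factor i).E →+* L) = 2 * g :=
    (Pool.Agent.W67.TA.card_emb j hZ i).trans hdim
  have hfin : Finite ((Z.X.factor i).E →+* L) := Nat.finite_of_card_ne_zero (by
    have := hg.pos
    omega)
  have hset := setting j (Z.X.factor i)
  obtain ⟨τ, φ₀, ⟨b, hb⟩, h1, -, h2⟩ := exists_cycle_pow (X := (Z.X.factor i).E →+* L) (cc L)
    hset.comm hset.sq hset.ne hset.trans hg hg2 hcard
  refine ⟨τ, φ₀, ?_, h1, h2⟩
  rw [hb]
  exact (hg.odd_of_ne_two hg2).pow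

theorem rigid_of_prime (hZ : Big Z.X j) {i : Z.X.I} {g : ℕ} (hg : g.Prime) (hg2 : g ≠ 2)
    (hdim : finrank ℚ (Z.X.factor i).E = 2 * g) : Rigid (cc L) ((Z.X.factor i).E →+* L) := by
  have hfin : Finite ((Z.X.factor i).E →+* L) := Nat.finite_of_card_ne_zero (by
    rw [Pool.Agent.W67.TA.card_emb j hZ i]
    exact finrank_pos.ne')
  let _ : Fintype ((Z.X.factor i).E →+* L) := Fintype.ofFinite _
  have hset := setting j (Z.X.factor i)
  obtain ⟨τ, φ₀, h1, h2, h3⟩ := prime_data hZ hg hg2 hdim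
  exact rigid_prime hset.comm h3 hset.sq hset.trans hg hg2 h2 h1

/-- Factors of dimension two. -/
theorem four_cases (hZ : Big Z.X j) {i : Z.X.I} (h4 : finrank ℚ (Z.X.factor i).E = 4) :
    EigF p ν j Z i ∨ Rigid (cc L) ((Z.X.factor i).E →+* L) := by
  classical
  let X := (Z.X.factor i).E →+* L
  have hcard : Nat.card X = 4 := (Pool.Agent.W67.TA.card_emb j hZ i).trans h4
  have hfin : Finite X := Nat.finite_of_card_ne_zero (by omega)
  have hset := setting j (Z.X.factor i)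
  have hcc : ∀ φ : X, cc L • cc L • φ = φ := fun φ => by rw [← mul_smul, hset.sq, one_smul]
  have hcτ : ∀ (σ : L ≃ₐ[ℚ] L) (φ : X), σ • cc L • φ = cc L • σ • φ := fun σ φ => by
    rw [← mul_smul, ← mul_smul, hset.comm]
  obtain ⟨φ₀⟩ : Nonempty X := by
    by_contra h
    rw [not_nonempty_iff] at h
    rw [Nat.card_of_isEmpty] at hcard
    omega
  have hall : ∀ φ₁ : X, φ₁ ≠ φ₀ → φ₁ ≠ cc L • φ₀ → ∀ φ : X, φ = φ₀ ∨ φ = cc L • φ₀ ∨ φ = φ₁ ∨
      φ = cc L • φ₁ := fun φ₁ h1 h2 φ =>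
    four_points (c := fun φ : X => cc L • φ) hcc hset.ne hcard h1 h2 φ
  by_cases hex : ∃ τ : L ≃ₐ[ℚ] L, τ • τ • φ₀ = cc L • φ₀
  · right
    obtain ⟨τ, hτ⟩ := hex
    have h1 : τ • φ₀ ≠ φ₀ := fun h => hset.ne φ₀ (by rw [← hτ, h, h])
    have h2 : τ • φ₀ ≠ cc L • φ₀ := fun h => hset.ne φ₀ (by
      rw [← hτ, h, hcτ, h, hcc])
    have hsurj : Function.Surjective (cyc (cc L) τ 2 φ₀) := by
      intro φ
      rcases hall _ h1 h2 φ with h | h | h | h
      · refine ⟨(0, false), ?_⟩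
        change τ ^ 0 • φ₀ = φ
        rw [pow_zero, one_smul, h]
      · refine ⟨(0, true), ?_⟩
        change cc L • τ ^ 0 • φ₀ = φ
        rw [pow_zero, one_smul, h]
      · refine ⟨(1, false), ?_⟩
        change τ ^ 1 • φ₀ = φ
        rw [pow_one, h]
      · refine ⟨(1, true), ?_⟩
        change cc L • τ ^ 1 • φ₀ = φ
        rw [pow_one, h]
    have hbij : Function.Bijective (cyc (cc L) τ 2 φ₀) := hsurj.bijective_of_nat_card_le (by
      rw [hcard, Nat.card_eq_fintype_card, Fintype.card_prod, Fintype.card_fin, Fintype.card_bool])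
    exact rigid_four hset.comm hτ hbij hset.trans
  · left
    push Not at hex
    obtain ⟨φ₁, h1, h2⟩ := exists_other (j := j) (hZ i) (by omega) φ₀
    have key1 : ∀ τ : L ≃ₐ[ℚ] L, τ • φ₀ = φ₁ → τ • φ₁ = φ₀ := by
      intro τ hτ
      rcases hall φ₁ h1 h2 (τ • φ₁) with h | h | h | h
      · exact h
      · exact absurd (by rw [hτ, h]) (hex τ)
      · exact absurd (MulAction.injective τ (h.trans hτ.symm)) h1
      · rw [← hτ, ← hcτ] at h
        exact absurd (MulAction.injective τ (by rw [hτ] at h; exact h)) h2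
    obtain ⟨σ, hσ⟩ := hset.trans φ₀ φ₁
    have key2 : ∀ g : L ≃ₐ[ℚ] L, g • φ₀ = φ₀ → g • φ₁ = φ₁ := by
      intro g hg
      rcases hall φ₁ h1 h2 (g • φ₁) with h | h | h | h
      · exact absurd (MulAction.injective g (h.trans hg.symm)) h1
      · have h3 : g • φ₁ = g • cc L • φ₀ := by rw [h, hcτ, hg]
        exact absurd (MulAction.injective g h3) h2
      · exact h
      · exfalso
        have h3 := key1 (σ * g) (by rw [mul_smul, hg, hσ])
        rw [mul_smul, h, hcτ, key1 σ hσ] at h3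
        exact hset.ne φ₀ h3
    let ε : X → ℤ := fun φ => eps j (Z.X.factor i) φ
    have hεc : ∀ φ, ε (cc L • φ) = -ε φ := (isSign_eps j (Z.X.factor i)).odd
    have hε : ∀ φ, ε φ = 1 ∨ ε φ = -1 := fun φ => eps_cases (j := j) (Z := Z) ⟨i, φ⟩
    obtain ⟨u, hu, hu1⟩ : ∃ u : ℤ, (u = 1 ∨ u = -1) ∧ ε φ₁ = u * ε φ₀ := by
      rcases hε φ₀ with e0 | e0 <;> rcases hε φ₁ with e1 | e1
      · exact ⟨1, Or.inl rfl, by rw [e0, e1, one_mul]⟩
      · exact ⟨-1, Or.inr rfl, by rw [e0, e1, mul_one]⟩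
      · exact ⟨-1, Or.inr rfl, by rw [e0, e1]; norm_num⟩
      · exact ⟨1, Or.inl rfl, by rw [e0, e1, one_mul]⟩
    have huu : u * u = 1 := by
      rcases hu with h | h <;> rw [h] <;> norm_num
    have hu0 : ε φ₀ = u * ε φ₁ := by rw [hu1, ← mul_assoc, huu, one_mul]
    have key3 : ∀ g : L ≃ₐ[ℚ] L, ε (g • φ₁) = u * ε (g • φ₀) := by
      intro g
      rcases hall φ₁ h1 h2 (g • φ₀) with h | h | h | h
      · rw [h, key2 g h, hu1]
      · have h3 : (cc L * g) • φ₀ = φ₀ := by rw [mul_smul, h, hcc]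
        have h4 := key2 _ h3
        rw [mul_smul] at h4
        have h5 : g • φ₁ = cc L • φ₁ := by rw [← h4, hcc, h4]
        rw [h5, h, hεc, hεc, hu1]
        ring
      · rw [h, key1 g h, hu0]
      · have h3 : (cc L * g) • φ₀ = φ₁ := by rw [mul_smul, h, hcc]
        have h4 := key1 _ h3
        rw [mul_smul] at h4
        have h5 : g • φ₁ = cc L • φ₀ := by rw [← h4, hcc]
        rw [h5, h, hεc, hεc, hu0]
        ring
    let T : X → (L ≃ₐ[ℚ] L) → ℤ := fun φ => tw p ν j Z.X ⟨i, φ⟩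
    have hTs : ∀ (σ : L ≃ₐ[ℚ] L) (φ : X), T (σ • φ) = Rt σ (T φ) := fun σ φ =>
      tw_smul (p := p) (ν := ν) (j := j) σ (⟨i, φ⟩ : Wt Z.X L)
    have hTc : ∀ φ : X, T (cc L • φ) = -T φ := fun φ => tw_cw (⟨i, φ⟩ : Wt Z.X L)
    have hT1 : ∀ g, T φ₁ g = u * T φ₀ g := by
      intro g
      have h3 : ∀ φ : X, T φ g = ∑ d : L ≃ₐ[ℚ] L, if d ∈ Dec p ν j then ε (d • g • φ) else 0 := by
        intro φ
        have h4 : T φ g = T (g • φ) 1 := by
          rw [hTs]
          unfold Rt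
          rw [one_mul]
        rw [h4]
        exact tw_one (⟨i, g • φ⟩ : Wt Z.X L)
      rw [h3, h3, Finset.mul_sum]
      refine Finset.sum_congr rfl fun d _ => ?_
      by_cases hd : d ∈ Dec p ν j
      · rw [if_pos hd, if_pos hd, ← mul_smul, key3, mul_smul]
      · rw [if_neg hd, if_neg hd, mul_zero]
    have hval : ∀ φ : X, T φ = T φ₀ ∨ T φ = -T φ₀ := by
      have h3 : T φ₁ = T φ₀ ∨ T φ₁ = -T φ₀ := by
        rcases hu with h | h
        · left
          funext g
          rw [hT1, h, one_mul]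
        · right
          funext g
          rw [hT1, h, Pi.neg_apply]
          ring
      intro φ
      rcases hall φ₁ h1 h2 φ with h | h | h | h
      · exact Or.inl (by rw [h])
      · exact Or.inr (by rw [h, hTc])
      · rw [h]
        exact h3
      · rw [h, hTc]
        rcases h3 with h4 | h4
        · exact Or.inr (by rw [h4])
        · exact Or.inl (by rw [h4, neg_neg])
    have hE : IsEig (T φ₀) := fun σ => by
      rw [← hTs]
      exact hval _
    rintro ⟨i', φ⟩ hi'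
    obtain rfl : i' = i := hi'
    rcases hval φ with h | h
    · change IsEig (T φ)
      rw [h]
      exact hE
    · change IsEig (T φ)
      rw [h]
      exact isEig_neg hE

/-- The degree of a CM field is even. -/
theorem even_finrank (A : CMPair) : Even (finrank ℚ A.E) := by
  have h1 := IsCMField.is_quadratic (K := A.E)
  have h2 : finrank ℚ (maximalRealSubfield A.E) * finrank (maximalRealSubfield A.E) A.E =
      finrank ℚ A.E := finrank_mul_finrank ℚ (maximalRealSubfield A.E) A.E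
  rw [h1.finrank_eq_two] at h2
  exact ⟨finrank ℚ (maximalRealSubfield A.E), by omega⟩

/-- Factors of dimension at most three. -/
theorem small_cases (hZ : Big Z.X j) {i : Z.X.I} (h6 : finrank ℚ (Z.X.factor i).E ≤ 6) :
    EigF p ν j Z i ∨ Rigid (cc L) ((Z.X.factor i).E →+* L) := by
  obtain ⟨m, hm⟩ := even_finrank (Z.X.factor i)
  have hpos : 0 < finrank ℚ (Z.X.factor i).E := finrank_pos
  have h1 : m = 1 ∨ m = 2 ∨ m = 3 := by omega
  rcases h1 with rfl | rfl | rfl
  · left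
    rintro l rfl
    exact isEig_of_two hZ (by rw [hm])
  · exact four_cases hZ (by rw [hm])
  · exact Or.inr (rigid_of_prime hZ Nat.prime_three (by norm_num) (by rw [hm]))

/-- Factors with large Galois group. -/
theorem large_rigid (hZ : Big Z.X j) {i : Z.X.I} (h6 : 6 < finrank ℚ (Z.X.factor i).E)
    (h : HasLargeGalois (Z.X.factor i).E) : Rigid (cc L) ((Z.X.factor i).E →+* L) := by
  have hfin : Finite ((Z.X.factor i).E →+* L) := Nat.finite_of_card_ne_zero (by
    rw [Pool.Agent.W67.TA.card_emb j hZ i]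
    exact finrank_pos.ne')
  let _ : Fintype ((Z.X.factor i).E →+* L) := Fintype.ofFinite _
  have hset := setting j (Z.X.factor i)
  rcases h with ⟨g, hg, hg2, hdim⟩ | h | h | h
  · exact rigid_of_prime hZ hg hg2 hdim
  · exact rigid_self hset.comm (isSelf_of (hZ i) (by omega) h) hset.trans
  rotate_left
  · obtain ⟨s, hs⟩ := isIrr_of (j := j) (hZ i) h
    exact rigid_irr hset.comm hset.sq hset.ne hset.trans (hasThree_of (hZ i) (by omega)) hs
  · obtain ⟨s, hs⟩ := isDouble_of (j := j) (hZ i) (by omega) h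
    have hne : Nonempty ((Z.X.factor i).E →+* L) := by
      by_contra hcon
      rw [not_nonempty_iff] at hcon
      have h1 := Pool.Agent.W67.TA.card_emb j hZ i
      rw [Nat.card_of_isEmpty] at h1
      omega
    exact rigid_double hset.comm hs hset.trans hset.sq

theorem large_indep (hZ : Big Z.X j) [Fintype (Wt Z.X L)] {i : Z.X.I}
    (h6 : 6 < finrank ℚ (Z.X.factor i).E) (h : HasLargeGalois (Z.X.factor i).E) :
    IndepAt p ν j Z i := by
  rcases h with ⟨g, hg, hg2, hdim⟩ | h | h | h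
  · obtain ⟨τ, φ₀, h1, h2, h3⟩ := prime_data (j := j) hZ hg hg2 hdim
    exact indep_prime hg h2 h1 h3
  · exact indep_self hZ (isSelf_of (hZ i) (by omega) h)
  · obtain ⟨s, hs⟩ := isDouble_of (j := j) (hZ i) (by omega) h
    exact indep_double hZ hs
  · have hfin : Finite ((Z.X.factor i).E →+* L) := Nat.finite_of_card_ne_zero (by
      rw [Pool.Agent.W67.TA.card_emb j hZ i]
      exact finrank_pos.ne')
    let _ : Fintype ((Z.X.factor i).E →+* L) := Fintype.ofFinite _
    obtain ⟨s, hs⟩ := isIrr_of (j := j) (hZ i) h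
    exact indep_irr hZ (hasThree_of (hZ i) (by omega)) hs

/-- The signs of the multiplicities of a separated factor. -/
theorem sgn_of_separated (hZ : Big Z.X j) [Fintype (Wt Z.X L)] {S : Set Z.X.I} {i : Z.X.I}
    (h6 : 6 < finrank ℚ (Z.X.factor i).E) (h : IsSeparatedFactor Z S i) (x : Wt Z.X L → ℤ)
    (hx : Re p ν j Z x) : EigF p ν j Z i ∨ Sgn x i := by
  refine sgn_of_sep (large_rigid hZ h6 h.large) (large_indep hZ h6 h.large) (fun k hk => ?_) x hx
  by_cases hss : IsSupersingular Z k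
  · exact Or.inl (eigF_ss hZ hss)
  have hcl : ∀ a b : Z.X.I, (¬ ∃ ρ : L ≃ₐ[ℚ] L, Tr L (Z.X.factor b) ρ ∧ ¬ Tr L (Z.X.factor a) ρ) →
      clos (Z.X.factor a) ≤ clos (Z.X.factor b) := by
    intro a b hab
    push Not at hab
    exact closure_le (j := j) (hZ a) hab
  rcases h.closure k hk hss with h1 | ⟨h1, h2⟩
  · right
    left
    by_contra hcon
    exact h1 (hcl i k hcon)
  · by_cases h3 : ∃ ρ : L ≃ₐ[ℚ] L, Tr L (Z.X.factor k) ρ ∧ ¬ Tr L (Z.X.factor i) ρ
    · exact Or.inr (Or.inl h3)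
    · have h4 := hcl i k h3
      have h5 : ∃ ρ : L ≃ₐ[ℚ] L, Tr L (Z.X.factor i) ρ ∧ ¬ Tr L (Z.X.factor k) ρ := by
        by_contra hcon
        exact h2 (le_antisymm (hcl k i hcon) h4)
      rcases le_or_gt (finrank ℚ (Z.X.factor k).E) 6 with h7 | h7
      · rcases small_cases (p := p) (ν := ν) (j := j) hZ h7 with h8 | h8
        · exact Or.inl h8
        · exact Or.inr (Or.inr ⟨h8, h5⟩)
      · exact Or.inr (Or.inr ⟨large_rigid hZ h7 (h1.resolve_left (by omega)), h5⟩)

end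

end Pool.Agent.Q43.HP
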