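import Pool.Agent.Q43.HP.Cond
import Pool.Agent.W495.FM.HomDefs

/-!
# The class of abelian varieties over finite fields with separated factors
-/

set_option autoImplicit false

namespace Pool.Agent.Q43.HP

open Pool.Agent.W495.TA Pool.Agent.W495.FM Pool.Agent.TH117.BL

variable {p : ℕ} [Fact p.Prime] {ν : PadicAlgCl p ≃+* ℂ}

/-- `Y` is isogenous, over an algebraic closure, to a product of a supersingular abelian variety and of
powers of the factors of an abelian variety `Z` whose factors of dimension at least four are separated
by the Galois closures of their CM fields (apart from some exceptions in a good set `S`). -/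
def IsSeparatedAV (Y : RedAV p ν) : Prop :=
  ∃ (Z : RedAV p ν) (S : Set Z.X.I), IsSeparated Z S ∧ IsPowersTimesSupersingular Z Y

/-- The groups of motivic and of `ℓ`-adic homology of `X` are those of an abelian variety `Y` as
above. -/
def IsSeparatedAbelian {Ω V : Type} [Field Ω] [CharZero Ω] (p : ℕ) [Fact p.Prime]
    (ν : PadicAlgCl p ≃+* ℂ) (T : Homology Ω V) (X : V) : Prop :=
  ∃ (Y : RedAV p ν) (C : Cycles Ω Y) (M : Motivic C) (g : ℕ), IsSeparatedAV Y ∧ IsChow C ∧
    IsMotivic M ∧ IsAbelian T X M g

end Pool.Agent.Q43.HP
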