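import Pool.Agent.Q43.HP.Cases
import Pool.Agent.Q43.HN.Sep

/-!
# The relations between the Frobenius eigenvalues
-/

set_option autoImplicit false
set_option linter.unusedSectionVars false
set_option linter.unusedVariables false

namespace Pool.Agent.Q43.HP

open NumberField Pool.Agent.H204R3.CM Pool.Agent.W547.KB Pool.Agent.W547.LD Pool.Agent.W547.HR
  Pool.Agent.W495.TA Pool.Agent.W495.TB Pool.Agent.W495.TC Pool.Agent.TH117.F5
  Pool.Agent.TH117.PO Pool.Agent.TH117.BL Module Pool.Agent.W976.TA Equiv Pool.Agent.Q43.HN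
open scoped TensorProduct

noncomputable section

variable {p : ℕ} [Fact p.Prime] {ν : PadicAlgCl p ≃+* ℂ}
  {L : Type} [Field L] [NumberField L] [IsCMField L] [IsGalois ℚ L] {j : L →+* ℂ}
  {Z : RedAV p ν}

section

variable [Fintype (Wt Z.X L)]

/-- The part on one factor. -/
def res1 (i : Z.X.I) (x : Wt Z.X L → ℤ) : Wt Z.X L → ℤ := open Classical in
  fun l => if l.1 = i then x l else 0

open Classical in
theorem DD_res1 (i : Z.X.I) (x : Wt Z.X L → ℤ) (f : (L ≃ₐ[ℚ] L) → ℤ) :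
    DD (tw p ν j Z.X) (res1 i x) f = ∑ l : Wt Z.X L with l.1 = i,
      x l * ((if tw p ν j Z.X l = f then 1 else 0) - (if tw p ν j Z.X l = -f then 1 else 0)) := by
  rw [DD_eq, Finset.sum_filter]
  refine Finset.sum_congr rfl fun l _ => ?_
  unfold res1
  by_cases h : l.1 = i
  · rw [if_pos h, if_pos h]
  · rw [if_neg h, if_neg h, zero_mul]

theorem DD_of_vf {i : Z.X.I} {x : Wt Z.X L → ℤ} (h : ∀ φ, vf x i φ = 0) :
    DD (tw p ν j Z.X) (res1 i x) = 0 := by
  classical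
  funext f
  rw [DD_res1, Pi.zero_apply]
  set S := ∑ l : Wt Z.X L with l.1 = i,
      x l * ((if tw p ν j Z.X l = f then 1 else 0) - (if tw p ν j Z.X l = -f then 1 else 0))
    with hS
  have h1 := sum_smul (cc L) i fun l : Wt Z.X L =>
      x l * ((if tw p ν j Z.X l = f then 1 else 0) - (if tw p ν j Z.X l = -f then 1 else 0))
  rw [← hS] at h1
  have h2 : S = -S := by
    nth_rewrite 1 [← h1]
    rw [hS, ← Finset.sum_neg_distrib]
    refine Finset.sum_congr rfl fun l hl => ?_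
    have hl' := (Finset.mem_filter.1 hl).2
    have h3 : x (cc L • l) = x l := by
      obtain ⟨i', φ⟩ := l
      obtain rfl : i' = i := hl'
      have h4 : x ⟨i', φ⟩ - x (cc L • (⟨i', φ⟩ : Wt Z.X L)) = 0 := h φ
      omega
    have h4 : tw p ν j Z.X (cc L • l) = -tw p ν j Z.X l := tw_cw l
    have h5 : (-tw p ν j Z.X l = f) ↔ (tw p ν j Z.X l = -f) := neg_eq_iff_eq_neg
    have h6 : (-tw p ν j Z.X l = -f) ↔ (tw p ν j Z.X l = f) := neg_inj
    rw [h3, h4]
    simp only [h5, h6]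
    ring
  omega

theorem DD_of_eig {i : Z.X.I} {x : Wt Z.X L → ℤ} (hE : EigF p ν j Z i)
    (h : ∀ σ, Fi p ν j Z x i σ = 0) : DD (tw p ν j Z.X) (res1 i x) = 0 := by
  classical
  funext f
  rw [DD_res1, Pi.zero_apply]
  by_cases hf : f = 0
  · refine Finset.sum_eq_zero fun l _ => ?_
    rw [hf, neg_zero, sub_self, mul_zero]
  by_cases hex : ∃ l₀ : Wt Z.X L, l₀.1 = i ∧ (tw p ν j Z.X l₀ = f ∨ tw p ν j Z.X l₀ = -f)
  · obtain ⟨l₀, hl₀, h0⟩ := hex
    have hnn : f ≠ -f := ne_neg_of hf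
    have hall : ∀ l : Wt Z.X L, l.1 = i → tw p ν j Z.X l = f ∨ tw p ν j Z.X l = -f := by
      intro l hl
      rcases hE.val hl₀ hl with h1 | h1 <;> rcases h0 with h2 | h2
      · exact Or.inl (h1.trans h2)
      · exact Or.inr (h1.trans h2)
      · exact Or.inr (by rw [h1, h2])
      · exact Or.inl (by rw [h1, h2, neg_neg])
    obtain ⟨σ, hσ⟩ : ∃ σ, f σ ≠ 0 := by
      by_contra hcon
      push Not at hcon
      exact hf (funext hcon)
    have h1 := h σ
    unfold Fi at h1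
    have h2 : ∑ l : Wt Z.X L with l.1 = i, x l * tw p ν j Z.X l σ =
        (∑ l : Wt Z.X L with l.1 = i, x l * ((if tw p ν j Z.X l = f then 1 else 0) -
          (if tw p ν j Z.X l = -f then 1 else 0))) * f σ := by
      rw [Finset.sum_mul]
      refine Finset.sum_congr rfl fun l hl => ?_
      rcases hall l (Finset.mem_filter.1 hl).2 with h3 | h3
      · rw [h3, if_pos rfl, if_neg hnn]
        ring
      · rw [h3, if_neg (fun h' => hnn h'.symm), if_pos rfl, Pi.neg_apply]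
        ring
    rw [h2] at h1
    exact (mul_eq_zero.1 h1).resolve_right hσ
  · push Not at hex
    refine Finset.sum_eq_zero fun l hl => ?_
    have h1 := hex l (Finset.mem_filter.1 hl).2
    rw [if_neg h1.1, if_neg h1.2, sub_self, mul_zero]

/-- Signs of the multiplicities. -/
theorem sgn_data {x : Wt Z.X L → ℤ} {i : Z.X.I} (hS : Sgn x i) {φ₁ : (Z.X.factor i).E →+* L}
    (h1 : vf x i φ₁ ≠ 0) (j : L →+* ℂ) : ∃ s : ((Z.X.factor i).E →+* L) → ℤ,
      (∀ φ, s φ = 1 ∨ s φ = -1) ∧ OddF (cc L) s ∧ SgnF (L ≃ₐ[ℚ] L) s ∧ s φ₁ = 1 ∧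
      ∀ φ, vf x i φ = vf x i φ₁ * s φ := by
  classical
  rw [sgn_iff] at hS
  set m := vf x i φ₁ with hm
  have hval : ∀ φ, vf x i φ = m ∨ vf x i φ = -m := by
    intro φ
    obtain ⟨σ, rfl⟩ := (setting j (Z.X.factor i)).trans φ₁ φ
    exact hS.abs σ φ₁
  have hmm : -m ≠ m := by omega
  let s : ((Z.X.factor i).E →+* L) → ℤ := fun φ => if vf x i φ = m then 1 else -1
  have hs : ∀ φ, vf x i φ = m * s φ := by
    intro φ
    change _ = m * if vf x i φ = m then 1 else -1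
    rcases hval φ with h | h
    · rw [if_pos h, h, mul_one]
    · rw [if_neg (by rw [h]; exact hmm), h, mul_neg, mul_one]
  refine ⟨s, fun φ => ?_, fun φ => ?_, fun σ => ?_, if_pos rfl, hs⟩
  · change (if vf x i φ = m then (1 : ℤ) else -1) = 1 ∨ (if vf x i φ = m then (1 : ℤ) else -1) = -1
    split_ifs
    · exact Or.inl rfl
    · exact Or.inr rfl
  · apply mul_left_cancel₀ h1
    rw [← hs, mul_neg, ← hs]
    exact vf_odd x i φ
  · refine (hS σ).imp (fun h φ => ?_) fun h φ => ?_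
    · apply mul_left_cancel₀ h1
      rw [← hs, ← hs, h]
    · apply mul_left_cancel₀ h1
      rw [← hs, mul_neg, ← hs, h]

/-- Signs of the functions. -/
theorem eig_data {i : Z.X.I} (hE : EigF p ν j Z i) {φ₁ : (Z.X.factor i).E →+* L}
    (h1 : tw p ν j Z.X ⟨i, φ₁⟩ ≠ 0) : ∃ s : ((Z.X.factor i).E →+* L) → ℤ,
      (∀ φ, s φ = 1 ∨ s φ = -1) ∧ OddF (cc L) s ∧ SgnF (L ≃ₐ[ℚ] L) s ∧ s φ₁ = 1 ∧
      ∀ φ σ, tw p ν j Z.X ⟨i, φ⟩ σ = s φ * tw p ν j Z.X ⟨i, φ₁⟩ σ := by
  classical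
  let T : ((Z.X.factor i).E →+* L) → (L ≃ₐ[ℚ] L) → ℤ := fun φ => tw p ν j Z.X ⟨i, φ⟩
  have hval : ∀ φ, T φ = T φ₁ ∨ T φ = -T φ₁ := fun φ => hE.val (l := ⟨i, φ₁⟩) rfl rfl
  have hnn : T φ₁ ≠ -T φ₁ := ne_neg_of h1
  let s : ((Z.X.factor i).E →+* L) → ℤ := fun φ => if T φ = T φ₁ then 1 else -1
  have hs : ∀ φ σ, T φ σ = s φ * T φ₁ σ := by
    intro φ σ
    change _ = (if T φ = T φ₁ then 1 else -1) * T φ₁ σ
    rcases hval φ with h | h
    · rw [if_pos h, h, one_mul]
    · rw [if_neg (by rw [h]; exact hnn.symm), h, Pi.neg_apply]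
      ring
  obtain ⟨σ₀, hσ₀⟩ : ∃ σ, T φ₁ σ ≠ 0 := by
    by_contra hcon
    push Not at hcon
    exact h1 (funext hcon)
  have hs2 : ∀ φ ψ, T φ = T ψ → s φ = s ψ := by
    intro φ ψ h
    change (if T φ = T φ₁ then (1 : ℤ) else -1) = if T ψ = T φ₁ then 1 else -1
    rw [h]
  have hs3 : ∀ φ ψ, T φ = -T ψ → s φ = -s ψ := by
    intro φ ψ h
    apply mul_right_cancel₀ hσ₀
    have h2 := hs φ σ₀
    have h3 := hs ψ σ₀
    rw [h, Pi.neg_apply] at h2
    linarith
  refine ⟨s, fun φ => ?_, fun φ => ?_, fun σ => ?_, if_pos rfl, hs⟩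
  · change (if T φ = T φ₁ then (1 : ℤ) else -1) = 1 ∨ (if T φ = T φ₁ then (1 : ℤ) else -1) = -1
    split_ifs
    · exact Or.inl rfl
    · exact Or.inr rfl
  · exact hs3 _ _ (tw_cw (⟨i, φ⟩ : Wt Z.X L))
  · refine (hE.sign σ).imp (fun h φ => ?_) fun h φ => ?_
    · exact hs2 _ _ (h ⟨i, φ⟩ rfl)
    · exact hs3 _ _ (h ⟨i, φ⟩ rfl)

end

/-- Half of the embeddings. -/
theorem card_half {E : Type} [Field E] [NumberField E] {t : E} {d : ℕ} (hd : 0 < d)
    (ht : t ^ 2 = -(d : E)) [DecidablePred fun φ : E →+* ℂ => 0 < (φ t).im] :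
    2 * (Finset.univ.filter fun φ : E →+* ℂ => 0 < (φ t).im).card = finrank ℚ E := by
  classical
  have him : ∀ φ : E →+* ℂ, (φ t).im ≠ 0 := fun φ => im_ne_root hd (by
    rw [← map_pow, ht, map_neg, map_natCast])
  have h1 : (Finset.univ.filter fun φ : E →+* ℂ => ¬ 0 < (φ t).im).card =
      (Finset.univ.filter fun φ : E →+* ℂ => 0 < (φ t).im).card := by
    refine Finset.card_bij (fun φ _ => ComplexEmbedding.conjugate φ) ?_ ?_ ?_
    · intro φ hφ
      rw [Finset.mem_filter] at hφ ⊢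
      refine ⟨Finset.mem_univ _, ?_⟩
      rw [ComplexEmbedding.conjugate_coe_eq, Complex.conj_im]
      have h2 := him φ
      have h3 := hφ.2
      push Not at h3
      have h4 := lt_of_le_of_ne h3 h2
      linarith
    · intro φ _ ψ _ h
      have h2 := congrArg ComplexEmbedding.conjugate h
      simpa using h2
    · intro φ hφ
      rw [Finset.mem_filter] at hφ
      refine ⟨ComplexEmbedding.conjugate φ, ?_, by simp⟩
      rw [Finset.mem_filter]
      refine ⟨Finset.mem_univ _, ?_⟩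
      rw [ComplexEmbedding.conjugate_coe_eq, Complex.conj_im]
      have h3 := hφ.2
      push Not
      linarith
  have h2 := Finset.card_filter_add_card_filter_not (s := (Finset.univ : Finset (E →+* ℂ)))
    (fun φ : E →+* ℂ => 0 < (φ t).im)
  rw [h1, Finset.card_univ, Embeddings.card] at h2
  omega

section

variable [Fintype (Wt Z.X L)]

open Classical in
/-- Norm relations. -/
theorem balanced_of (hZ : Big Z.X j) {i : Z.X.I} {t : (Z.X.factor i).E} {d : ℕ} (hd : 0 < d)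
    (ht : t ^ 2 = -(d : (Z.X.factor i).E))
    (h : ∀ σ, ∑ l : Wt Z.X L with l.1 = i, (if 0 < (j (l.2 ((Pi.single i t : Z.X.H1) l.1))).im
      then tw p ν j Z.X l σ else 0) = 0) : IsBalanced Z i t := by
  classical
  let tt : Z.X.H1 := Pi.single i t
  have htt : tt i = t := Pi.single_eq_same (M := fun k => (Z.X.factor k).E) i t
  let e : Emb Z → ℕ := fun w => if w.1 = i ∧ 0 < (w.2 (tt w.1)).im then 1 else 0
  have hrel : IsRel Z e := by
    rw [isRel_iff hZ]
    intro σ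
    rw [← h σ, Finset.sum_filter]
    refine Finset.sum_congr rfl fun l _ => ?_
    change (((if l.1 = i ∧ 0 < (j (l.2 (tt l.1))).im then 1 else 0 : ℕ) : ℤ)) * _ = _
    by_cases h1 : l.1 = i
    · by_cases h2 : 0 < (j (l.2 (tt l.1))).im
      · rw [if_pos ⟨h1, h2⟩, if_pos h1, if_pos h2, Nat.cast_one, one_mul]
      · rw [if_neg fun h' => h2 h'.2, if_pos h1, if_neg h2, Nat.cast_zero, zero_mul]
    · rw [if_neg fun h' => h1 h'.1, if_neg h1, Nat.cast_zero, zero_mul]
  have hsum : 2 * ∑ w, e w = finrank ℚ (Z.X.factor i).E := by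
    rw [← card_half hd ht, Fintype.sum_sigma]
    congr 1
    rw [Finset.sum_eq_single i]
    · rw [Finset.card_filter]
      refine Finset.sum_congr rfl fun φ _ => ?_
      change (if i = i ∧ 0 < (φ (tt i)).im then 1 else 0) = _
      rw [htt]
      simp
    · intro k _ hk
      refine Finset.sum_eq_zero fun φ _ => ?_
      exact if_neg fun h' => hk h'.1
    · intro h'
      exact absurd (Finset.mem_univ i) h'
  have hprod : ∏ w, eig Z w ^ e w = ∏ φ : (Z.X.factor i).E →+* ℂ,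
      if 0 < (φ t).im then eig Z ⟨i, φ⟩ else 1 := by
    rw [Fintype.prod_sigma, Finset.prod_eq_single i]
    · refine Finset.prod_congr rfl fun φ _ => ?_
      change eig Z ⟨i, φ⟩ ^ (if i = i ∧ 0 < (φ (tt i)).im then 1 else 0) = _
      rw [htt]
      by_cases h1 : 0 < (φ t).im
      · rw [if_pos ⟨rfl, h1⟩, if_pos h1, pow_one]
      · rw [if_neg fun h' => h1 h'.2, if_neg h1, pow_zero]
    · intro k _ hk
      refine Finset.prod_eq_one fun φ _ => ?_
      have h1 : e ⟨k, φ⟩ = 0 := if_neg fun h' => hk h'.1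
      rw [h1, pow_zero]
    · intro h'
      exact absurd (Finset.mem_univ i) h'
  obtain ⟨s, hs, h1⟩ := hrel
  rw [hprod] at h1
  refine ⟨s, hs, ?_⟩
  rw [← hsum]
  calc _ = ((∏ φ : (Z.X.factor i).E →+* ℂ,
      if 0 < (φ t).im then eig Z ⟨i, φ⟩ else 1) ^ (2 * s)) ^ 2 := by
        rw [← pow_mul]
        congr 1
        ring
    _ = _ := by
      rw [h1, ← pow_mul]
      congr 1
      ring

end

end

end Pool.Agent.Q43.HP
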