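import Pool.Agent.Q43.HP.Sep

/-!
# Relations in which the other factors contribute functions with signs
-/

set_option autoImplicit false
set_option linter.unusedSectionVars false
set_option linter.unusedVariables false

namespace Pool.Agent.Q43.HP

open NumberField Pool.Agent.H204R3.CM Pool.Agent.W547.KB Pool.Agent.W547.LD Pool.Agent.W547.HR
  Pool.Agent.W495.TA Pool.Agent.W495.TB Pool.Agent.W495.TC Pool.Agent.TH117.F5
  Pool.Agent.TH117.PO Pool.Agent.TH117.BL Module Pool.Agent.W976.TA Equiv Pool.Agent.Q43.HN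
open scoped TensorProduct

noncomputable section

variable {p : ℕ} [Fact p.Prime] {ν : PadicAlgCl p ≃+* ℂ}
  {L : Type} [Field L] [NumberField L] [IsCMField L] [IsGalois ℚ L] {j : L →+* ℂ}
  {Z : RedAV p ν}

theorem isEig_neg {f : (L ≃ₐ[ℚ] L) → ℤ} (h : IsEig f) : IsEig (-f) := fun σ => by
  rw [Rt_neg]
  exact (h σ).imp (fun h' => by rw [h']) fun h' => by rw [h']

theorem isEig_Rt {f : (L ≃ₐ[ℚ] L) → ℤ} (h : IsEig f) (σ : L ≃ₐ[ℚ] L) : IsEig (Rt σ f) := by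
  rcases h σ with h' | h'
  · rw [h']
    exact h
  · rw [h']
    exact isEig_neg h

theorem Rt_inv {f : (L ≃ₐ[ℚ] L) → ℤ} {σ : L ≃ₐ[ℚ] L} (h : Rt σ f = f) : Rt σ⁻¹ f = f := by
  conv_lhs => rw [← h]
  rw [Rt_self_inv]

theorem Rt_inv' {f : (L ≃ₐ[ℚ] L) → ℤ} {σ : L ≃ₐ[ℚ] L} (h : Rt σ f = -f) : Rt σ⁻¹ f = -f := by
  have h1 : Rt σ⁻¹ (Rt σ f) = f := Rt_self_inv σ f
  rw [h, Rt_neg] at h1
  exact neg_eq_iff_eq_neg.1 h1

/-- Commutators. -/
theorem Rt_comm {f : (L ≃ₐ[ℚ] L) → ℤ} (h : IsEig f) (a b : L ≃ₐ[ℚ] L) :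
    Rt (a * b * a⁻¹ * b⁻¹) f = f := by
  rw [Rt_mul, Rt_mul, Rt_mul]
  rcases h a with h1 | h1 <;> rcases h b with h2 | h2
  · rw [Rt_inv h2, Rt_inv h1, h2, h1]
  · rw [Rt_inv' h2, Rt_neg, Rt_inv h1, Rt_neg, h2, neg_neg, h1]
  · rw [Rt_inv h2, Rt_inv' h1, Rt_neg, h2, Rt_neg, h1, neg_neg]
  · rw [Rt_inv' h2, Rt_neg, Rt_inv' h1, neg_neg, h2, Rt_neg, h1, neg_neg]

theorem Rt_comm_inv {f : (L ≃ₐ[ℚ] L) → ℤ} (h : IsEig f) (a b : L ≃ₐ[ℚ] L) :
    Rt (a * b * a⁻¹ * b⁻¹)⁻¹ f = f := Rt_inv (Rt_comm h a b)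

section

variable [Fintype (Wt Z.X L)]

open Classical in
theorem sum_factor (i : Z.X.I) [Fintype ((Z.X.factor i).E →+* L)] (f : Wt Z.X L → ℤ) :
    ∑ l : Wt Z.X L with l.1 = i, f l = ∑ φ : (Z.X.factor i).E →+* L, f ⟨i, φ⟩ := by
  symm
  refine Finset.sum_bij (fun φ _ => (⟨i, φ⟩ : Wt Z.X L)) ?_ ?_ ?_ ?_
  · intro φ _
    rw [Finset.mem_filter]
    exact ⟨Finset.mem_univ _, rfl⟩
  · intro φ _ φ' _ h
    exact eq_of_heq (Sigma.mk.inj_iff.1 h).2
  · rintro ⟨i', φ⟩ hl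
    rw [Finset.mem_filter] at hl
    obtain rfl : i' = i := hl.2
    exact ⟨φ, Finset.mem_univ _, rfl⟩
  · intro φ _
    rfl

theorem Fi_smul (x : Wt Z.X L → ℤ) (σ : L ≃ₐ[ℚ] L) (k : Z.X.I) :
    Fi p ν j Z (fun l => x (σ • l)) k = Rt σ⁻¹ (Fi p ν j Z x k) := by
  classical
  funext h
  change Fi p ν j Z (fun l => x (σ • l)) k h = Fi p ν j Z x k (h * σ⁻¹)
  unfold Fi
  rw [← sum_smul σ k fun l => x l * tw p ν j Z.X l (h * σ⁻¹)]
  refine Finset.sum_congr rfl fun l _ => ?_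
  rw [tw_smul]
  unfold Rt
  rw [inv_mul_cancel_right]

theorem Fi_sub (x y : Wt Z.X L → ℤ) (k : Z.X.I) (h : L ≃ₐ[ℚ] L) :
    Fi p ν j Z (fun l => x l - y l) k h = Fi p ν j Z x k h - Fi p ν j Z y k h := by
  classical
  unfold Fi
  rw [← Finset.sum_sub_distrib]
  exact Finset.sum_congr rfl fun l _ => by ring

/-- The differences of the translates by commutators. -/
theorem comm_zero {i : Z.X.I} {x : Wt Z.X L → ℤ} (hE : ∀ k, k ≠ i → IsEig (Fi p ν j Z x k))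
    (σ a b : L ≃ₐ[ℚ] L) (k : Z.X.I) (hk : k ≠ i) (h : L ≃ₐ[ℚ] L) :
    Fi p ν j Z (fun l => x (σ • l) - x ((σ * (a * b * a⁻¹ * b⁻¹)) • l)) k h = 0 := by
  rw [Fi_sub, Fi_smul, Fi_smul, mul_inv_rev, Rt_mul,
    Rt_comm_inv (isEig_Rt (hE k hk) σ⁻¹), sub_self]

/-- Relations of one factor. -/
theorem alone {i : Z.X.I} [Fintype ((Z.X.factor i).E →+* L)] {y : Wt Z.X L → ℤ}
    (hy : Re p ν j Z y) (h0 : ∀ k, k ≠ i → ∀ h, Fi p ν j Z y k h = 0) (h : L ≃ₐ[ℚ] L) :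
    ∑ φ : (Z.X.factor i).E →+* L, vf y i φ * tw p ν j Z.X ⟨i, φ⟩ h = 0 := by
  classical
  have h1 := hy h
  rw [← Fi_sum, ← Finset.add_sum_erase Finset.univ _ (Finset.mem_univ i),
    Finset.sum_eq_zero (fun k hk => h0 k (Finset.ne_of_mem_erase hk) h), add_zero] at h1
  have h2 := Fi_two (p := p) (ν := ν) (j := j) y i h
  rw [h1, mul_zero] at h2
  rw [h2]
  exact (sum_factor i fun l => xm y l * tw p ν j Z.X l h).symm

/-- Averages over the stabilizer. -/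
theorem stab_sum {i : Z.X.I} [Fintype ((Z.X.factor i).E →+* L)]
    {v : ((Z.X.factor i).E →+* L) → ℤ}
    (hv : ∀ h, ∑ φ : (Z.X.factor i).E →+* L, v φ * tw p ν j Z.X ⟨i, φ⟩ h = 0)
    (s : Finset (L ≃ₐ[ℚ] L)) (h : L ≃ₐ[ℚ] L) :
    ∑ φ : (Z.X.factor i).E →+* L, (∑ σ ∈ s, v (σ • φ)) * tw p ν j Z.X ⟨i, φ⟩ h = 0 := by
  classical
  simp only [Finset.sum_mul]
  rw [Finset.sum_comm]
  refine Finset.sum_eq_zero fun σ _ => ?_
  have h1 := hv (h * σ⁻¹)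
  rw [← h1]
  rw [← Equiv.sum_comp (MulAction.toPerm σ) fun φ : (Z.X.factor i).E →+* L =>
    v φ * tw p ν j Z.X ⟨i, φ⟩ (h * σ⁻¹)]
  refine Finset.sum_congr rfl fun φ _ => ?_
  rw [MulAction.toPerm_apply]
  congr 1
  have h2 : tw p ν j Z.X (⟨i, σ • φ⟩ : Wt Z.X L) = Rt σ (tw p ν j Z.X ⟨i, φ⟩) :=
    tw_smul (p := p) (ν := ν) (j := j) σ (⟨i, φ⟩ : Wt Z.X L)
  rw [h2]
  unfold Rt
  rw [inv_mul_cancel_right]

/-! ### Odd prime dimension -/

/-- Functions which are invariant under the cycle. -/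
theorem eigF_of_inv {i : Z.X.I} {g : ℕ} {τ : L ≃ₐ[ℚ] L} {φ₀ : (Z.X.factor i).E →+* L}
    (hbij : Function.Bijective (cyc (cc L) τ g φ₀))
    (hII : Rt τ (tw p ν j Z.X ⟨i, φ₀⟩) = tw p ν j Z.X ⟨i, φ₀⟩) : EigF p ν j Z i := by
  classical
  let X₀ := (Z.X.factor i).E →+* L
  let T := tw p ν j Z.X
  set B := cyc (cc L) τ g φ₀ with hB
  let t : (L ≃ₐ[ℚ] L) → ℤ := T ⟨i, φ₀⟩
  have hTpow : ∀ k : ℕ, T ⟨i, τ ^ k • φ₀⟩ = Rt (τ ^ k) t := fun k => tw_smul (τ ^ k) ⟨i, φ₀⟩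
  have hTcc : ∀ φ : X₀, T ⟨i, cc L • φ⟩ = -T ⟨i, φ⟩ := fun φ => tw_cw ⟨i, φ⟩
  have hk : ∀ k : ℕ, Rt (τ ^ k) t = t := by
    intro k
    induction k with
    | zero => rw [pow_zero, Rt_one]
    | succ k ih => rw [pow_succ, Rt_mul, hII, ih]
  have hval : ∀ φ : X₀, T ⟨i, φ⟩ = t ∨ T ⟨i, φ⟩ = -t := by
    intro φ
    obtain ⟨⟨k, b⟩, rfl⟩ := hbij.2 φ
    rcases b with _ | _
    · left
      exact (hTpow k).trans (hk k)
    · right
      have h1 : B (k, true) = cc L • τ ^ (k : ℕ) • φ₀ := rfl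
      rw [h1, hTcc, hTpow, hk]
  have hEt : IsEig t := by
    intro σ
    have h1 : Rt σ t = T ⟨i, σ • φ₀⟩ := (tw_smul σ ⟨i, φ₀⟩).symm
    rw [h1]
    exact hval _
  rintro ⟨i', φ⟩ hi'
  obtain rfl : i' = i := hi'
  rcases hval φ with h1 | h1
  · change IsEig (T ⟨i', φ⟩)
    rw [h1]
    exact hEt
  · change IsEig (T ⟨i', φ⟩)
    rw [h1]
    exact isEig_neg hEt

theorem indep_prime {i : Z.X.I} {g : ℕ} (hg : g.Prime)
    {τ : L ≃ₐ[ℚ] L} {φ₀ : (Z.X.factor i).E →+* L} (hτg : τ ^ g • φ₀ = φ₀)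
    (hodd : Odd (orderOf τ)) (hbij : Function.Bijective (cyc (cc L) τ g φ₀)) :
    IndepAt p ν j Z i := by
  classical
  intro x hx hE
  let T := tw p ν j Z.X
  let t : (L ≃ₐ[ℚ] L) → ℤ := T ⟨i, φ₀⟩
  have hTpow : ∀ k : ℕ, T ⟨i, τ ^ k • φ₀⟩ = Rt (τ ^ k) t := fun k => tw_smul (τ ^ k) ⟨i, φ₀⟩
  have hTg : Rt (τ ^ g) t = t := by
    rw [← hTpow, hτg]
  have hcases : ∀ σ : L ≃ₐ[ℚ] L, Rt τ t = t ∨ ∀ k < g,
      vf x i (σ • τ ^ k • φ₀) = vf x i (σ • τ ^ 0 • φ₀) := by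
    intro σ
    have hy := hx.smul σ
    have hrest : ∀ h, Fi p ν j Z (fun l => x (σ • l)) i h =
        -∑ i' ∈ Finset.univ.erase i, Fi p ν j Z (fun l => x (σ • l)) i' h := by
      intro h
      have h1 := hy h
      rw [← Fi_sum, ← Finset.add_sum_erase Finset.univ _ (Finset.mem_univ i)] at h1
      linarith
    have h1 := const_or t τ hg (fun h => congrFun hTg h)
      (fun k => xm (fun l => x (σ • l)) ⟨i, τ ^ k • φ₀⟩) (fun h => by
        have e1 := Fi_cyc (p := p) (ν := ν) (j := j) hbij (fun l => x (σ • l)) (h * τ)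
        have e2 := Fi_cyc (p := p) (ν := ν) (j := j) hbij (fun l => x (σ • l)) h
        refine e1.symm.trans (Eq.trans ?_ e2)
        rw [hrest, hrest]
        congr 1
        refine Finset.sum_congr rfl fun i' hi' => ?_
        rw [Fi_smul]
        exact congrFun (Rt_of_odd (isEig_Rt (hE i' (Finset.ne_of_mem_erase hi')) σ⁻¹) hodd) h)
    refine h1.imp (fun h => funext h) fun h k hk => ?_
    have h2 := h k hk
    have e1 := vf_smul (j := j) x σ i (τ ^ k • φ₀)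
    have e2 := vf_smul (j := j) x σ i (τ ^ 0 • φ₀)
    rw [← e1, ← e2]
    exact h2
  by_cases hII : Rt τ t = t
  · exact Or.inl (eigF_of_inv hbij hII)
  · right
    rw [sgn_iff]
    refine sgn_of_orbit (fun h => cc_comm j h) hbij (vf_odd x i) fun σ n hn => ?_
    have h1 := (hcases σ).resolve_left hII n hn
    rw [pow_zero, one_smul] at h1
    exact h1

/-! ### Complex conjugations on one of two embeddings -/

theorem indep_self {i : Z.X.I} (hZ : Big Z.X j) (hS : IsSelf (cc L) ((Z.X.factor i).E →+* L)) :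
    IndepAt p ν j Z i := by
  classical
  intro x hx hE
  have hfin : Finite ((Z.X.factor i).E →+* L) := Nat.finite_of_card_ne_zero (by
    rw [Pool.Agent.W67.TA.card_emb j hZ i]
    exact finrank_pos.ne')
  let _ : Fintype ((Z.X.factor i).E →+* L) := Fintype.ofFinite _
  have hset := setting j (Z.X.factor i)
  by_cases hT : ∀ l : Wt Z.X L, l.1 = i → tw p ν j Z.X l = 0
  · left
    intro l hl σ
    left
    rw [hT l hl]
    rfl
  right
  push Not at hT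
  obtain ⟨l₀, hl₀, hT₀⟩ := hT
  have hTne : ∀ φ : (Z.X.factor i).E →+* L, tw p ν j Z.X ⟨i, φ⟩ ≠ 0 := by
    intro φ h
    apply hT₀
    obtain ⟨σ, hσ⟩ := exists_smul j (l := (⟨i, φ⟩ : Wt Z.X L)) (l' := l₀) hl₀.symm
    rw [← hσ, tw_smul, h]
    rfl
  -- relations of this factor alone
  have stepA : ∀ v : ((Z.X.factor i).E →+* L) → ℤ, OddF (cc L) v →
      (∀ h, ∑ φ : (Z.X.factor i).E →+* L, v φ * tw p ν j Z.X ⟨i, φ⟩ h = 0) → ∀ φ, v φ = 0 := by
    intro v hv hsum φ₁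
    let s : Finset (L ≃ₐ[ℚ] L) := Finset.univ.filter fun σ => σ • φ₁ = φ₁
    let u : ((Z.X.factor i).E →+* L) → ℤ := fun φ => ∑ σ ∈ s, v (σ • φ)
    have hs1 : (1 : L ≃ₐ[ℚ] L) ∈ s := Finset.mem_filter.2 ⟨Finset.mem_univ _, one_smul _ _⟩
    have hcard : (s.card : ℤ) ≠ 0 := by
      have h1 : 0 < s.card := Finset.card_pos.2 ⟨1, hs1⟩
      exact_mod_cast h1.ne'
    have hu1 : u φ₁ = s.card * v φ₁ := by
      change ∑ σ ∈ s, v (σ • φ₁) = _
      rw [Finset.sum_congr rfl fun σ hσ => by rw [(Finset.mem_filter.1 hσ).2], Finset.sum_const,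
        nsmul_eq_mul]
    have huodd : OddF (cc L) u := by
      intro φ
      change ∑ σ ∈ s, v (σ • cc L • φ) = -∑ σ ∈ s, v (σ • φ)
      rw [← Finset.sum_neg_distrib]
      exact Finset.sum_congr rfl fun σ _ => by rw [smul_c (fun h => cc_comm j h), hv]
    have hu0 : ∀ φ, φ ≠ φ₁ → φ ≠ cc L • φ₁ → u φ = 0 := by
      intro φ h1 h2
      obtain ⟨σ₀, h3, h4⟩ := hS.1 φ₁ φ h1 h2
      have h5 : u (σ₀ • φ) = u φ := by
        change ∑ σ ∈ s, v (σ • σ₀ • φ) = ∑ σ ∈ s, v (σ • φ)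
        refine Finset.sum_bij (fun σ _ => σ * σ₀) ?_ ?_ ?_ ?_
        · intro σ hσ
          rw [Finset.mem_filter] at hσ ⊢
          refine ⟨Finset.mem_univ _, ?_⟩
          rw [mul_smul, h3, hσ.2]
        · intro σ _ σ' _ h
          exact mul_right_cancel h
        · intro σ hσ
          rw [Finset.mem_filter] at hσ
          refine ⟨σ * σ₀⁻¹, ?_, inv_mul_cancel_right _ _⟩
          rw [Finset.mem_filter]
          refine ⟨Finset.mem_univ _, ?_⟩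
          have h6 : σ₀⁻¹ • φ₁ = φ₁ := by rw [inv_smul_eq_iff, h3]
          rw [mul_smul, h6, hσ.2]
        · intro σ _
          rw [mul_smul]
      rw [h4, huodd] at h5
      omega
    by_contra hne
    apply hTne φ₁
    funext h
    have h1 := stab_sum (p := p) (ν := ν) (j := j) hsum s h
    have h2 : ∑ φ : (Z.X.factor i).E →+* L, u φ * tw p ν j Z.X ⟨i, φ⟩ h =
        ∑ φ ∈ ({φ₁, cc L • φ₁} : Finset ((Z.X.factor i).E →+* L)),
          u φ * tw p ν j Z.X ⟨i, φ⟩ h := by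
      symm
      apply Finset.sum_subset (Finset.subset_univ _)
      intro φ _ hφ
      rw [Finset.mem_insert, Finset.mem_singleton, not_or] at hφ
      rw [hu0 φ hφ.1 hφ.2, zero_mul]
    rw [Finset.sum_pair (hset.ne φ₁).symm] at h2
    have h3 : tw p ν j Z.X ⟨i, cc L • φ₁⟩ h = -tw p ν j Z.X ⟨i, φ₁⟩ h :=
      congrFun (tw_cw (⟨i, φ₁⟩ : Wt Z.X L)) h
    have h4 : u (cc L • φ₁) = -u φ₁ := huodd φ₁
    rw [h3, h4, hu1] at h2
    have h5 : ∑ φ : (Z.X.factor i).E →+* L, u φ * tw p ν j Z.X ⟨i, φ⟩ h = 0 := h1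
    rw [h2] at h5
    have h6 : (s.card : ℤ) * v φ₁ * tw p ν j Z.X ⟨i, φ₁⟩ h = 0 := by linarith
    exact (mul_eq_zero.1 h6).resolve_left (mul_ne_zero hcard hne)
  -- commutators
  have stepB : ∀ (a b : L ≃ₐ[ℚ] L) (φ : (Z.X.factor i).E →+* L),
      vf x i φ = vf x i ((a * b * a⁻¹ * b⁻¹) • φ) := by
    intro a b φ
    let y : Wt Z.X L → ℤ := fun l => x ((1 : L ≃ₐ[ℚ] L) • l) -
      x (((1 : L ≃ₐ[ℚ] L) * (a * b * a⁻¹ * b⁻¹)) • l)
    have hy : Re p ν j Z y := re_sub (hx.smul 1) (hx.smul _)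
    have h1 := stepA (vf y i) (vf_odd y i) (fun h => alone hy (fun k hk h =>
      comm_zero (j := j) hE 1 a b k hk h) h) φ
    have e1 := vf_smul (j := j) x 1 i φ
    have e2 := vf_smul (j := j) x (1 * (a * b * a⁻¹ * b⁻¹)) i φ
    have h2 : vf y i φ = vf x i ((1 : L ≃ₐ[ℚ] L) • φ) -
        vf x i (((1 : L ≃ₐ[ℚ] L) * (a * b * a⁻¹ * b⁻¹)) • φ) := by
      rw [← e1, ← e2]
      change (x ((1 : L ≃ₐ[ℚ] L) • ⟨i, φ⟩) - x (((1 : L ≃ₐ[ℚ] L) * (a * b * a⁻¹ * b⁻¹)) • ⟨i, φ⟩)) -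
        (x ((1 : L ≃ₐ[ℚ] L) • cw Z ⟨i, φ⟩) -
          x (((1 : L ≃ₐ[ℚ] L) * (a * b * a⁻¹ * b⁻¹)) • cw Z ⟨i, φ⟩)) =
        (x ((1 : L ≃ₐ[ℚ] L) • ⟨i, φ⟩) - x ((1 : L ≃ₐ[ℚ] L) • cw Z ⟨i, φ⟩)) -
          (x (((1 : L ≃ₐ[ℚ] L) * (a * b * a⁻¹ * b⁻¹)) • ⟨i, φ⟩) -
            x (((1 : L ≃ₐ[ℚ] L) * (a * b * a⁻¹ * b⁻¹)) • cw Z ⟨i, φ⟩))
      ring
    rw [h2, one_smul, one_mul] at h1
    exact sub_eq_zero.1 h1
  rw [sgn_iff]
  refine sgnF_zero fun φ => ?_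
  obtain ⟨φ', h1, h2⟩ := hS.2 φ
  obtain ⟨ρ, hρ⟩ := hset.trans φ φ'
  obtain ⟨σ₀, h3, h4⟩ := hS.1 φ φ' h1 h2
  have h5 := stepB ρ⁻¹ σ₀ φ
  have h6 : (ρ⁻¹ * σ₀ * ρ⁻¹⁻¹ * σ₀⁻¹) • φ = cc L • φ := by
    have h7 : σ₀⁻¹ • φ = φ := by rw [inv_smul_eq_iff, h3]
    rw [inv_inv, mul_smul, mul_smul, mul_smul, h7, hρ, h4, smul_c (fun h => cc_comm j h),
      ← hρ, inv_smul_smul]
  rw [h6, vf_odd] at h5
  omega

/-! ### Doubly transitive actions -/

theorem indep_double {i : Z.X.I} (hZ : Big Z.X j) {s : ((Z.X.factor i).E →+* L) → ℤ}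
    (hD : IsDouble (cc L) s) : IndepAt p ν j Z i := by
  classical
  intro x hx hE
  have hfin : Finite ((Z.X.factor i).E →+* L) := Nat.finite_of_card_ne_zero (by
    rw [Pool.Agent.W67.TA.card_emb j hZ i]
    exact finrank_pos.ne')
  let _ : Fintype ((Z.X.factor i).E →+* L) := Fintype.ofFinite _
  have hset := setting j (Z.X.factor i)
  by_cases hEig : EigF p ν j Z i
  · exact Or.inl hEig
  right
  let X₀ := (Z.X.factor i).E →+* L
  let T : X₀ → (L ≃ₐ[ℚ] L) → ℤ := fun φ => tw p ν j Z.X ⟨i, φ⟩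
  have hTs : ∀ (σ : L ≃ₐ[ℚ] L) (φ : X₀), T (σ • φ) = Rt σ (T φ) := fun σ φ =>
    tw_smul (p := p) (ν := ν) (j := j) σ (⟨i, φ⟩ : Wt Z.X L)
  have hTc : ∀ φ : X₀, T (cc L • φ) = -T φ := fun φ => tw_cw (⟨i, φ⟩ : Wt Z.X L)
  have hss : ∀ φ, s φ * s φ = 1 := by
    intro φ
    rcases hD.sign φ with h | h <;> rw [h] <;> norm_num
  -- relations of this factor alone
  have stepA : ∀ v : X₀ → ℤ, OddF (cc L) v → ∑ φ, s φ * v φ = 0 →
      (∀ h, ∑ φ : X₀, v φ * T φ h = 0) → ∀ φ, v φ = 0 := by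
    intro v hv hM hsum φ₁
    by_contra hne
    apply hEig
    let st : Finset (L ≃ₐ[ℚ] L) := Finset.univ.filter fun σ => σ • φ₁ = φ₁
    let u : X₀ → ℤ := fun φ => ∑ σ ∈ st, v (σ • φ)
    have hs1 : (1 : L ≃ₐ[ℚ] L) ∈ st := Finset.mem_filter.2 ⟨Finset.mem_univ _, one_smul _ _⟩
    have hcard : (st.card : ℤ) ≠ 0 := by
      have h1 : 0 < st.card := Finset.card_pos.2 ⟨1, hs1⟩
      exact_mod_cast h1.ne'
    have hu1 : u φ₁ = st.card * v φ₁ := by
      change ∑ σ ∈ st, v (σ • φ₁) = _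
      rw [Finset.sum_congr rfl fun σ hσ => by rw [(Finset.mem_filter.1 hσ).2], Finset.sum_const,
        nsmul_eq_mul]
    have huodd : OddF (cc L) u := by
      intro φ
      change ∑ σ ∈ st, v (σ • cc L • φ) = -∑ σ ∈ st, v (σ • φ)
      rw [← Finset.sum_neg_distrib]
      exact Finset.sum_congr rfl fun σ _ => by rw [smul_c (fun h => cc_comm j h), hv]
    obtain ⟨φ₂, φ₃, h21, h31, h22, h32, h23⟩ := hD.three φ₁
    have hu2 : ∀ φ, s φ = s φ₁ → φ ≠ φ₁ → u φ = u φ₂ := by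
      intro φ h1 h2
      obtain ⟨σ₀, h3, h4⟩ := hD.trans φ₁ φ₂ φ h21 h1 h22 h2
      have h5 : u (σ₀ • φ₂) = u φ₂ := by
        change ∑ σ ∈ st, v (σ • σ₀ • φ₂) = ∑ σ ∈ st, v (σ • φ₂)
        refine Finset.sum_bij (fun σ _ => σ * σ₀) ?_ ?_ ?_ ?_
        · intro σ hσ
          rw [Finset.mem_filter] at hσ ⊢
          refine ⟨Finset.mem_univ _, ?_⟩
          rw [mul_smul, h3, hσ.2]
        · intro σ _ σ' _ h
          exact mul_right_cancel h
        · intro σ hσ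
          rw [Finset.mem_filter] at hσ
          refine ⟨σ * σ₀⁻¹, ?_, inv_mul_cancel_right _ _⟩
          rw [Finset.mem_filter]
          refine ⟨Finset.mem_univ _, ?_⟩
          have h6 : σ₀⁻¹ • φ₁ = φ₁ := by rw [inv_smul_eq_iff, h3]
          rw [mul_smul, h6, hσ.2]
        · intro σ _
          rw [mul_smul]
      rw [← h4, h5]
    -- sums over the embeddings with the same sign
    let P : Finset X₀ := Finset.univ.filter fun φ => s φ = s φ₁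
    have hP1 : φ₁ ∈ P := Finset.mem_filter.2 ⟨Finset.mem_univ _, rfl⟩
    have hhalf : ∀ f : X₀ → ℤ, (∀ φ, f (cc L • φ) = f φ) → ∑ φ, f φ = 2 * ∑ φ ∈ P, f φ := by
      intro f hf
      rw [← Finset.sum_filter_add_sum_filter_not Finset.univ (fun φ => s φ = s φ₁) f, two_mul]
      congr 1
      symm
      refine Finset.sum_bij (fun φ _ => cc L • φ) ?_ ?_ ?_ ?_
      · intro φ hφ
        rw [Finset.mem_filter] at hφ ⊢
        refine ⟨Finset.mem_univ _, ?_⟩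
        rw [hD.odd, hφ.2]
        intro h
        have h1 := hss φ₁
        have h2 : s φ₁ = 0 := by omega
        rw [h2] at h1
        norm_num at h1
      · intro φ _ φ' _ h
        exact MulAction.injective _ h
      · intro φ hφ
        rw [Finset.mem_filter] at hφ
        refine ⟨cc L • φ, ?_, ?_⟩
        · rw [Finset.mem_filter]
          exact ⟨Finset.mem_univ _, hD.of_ne (fun a b => hset.trans a b) hφ.2⟩
        · rw [← mul_smul, hset.sq, one_smul]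
      · intro φ _
        exact (hf φ).symm
    set m : ℤ := ((P.erase φ₁).card : ℤ) with hm
    -- the first equation
    have hM' : ∑ φ, s φ * u φ = 0 := by
      change ∑ φ, s φ * ∑ σ ∈ st, v (σ • φ) = 0
      simp only [Finset.mul_sum]
      rw [Finset.sum_comm]
      refine Finset.sum_eq_zero fun σ _ => ?_
      have h1 : ∑ φ : X₀, s (σ • φ) * v (σ • φ) = ∑ φ : X₀, s φ * v φ :=
        Equiv.sum_comp (MulAction.toPerm σ) fun φ => s φ * v φ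
      rw [hM] at h1
      rcases hD.sgn σ with h2 | h2
      · rw [← h1]
        exact Finset.sum_congr rfl fun φ _ => by rw [h2]
      · have h3 : ∑ φ : X₀, s φ * v (σ • φ) = -∑ φ : X₀, s (σ • φ) * v (σ • φ) := by
          rw [← Finset.sum_neg_distrib]
          exact Finset.sum_congr rfl fun φ _ => by rw [h2]; ring
        rw [h3, h1, neg_zero]
    have heq1 : u φ₁ + m * u φ₂ = 0 := by
      rw [hhalf (fun φ => s φ * u φ) fun φ => by rw [hD.odd, huodd]; ring,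
        ← Finset.add_sum_erase P _ hP1] at hM'
      have h1 : ∑ φ ∈ P.erase φ₁, s φ * u φ = m * (s φ₁ * u φ₂) := by
        rw [Finset.sum_congr rfl fun φ hφ => by
          rw [(Finset.mem_filter.1 (Finset.mem_of_mem_erase hφ)).2, hu2 φ
            (Finset.mem_filter.1 (Finset.mem_of_mem_erase hφ)).2 (Finset.ne_of_mem_erase hφ)],
          Finset.sum_const, nsmul_eq_mul]
      rw [h1] at hM'
      have h2 : s φ₁ * (u φ₁ + m * u φ₂) = 0 := by linarith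
      refine (mul_eq_zero.1 h2).resolve_left fun h => ?_
      have h3 := hss φ₁
      rw [h] at h3
      norm_num at h3
    have hu2ne : u φ₂ ≠ 0 := by
      intro h
      rw [h, mul_zero, add_zero, hu1] at heq1
      exact (mul_ne_zero hcard hne) heq1
    -- the second equation
    have heq2 : ∀ h, ∑ φ ∈ P, T φ h = (m + 1) * T φ₁ h := by
      intro h
      have h1 := stab_sum (p := p) (ν := ν) (j := j) hsum st h
      have h2 : ∑ φ : X₀, u φ * T φ h = 0 := h1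
      rw [hhalf (fun φ => u φ * T φ h) (fun φ => by
        rw [huodd, hTc, Pi.neg_apply]
        ring), ← Finset.add_sum_erase P _ hP1] at h2
      have h3 : ∑ φ ∈ P.erase φ₁, u φ * T φ h = u φ₂ * ∑ φ ∈ P.erase φ₁, T φ h := by
        rw [Finset.mul_sum]
        exact Finset.sum_congr rfl fun φ hφ => by
          rw [hu2 φ (Finset.mem_filter.1 (Finset.mem_of_mem_erase hφ)).2
            (Finset.ne_of_mem_erase hφ)]
      rw [h3] at h2
      rw [← Finset.add_sum_erase P _ hP1]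
      apply mul_left_cancel₀ hu2ne
      have h4 : u φ₁ = -(m * u φ₂) := by linarith
      rw [h4] at h2
      have h5 : -(m * u φ₂) * T φ₁ h + u φ₂ * ∑ φ ∈ P.erase φ₁, T φ h = 0 := by linarith
      linear_combination h5
    have hmne : (m + 1) ≠ 0 := by
      have : (0 : ℤ) ≤ m := by rw [hm]; exact Int.natCast_nonneg _
      omega
    have hkeep : ∀ σ : L ≃ₐ[ℚ] L, (∀ φ, s (σ • φ) = s φ) → T (σ • φ₁) = T φ₁ := by
      intro σ hσ
      funext h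
      apply mul_left_cancel₀ hmne
      rw [← heq2 h, hTs]
      change (m + 1) * T φ₁ (h * σ) = _
      rw [← heq2 (h * σ)]
      refine Finset.sum_bij (fun φ _ => σ • φ) ?_ ?_ ?_ ?_
      · intro φ hφ
        rw [Finset.mem_filter] at hφ ⊢
        exact ⟨Finset.mem_univ _, by rw [hσ, hφ.2]⟩
      · intro φ _ φ' _ h
        exact MulAction.injective _ h
      · intro φ hφ
        rw [Finset.mem_filter] at hφ
        refine ⟨σ⁻¹ • φ, ?_, smul_inv_smul _ _⟩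
        rw [Finset.mem_filter]
        refine ⟨Finset.mem_univ _, ?_⟩
        rw [← hσ (σ⁻¹ • φ), smul_inv_smul, hφ.2]
      · intro φ _
        rw [hTs]
        rfl
    have hval : ∀ φ : X₀, T φ = T φ₁ ∨ T φ = -T φ₁ := by
      intro φ
      obtain ⟨σ, rfl⟩ := hset.trans φ₁ φ
      rcases hD.sgn σ with h | h
      · exact Or.inl (hkeep σ h)
      · right
        have h1 := hkeep (cc L * σ) fun φ => by rw [mul_smul, hD.odd, h, neg_neg]
        rw [mul_smul, hTc] at h1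
        rw [← h1, neg_neg]
    have hEt : IsEig (T φ₁) := fun σ => by
      rw [← hTs]
      exact hval _
    rintro ⟨i', φ⟩ hi'
    obtain rfl : i' = i := hi'
    rcases hval φ with h | h
    · change IsEig (T φ)
      rw [h]
      exact hEt
    · change IsEig (T φ)
      rw [h]
      exact isEig_neg hEt
  -- commutators
  have hscomm : ∀ (a b : L ≃ₐ[ℚ] L) (φ : X₀), s ((a * b * a⁻¹ * b⁻¹) • φ) = s φ := by
    intro a b φ
    have hinv : ∀ (a : L ≃ₐ[ℚ] L), ((∀ φ, s (a • φ) = s φ) ∧ ∀ φ, s (a⁻¹ • φ) = s φ) ∨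
        ((∀ φ, s (a • φ) = -s φ) ∧ ∀ φ, s (a⁻¹ • φ) = -s φ) := by
      intro a
      refine (hD.sgn a).imp (fun h => ⟨h, fun φ => ?_⟩) fun h => ⟨h, fun φ => ?_⟩
      · rw [← h (a⁻¹ • φ), smul_inv_smul]
      · have h1 := h (a⁻¹ • φ)
        rw [smul_inv_smul] at h1
        omega
    rw [mul_smul, mul_smul, mul_smul]
    rcases hinv a with ⟨h1, h1'⟩ | ⟨h1, h1'⟩ <;> rcases hinv b with ⟨h2, h2'⟩ | ⟨h2, h2'⟩
    · rw [h1, h2, h1', h2']
    · rw [h1, h2, h1', h2', neg_neg]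
    · rw [h1, h2, h1', h2', neg_neg]
    · rw [h1, h2, h1', h2']
      ring
  have stepB : ∀ (a b : L ≃ₐ[ℚ] L) (φ : X₀), vf x i φ = vf x i ((a * b * a⁻¹ * b⁻¹) • φ) := by
    intro a b φ
    set κ := a * b * a⁻¹ * b⁻¹ with hκ
    let y : Wt Z.X L → ℤ := fun l => x ((1 : L ≃ₐ[ℚ] L) • l) - x (((1 : L ≃ₐ[ℚ] L) * κ) • l)
    have hy : Re p ν j Z y := re_sub (hx.smul 1) (hx.smul _)
    have hvy : ∀ φ, vf y i φ = vf x i φ - vf x i (κ • φ) := by
      intro φ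
      have e1 := vf_smul (j := j) x 1 i φ
      have e2 := vf_smul (j := j) x (1 * κ) i φ
      rw [one_smul] at e1
      rw [one_mul] at e2
      have h2 : vf y i φ = vf (fun l => x ((1 : L ≃ₐ[ℚ] L) • l)) i φ -
          vf (fun l => x (((1 : L ≃ₐ[ℚ] L) * κ) • l)) i φ := by
        change (x ((1 : L ≃ₐ[ℚ] L) • ⟨i, φ⟩) - x (((1 : L ≃ₐ[ℚ] L) * κ) • ⟨i, φ⟩)) -
          (x ((1 : L ≃ₐ[ℚ] L) • cw Z ⟨i, φ⟩) - x (((1 : L ≃ₐ[ℚ] L) * κ) • cw Z ⟨i, φ⟩)) =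
          (x ((1 : L ≃ₐ[ℚ] L) • ⟨i, φ⟩) - x ((1 : L ≃ₐ[ℚ] L) • cw Z ⟨i, φ⟩)) -
            (x (((1 : L ≃ₐ[ℚ] L) * κ) • ⟨i, φ⟩) - x (((1 : L ≃ₐ[ℚ] L) * κ) • cw Z ⟨i, φ⟩))
        ring
      rw [h2, e1, one_mul, e2]
    have hM : ∑ φ, s φ * vf y i φ = 0 := by
      have h1 : ∑ φ : X₀, s φ * vf x i (κ • φ) = ∑ φ : X₀, s φ * vf x i φ := by
        rw [← Equiv.sum_comp (MulAction.toPerm κ) fun φ => s φ * vf x i φ]
        refine Finset.sum_congr rfl fun φ _ => ?_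
        rw [MulAction.toPerm_apply, hκ, hscomm]
      rw [Finset.sum_congr rfl fun φ _ => by rw [hvy, mul_sub], Finset.sum_sub_distrib, h1,
        sub_self]
    have h1 := stepA (vf y i) (vf_odd y i) hM (fun h => alone hy (fun k hk h =>
      comm_zero (j := j) hE 1 a b k hk h) h) φ
    rw [hvy] at h1
    exact sub_eq_zero.1 h1
  -- the values
  have same : ∀ φ ψ : X₀, s ψ = s φ → vf x i ψ = vf x i φ := by
    intro φ ψ h
    by_cases hne : ψ = φ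
    · rw [hne]
    obtain ⟨z, t, h1, h2, h3, h4, h5⟩ := hD.three φ
    obtain ⟨r, hr1, hr2, hr3⟩ : ∃ r, s r = s φ ∧ r ≠ φ ∧ r ≠ ψ := by
      by_cases h' : z = ψ
      · exact ⟨t, h2, h4, fun h'' => h5 (h'.trans h''.symm)⟩
      · exact ⟨z, h1, h3, h'⟩
    obtain ⟨α, hα1, hα2⟩ := hD.trans r φ ψ hr1.symm (h.trans hr1.symm) hr2.symm hr3.symm
    obtain ⟨β, hβ⟩ := hset.trans r φ
    have h6 := stepB α β φ
    have h7 : (α * β * α⁻¹ * β⁻¹) • φ = ψ := by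
      have e1 : β⁻¹ • φ = r := by rw [inv_smul_eq_iff, hβ]
      have e2 : α⁻¹ • r = r := by rw [inv_smul_eq_iff, hα1]
      rw [mul_smul, mul_smul, mul_smul, e1, e2, hβ, hα2]
    rw [h7] at h6
    exact h6.symm
  rw [sgn_iff]
  obtain ⟨φ₀⟩ : Nonempty X₀ := by
    by_contra h
    rw [not_nonempty_iff] at h
    have h1 := Pool.Agent.W67.TA.card_emb j hZ i
    rw [Nat.card_of_isEmpty] at h1
    exact finrank_pos.ne' h1.symm
  have hform : ∀ φ, vf x i φ = vf x i φ₀ * s φ₀ * s φ := by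
    intro φ
    by_cases h : s φ = s φ₀
    · rw [same φ₀ φ h, h, mul_assoc, hss, mul_one]
    · have h1 := hD.of_ne (fun a b => hset.trans a b) h
      have h2 := same φ₀ (cc L • φ) h1
      rw [vf_odd] at h2
      rw [hD.odd] at h1
      have h3 : s φ = -s φ₀ := by omega
      have h4 : vf x i φ = -vf x i φ₀ := by omega
      rw [h3, h4]
      calc -vf x i φ₀ = vf x i φ₀ * -1 := by ring
        _ = vf x i φ₀ * (-(s φ₀ * s φ₀)) := by rw [hss]
        _ = _ := by ring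
  intro σ
  refine (hD.sgn σ).imp (fun h φ => ?_) fun h φ => ?_
  · rw [hform (σ • φ), h, ← hform]
  · rw [hform (σ • φ), h, mul_neg, ← hform]

end

end

end Pool.Agent.Q43.HP
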