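import Pool.Agent.Q43.HP.Indep

/-!
# Irreducible representations on the odd functions
-/

set_option autoImplicit false
set_option linter.unusedSectionVars false
set_option linter.unusedVariables false
set_option linter.unusedTactic false

namespace Pool.Agent.Q43.HP

noncomputable section

section abs

variable {G X : Type} [Group G] [MulAction G X] [Fintype X]

/-- The group acts on the odd function `s` by signs, and the odd functions which are orthogonal to `s`
are an irreducible representation. -/
structure IsIrr (c : G) (s : X → ℚ) : Prop where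
  odd : ∀ x, s (c • x) = -s x
  sgn : ∀ σ : G, (∀ x, s (σ • x) = s x) ∨ ∀ x, s (σ • x) = -s x
  irr0 : ∀ v w : X → ℚ, (∀ x, v (c • x) = -v x) → (∀ x, w (c • x) = -w x) →
    ∑ x, s x * v x = 0 → ∑ x, s x * w x = 0 → v ≠ 0 →
      w ∈ Submodule.span ℚ (Set.range fun σ : G => fun x => v (σ • x))

/-- There are at least three pairs of points. -/
def HasThree (c : G) (X : Type) [MulAction G X] : Prop :=
  ∀ x y : X, ∃ z, z ≠ x ∧ z ≠ c • x ∧ z ≠ y ∧ z ≠ c • y

variable {c : G} (hcomm : ∀ h, c * h = h * c) (hsq : c * c = 1) (hne : ∀ x : X, c • x ≠ x)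
  (htrans : ∀ x y : X, ∃ h : G, h • x = y) (h3 : HasThree c X) {s : X → ℚ} (hI : IsIrr c s)

include hsq hne in
open Classical in
/-- The odd function supported at one pair. -/
theorem exists_delta (x : X) : ∃ e : X → ℚ, (∀ y, e (c • y) = -e y) ∧ e x = 1 ∧
    (∀ y, y ≠ x → y ≠ c • x → e y = 0) ∧ ∀ f : X → ℚ, (∀ y, f (c • y) = -f y) →
      ∑ y, e y * f y = 2 * f x := by
  have hcc : ∀ y : X, c • c • y = y := fun y => by rw [← mul_smul, hsq, one_smul]
  refine ⟨fun y => (if y = x then 1 else 0) - if y = c • x then 1 else 0, fun y => ?_, ?_,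
    fun y h1 h2 => ?_, fun f hf => ?_⟩
  · have h1 : (c • y = x) ↔ (y = c • x) :=
      ⟨fun h => by rw [← h, hcc], fun h => by rw [h, hcc]⟩
    have h2 : (c • y = c • x) ↔ (y = x) :=
      ⟨fun h => MulAction.injective c h, fun h => by rw [h]⟩
    change (if c • y = x then (1 : ℚ) else 0) - (if c • y = c • x then 1 else 0) =
      -((if y = x then 1 else 0) - if y = c • x then 1 else 0)
    simp only [h1, h2]
    ring
  · change (if x = x then (1 : ℚ) else 0) - (if x = c • x then 1 else 0) = 1
    rw [if_pos rfl, if_neg (hne x).symm, sub_zero]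
  · change (if y = x then (1 : ℚ) else 0) - (if y = c • x then 1 else 0) = 0
    rw [if_neg h1, if_neg h2, sub_zero]
  · have h1 : ∀ y, ((if y = x then (1 : ℚ) else 0) - if y = c • x then 1 else 0) * f y =
        (if y = x then f y else 0) - if y = c • x then f y else 0 := by
      intro y
      split_ifs <;> ring
    rw [Finset.sum_congr rfl fun y _ => h1 y, Finset.sum_sub_distrib, Finset.sum_ite_eq',
      Finset.sum_ite_eq', if_pos (Finset.mem_univ _), if_pos (Finset.mem_univ _), hf]
    ring

include htrans hI in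
theorem s_zero {x : X} (h : s x = 0) (y : X) : s y = 0 := by
  obtain ⟨σ, rfl⟩ := htrans x y
  rcases hI.sgn σ with h1 | h1
  · rw [h1, h]
  · rw [h1, h, neg_zero]

include hsq hne htrans h3 hI in
/-- Orthogonal functions with a given zero. -/
theorem exists_orth (x y : X) (h1 : y ≠ x) (h2 : y ≠ c • x) : ∃ w : X → ℚ,
    (∀ z, w (c • z) = -w z) ∧ ∑ z, s z * w z = 0 ∧ w x ≠ 0 ∧ w y = 0 := by
  obtain ⟨z, z1, z2, z3, z4⟩ := h3 x y
  have hcc : ∀ y : X, c • c • y = y := fun y => by rw [← mul_smul, hsq, one_smul]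
  obtain ⟨e, e1, e2, e3, e4⟩ := exists_delta hsq hne x
  obtain ⟨f, f1, f2, f3, f4⟩ := exists_delta hsq hne z
  by_cases hz : s z = 0
  · refine ⟨e, e1, ?_, by rw [e2]; norm_num, e3 y h1 h2⟩
    refine Finset.sum_eq_zero fun t _ => ?_
    rw [s_zero htrans hI hz, zero_mul]
  · refine ⟨fun t => s z * e t - s x * f t, fun t => ?_, ?_, ?_, ?_⟩
    · change s z * e (c • t) - s x * f (c • t) = -(s z * e t - s x * f t)
      rw [e1, f1]
      ring
    · have h4 : ∀ t, s t * (s z * e t - s x * f t) = s z * (e t * s t) - s x * (f t * s t) := by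
        intro t
        ring
      rw [Finset.sum_congr rfl fun t _ => h4 t, Finset.sum_sub_distrib, ← Finset.mul_sum,
        ← Finset.mul_sum, e4 s hI.odd, f4 s hI.odd]
      ring
    · change s z * e x - s x * f x ≠ 0
      have h5 : f x = 0 := f3 x z1.symm fun h => z2 (by rw [h, hcc])
      rw [e2, h5, mul_zero, sub_zero, mul_one]
      exact hz
    · change s z * e y - s x * f y = 0
      have h5 : f y = 0 := f3 y z3.symm fun h => z4 (by rw [h, hcc])
      rw [e3 y h1 h2, h5, mul_zero, mul_zero, sub_zero]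

include hsq hne htrans h3 hI in
/-- Elements which fix all orthogonal functions. -/
theorem trivial_of_orth {ρ : G} (h : ∀ w : X → ℚ, (∀ z, w (c • z) = -w z) →
    ∑ z, s z * w z = 0 → ∀ z, w (ρ • z) = w z) (x : X) : ρ • x = x := by
  by_contra hx
  by_cases hy : ρ • x = c • x
  · obtain ⟨z, z1, z2, -, -⟩ := h3 x x
    obtain ⟨w, w1, w2, w3, -⟩ := exists_orth hsq hne htrans h3 hI x z z1 z2
    have h1 := h w w1 w2 x
    rw [hy, w1] at h1
    apply w3
    linarith
  · obtain ⟨w, w1, w2, w3, w4⟩ := exists_orth hsq hne htrans h3 hI x (ρ • x) hx hy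
    have h1 := h w w1 w2 x
    rw [w4] at h1
    exact w3 h1.symm

/-- Translates. -/
theorem span_smul {v : X → ℚ} {u : X → ℚ}
    (hu : u ∈ Submodule.span ℚ (Set.range fun σ : G => fun x => v (σ • x))) (τ : G) :
    (fun x => u (τ • x)) ∈ Submodule.span ℚ (Set.range fun σ : G => fun x => v (σ • x)) := by
  let D : (X → ℚ) →ₗ[ℚ] (X → ℚ) :=
    { toFun := fun u x => u (τ • x)
      map_add' := fun _ _ => rfl
      map_smul' := fun _ _ => rfl }
  have h4 : Submodule.span ℚ (Set.range fun σ : G => fun x => v (σ • x)) ≤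
      (Submodule.span ℚ (Set.range fun σ : G => fun x => v (σ • x))).comap D := by
    refine Submodule.span_le.2 ?_
    rintro _ ⟨σ, rfl⟩
    refine Submodule.subset_span ⟨σ * τ, ?_⟩
    funext x
    change v ((σ * τ) • x) = v (σ • τ • x)
    rw [mul_smul]
  exact h4 hu

include hsq hne htrans h3 hI in
/-- Two orthogonal functions are not proportional. -/
theorem orth_ne {z : X → ℚ} (hS : ∀ σ : G, (∀ x, z (σ • x) = z x) ∨ ∀ x, z (σ • x) = -z x)
    [Nonempty X] : ¬ ∀ w : X → ℚ, (∀ x, w (c • x) = -w x) → ∑ x, s x * w x = 0 →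
      w ∈ Submodule.span ℚ (Set.range fun σ : G => fun x => z (σ • x)) := by
  intro hcon
  obtain ⟨x⟩ := ‹Nonempty X›
  obtain ⟨y, y1, y2, -, -⟩ := h3 x x
  obtain ⟨w, w1, w2, w3, w4⟩ := exists_orth hsq hne htrans h3 hI x y y1 y2
  have h1 := hcon w w1 w2
  have h2 : ∃ b : ℚ, w = fun t => b * z t := by
    have h4 : w ∈ Submodule.span ℚ {z} := by
      refine Submodule.span_le.2 ?_ h1
      rintro _ ⟨σ, rfl⟩
      rcases hS σ with h5 | h5
      · have h6 : (fun x => z (σ • x)) = z := funext h5
        change (fun x => z (σ • x)) ∈ Submodule.span ℚ {z}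
        rw [h6]
        exact Submodule.mem_span_singleton_self z
      · have h6 : (fun x => z (σ • x)) = -z := funext h5
        change (fun x => z (σ • x)) ∈ Submodule.span ℚ {z}
        rw [h6]
        exact Submodule.neg_mem _ (Submodule.mem_span_singleton_self z)
    obtain ⟨b, hb⟩ := Submodule.mem_span_singleton.1 h4
    exact ⟨b, by rw [← hb]; rfl⟩
  obtain ⟨b, hb⟩ := h2
  have h5 : w y = b * z y := congrFun hb y
  have h6 : w x = b * z x := congrFun hb x
  rw [w4] at h5
  obtain ⟨σ, hσ⟩ := htrans y x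
  have h7 : b * z x = 0 := by
    rcases hS σ with h8 | h8
    · rw [← hσ, h8, ← h5]
    · rw [← hσ, h8, mul_neg, ← h5, neg_zero]
  exact w3 (h6.trans h7)

theorem span_odd (hcomm : ∀ h, c * h = h * c) {v : X → ℚ} (hv : ∀ x, v (c • x) = -v x) (σ : G)
    (x : X) : v (σ • c • x) = -v (σ • x) := by
  rw [smul_c hcomm, hv]

include hcomm hsq hne htrans h3 hI in
/-- Functions which are not multiples of `s` generate all orthogonal functions. -/
theorem IsIrr.irr (v w : X → ℚ) (hv : ∀ x, v (c • x) = -v x) (hw : ∀ x, w (c • x) = -w x)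
    (hns : ∀ a : ℚ, v ≠ fun x => a * s x) (hws : ∑ x, s x * w x = 0) :
      w ∈ Submodule.span ℚ (Set.range fun σ : G => fun x => v (σ • x)) := by
  classical
  have hX : Nonempty X := by
    by_contra hcon
    rw [not_nonempty_iff] at hcon
    exact hns 0 (funext fun x => hcon.elim x)
  by_cases hs0 : ∀ x, s x = 0
  · refine hI.irr0 v w hv hw (Finset.sum_eq_zero fun x _ => by rw [hs0, zero_mul])
      (Finset.sum_eq_zero fun x _ => by rw [hs0, zero_mul]) fun h => hns 0 ?_
    rw [h]
    funext x
    change (0 : ℚ) = 0 * s x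
    rw [zero_mul]
  have hsne : ∀ x, s x ≠ 0 := fun x h => hs0 fun y => s_zero htrans hI h y
  -- the sign of an element
  have hε : ∀ σ : G, ∃ e : ℚ, (e = 1 ∨ e = -1) ∧ ∀ x, s (σ • x) = e * s x := by
    intro σ
    rcases hI.sgn σ with h | h
    · exact ⟨1, Or.inl rfl, fun x => by rw [h, one_mul]⟩
    · exact ⟨-1, Or.inr rfl, fun x => by rw [h, neg_one_mul]⟩
  by_cases hall : ∀ (σ : G) (e : ℚ), (∀ x, s (σ • x) = e * s x) → ∀ x, v (σ • x) = e * v x
  · exfalso
    set N : ℚ := ∑ x, s x * s x with hN
    set M : ℚ := ∑ x, s x * v x with hM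
    have hNpos : N ≠ 0 := by
      intro h
      obtain ⟨x⟩ := hX
      have h6 := (Finset.sum_eq_zero_iff_of_nonneg fun x _ => mul_self_nonneg (s x)).1 h x
        (Finset.mem_univ x)
      exact hsne x (mul_self_eq_zero.1 h6)
    let v' : X → ℚ := fun x => N * v x - M * s x
    have hv' : ∀ x, v' (c • x) = -v' x := by
      intro x
      change N * v (c • x) - M * s (c • x) = -(N * v x - M * s x)
      rw [hv, hI.odd]
      ring
    have horth : ∑ x, s x * v' x = 0 := by
      have h1 : ∀ x, s x * v' x = N * (s x * v x) - M * (s x * s x) := fun x => by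
        change s x * (N * v x - M * s x) = _
        ring
      rw [Finset.sum_congr rfl fun x _ => h1 x, Finset.sum_sub_distrib, ← Finset.mul_sum,
        ← Finset.mul_sum, ← hN, ← hM]
      ring
    have hne0 : v' ≠ 0 := by
      intro h
      refine hns (M / N) (funext fun x => ?_)
      have h1 : N * v x - M * s x = 0 := congrFun h x
      have h2 : N * v x = M * s x := sub_eq_zero.1 h1
      field_simp
      linarith
    refine orth_ne hsq hne htrans h3 hI (z := v') (fun σ => ?_) fun w hw hws =>
      hI.irr0 v' w hv' hw horth hws hne0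
    obtain ⟨e, he, h1⟩ := hε σ
    have h2 := hall σ e h1
    rcases he with rfl | rfl
    · left
      intro x
      change N * v (σ • x) - M * s (σ • x) = N * v x - M * s x
      rw [h1, h2, one_mul, one_mul]
    · right
      intro x
      change N * v (σ • x) - M * s (σ • x) = -(N * v x - M * s x)
      rw [h1, h2]
      ring
  · push Not at hall
    obtain ⟨σ, e, h1, x₁, h2⟩ := hall
    let u : X → ℚ := fun x => v (σ • x) - e * v x
    have hu : ∀ x, u (c • x) = -u x := by
      intro x
      change v (σ • c • x) - e * v (c • x) = -(v (σ • x) - e * v x)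
      rw [span_odd hcomm hv, hv]
      ring
    have hne0 : u ≠ 0 := by
      intro h
      apply h2
      have h4 : v (σ • x₁) - e * v x₁ = 0 := congrFun h x₁
      exact sub_eq_zero.1 h4
    have hee : e * e = 1 := by
      obtain ⟨e', he', h4⟩ := hε σ
      obtain ⟨x⟩ := hX
      have h5 : e = e' := by
        have h6 := (h1 x).symm.trans (h4 x)
        exact mul_right_cancel₀ (hsne x) h6
      rw [h5]
      rcases he' with h | h <;> rw [h] <;> norm_num
    have horth : ∑ x, s x * u x = 0 := by
      have h4 : ∑ x : X, s (σ • x) * v (σ • x) = ∑ x : X, s x * v x :=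
        Equiv.sum_comp (MulAction.toPerm σ) fun x => s x * v x
      have h5 : ∑ x : X, s x * v (σ • x) = e * ∑ x : X, s x * v x := by
        rw [← h4, Finset.mul_sum]
        refine Finset.sum_congr rfl fun x _ => ?_
        rw [h1, ← mul_assoc, ← mul_assoc, hee, one_mul]
      have h6 : ∀ x, s x * u x = s x * v (σ • x) - e * (s x * v x) := fun x => by
        change s x * (v (σ • x) - e * v x) = _
        ring
      rw [Finset.sum_congr rfl fun x _ => h6 x, Finset.sum_sub_distrib, h5, ← Finset.mul_sum,
        sub_self]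
    have h4 := hI.irr0 u w hu hw horth hws hne0
    have hvP : v ∈ Submodule.span ℚ (Set.range fun σ : G => fun x => v (σ • x)) :=
      Submodule.subset_span ⟨1, funext fun x => by
        change v ((1 : G) • x) = v x
        rw [one_smul]⟩
    have huP : u ∈ Submodule.span ℚ (Set.range fun σ : G => fun x => v (σ • x)) :=
      Submodule.sub_mem _ (Submodule.subset_span ⟨σ, rfl⟩) (Submodule.smul_mem _ e hvP)
    refine Submodule.span_le.2 ?_ h4
    rintro _ ⟨τ, rfl⟩
    exact span_smul huP τ

include hcomm hsq hne htrans h3 hI in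
/-- Functions on which the group acts by signs. -/
theorem line_of_sgn {z : X → ℚ} (hz : ∀ x, z (c • x) = -z x)
    (hS : ∀ σ : G, (∀ x, z (σ • x) = z x) ∨ ∀ x, z (σ • x) = -z x) :
    ∃ a : ℚ, z = fun x => a * s x := by
  classical
  by_contra hcon
  push Not at hcon
  rcases isEmpty_or_nonempty X with he | he
  · exact hcon 0 (funext fun x => he.elim x)
  exact orth_ne hsq hne htrans h3 hI hS fun w hw hws =>
    IsIrr.irr hcomm hsq hne htrans h3 hI z w hz hw hcon hws

include hcomm hsq hne htrans h3 hI in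
theorem rigid_irr : Rigid c X := by
  classical
  intro v hv hvS ρ h
  let vq : X → ℚ := fun x => (v x : ℚ)
  have hvq : ∀ x, vq (c • x) = -vq x := fun x => by
    change (v (c • x) : ℚ) = -(v x : ℚ)
    rw [hv]
    push_cast
    rfl
  have hns : ∀ a : ℚ, vq ≠ fun x => a * s x := by
    intro a ha
    apply hvS
    intro σ
    have h1 : ∀ x, (v x : ℚ) = a * s x := fun x => congrFun ha x
    refine (hI.sgn σ).imp (fun h2 x => ?_) fun h2 x => ?_
    · have h4 : ((v (σ • x) : ℤ) : ℚ) = (v x : ℚ) := by rw [h1, h1, h2]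
      exact_mod_cast h4
    · have h4 : ((v (σ • x) : ℤ) : ℚ) = ((-v x : ℤ) : ℚ) := by
        push_cast
        rw [h1, h1, h2]
        ring
      exact_mod_cast h4
  refine trivial_of_orth hsq hne htrans h3 hI fun w hw hws => ?_
  have h1 := IsIrr.irr hcomm hsq hne htrans h3 hI vq w hvq hw hns hws
  -- the difference of `w` and its translate
  let D : (X → ℚ) →ₗ[ℚ] (X → ℚ) :=
    { toFun := fun u x => u x - u (ρ • x)
      map_add' := fun u u' => by
        funext x
        change (u x + u' x) - (u (ρ • x) + u' (ρ • x)) = (u x - u (ρ • x)) + (u' x - u' (ρ • x))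
        ring
      map_smul' := fun a u => by
        funext x
        change a * u x - a * u (ρ • x) = a * (u x - u (ρ • x))
        ring }
  have h2 : D w ∈ Submodule.span ℚ {s} := by
    have h4 : Submodule.span ℚ (Set.range fun σ : G => fun x => vq (σ • x)) ≤
        (Submodule.span ℚ {s}).comap D := by
      refine Submodule.span_le.2 ?_
      rintro _ ⟨σ, rfl⟩
      have h5 := h σ
      have h6 : D (fun x => vq (σ • x)) = fun x => ((v (σ • x) - v (σ • ρ • x) : ℤ) : ℚ) := by
        funext x
        change (v (σ • x) : ℚ) - (v (σ • ρ • x) : ℚ) = _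
        push_cast
        rfl
      have h7 : ∀ x, v (σ • c • x) - v (σ • ρ • c • x) = -(v (σ • x) - v (σ • ρ • x)) := by
        intro x
        rw [smul_c hcomm ρ, smul_c hcomm, smul_c hcomm, hv, hv]
        ring
      obtain ⟨a, ha⟩ := line_of_sgn hcomm hsq hne htrans h3 hI
        (z := fun x => ((v (σ • x) - v (σ • ρ • x) : ℤ) : ℚ))
        (fun x => by
          change ((v (σ • c • x) - v (σ • ρ • c • x) : ℤ) : ℚ) = -((v (σ • x) - v (σ • ρ • x) : ℤ) : ℚ)
          rw [h7]
          push_cast
          ring)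
        (fun τ => by
          refine (h5 τ).imp (fun h8 x => ?_) fun h8 x => ?_
          · have h9 : v (σ • τ • x) - v (σ • ρ • τ • x) = v (σ • x) - v (σ • ρ • x) := h8 x
            change ((v (σ • τ • x) - v (σ • ρ • τ • x) : ℤ) : ℚ) = _
            rw [h9]
          · have h9 : v (σ • τ • x) - v (σ • ρ • τ • x) = -(v (σ • x) - v (σ • ρ • x)) := h8 x
            change ((v (σ • τ • x) - v (σ • ρ • τ • x) : ℤ) : ℚ) = _
            rw [h9]
            push_cast
            ring)
      refine Submodule.mem_comap.2 ?_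
      rw [h6, ha]
      exact Submodule.mem_span_singleton.2 ⟨a, rfl⟩
    exact h4 h1
  obtain ⟨b, hb⟩ := Submodule.mem_span_singleton.1 h2
  have hbx : ∀ x, w x - w (ρ • x) = b * s x := fun x => (congrFun hb x).symm
  have hsum : ∑ x, s x * (w x - w (ρ • x)) = 0 := by
    simp only [mul_sub, Finset.sum_sub_distrib]
    rw [hws, zero_sub, neg_eq_zero]
    have h4 : ∑ x : X, s (ρ • x) * w (ρ • x) = ∑ x : X, s x * w x :=
      Equiv.sum_comp (MulAction.toPerm ρ) fun x => s x * w x
    rcases hI.sgn ρ with h5 | h5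
    · rw [← hws, ← h4]
      exact Finset.sum_congr rfl fun x _ => by rw [h5]
    · have h6 : ∑ x : X, s x * w (ρ • x) = -∑ x : X, s (ρ • x) * w (ρ • x) := by
        rw [← Finset.sum_neg_distrib]
        exact Finset.sum_congr rfl fun x _ => by rw [h5]; ring
      rw [h6, h4, hws, neg_zero]
  have hb0 : ∀ x, b * s x = 0 := by
    have h4 : ∑ x, b * (s x * s x) = 0 := by
      rw [← hsum]
      exact Finset.sum_congr rfl fun x _ => by rw [hbx]; ring
    rw [← Finset.mul_sum] at h4
    rcases mul_eq_zero.1 h4 with h5 | h5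
    · intro x
      rw [h5, zero_mul]
    · intro x
      have h6 := (Finset.sum_eq_zero_iff_of_nonneg fun x _ => mul_self_nonneg (s x)).1 h5 x
        (Finset.mem_univ x)
      rw [mul_self_eq_zero.1 h6, mul_zero]
  intro x
  have h4 := hbx x
  rw [hb0] at h4
  exact (sub_eq_zero.1 h4).symm

include hcomm hsq hne htrans h3 hI in
/-- The group does not act through an elementary abelian group of exponent two. -/
theorem not_elem [Nonempty X] {v : X → ℚ} (hv : ∀ x, v (c • x) = -v x)
    (hns : ∀ a : ℚ, v ≠ fun x => a * s x) (hab : ∀ (a b : G) (x : X), a • b • x = b • a • x)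
    (h2 : ∀ (a : G) (x : X), a • a • x = x) : False := by
  obtain ⟨x⟩ := ‹Nonempty X›
  obtain ⟨z, z1, z2, -, -⟩ := h3 x x
  obtain ⟨ρ, hρ⟩ := htrans x z
  have hcc : ∀ y : X, c • c • y = y := fun y => by rw [← mul_smul, hsq, one_smul]
  have key : ∀ e : ℚ, e * e = 1 → (∃ a : ℚ, ∀ y, v y + e * v (ρ • y) = a * s y) ∨
      ∀ w : X → ℚ, (∀ z, w (c • z) = -w z) → ∑ z, s z * w z = 0 → ∀ z, w (ρ • z) = e * w z := by
    intro e he
    by_cases hex : ∃ a : ℚ, ∀ y, v y + e * v (ρ • y) = a * s y
    · exact Or.inl hex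
    right
    intro w hw hws
    let u : X → ℚ := fun y => v y + e * v (ρ • y)
    have hu : ∀ y, u (c • y) = -u y := by
      intro y
      change v (c • y) + e * v (ρ • c • y) = -(v y + e * v (ρ • y))
      rw [hv, span_odd hcomm hv]
      ring
    have h4 := IsIrr.irr hcomm hsq hne htrans h3 hI u w hu hw (fun a ha =>
      hex ⟨a, fun y => congrFun ha y⟩) hws
    let D : (X → ℚ) →ₗ[ℚ] (X → ℚ) :=
      { toFun := fun u x => u (ρ • x) - e * u x
        map_add' := fun u u' => by
          funext x
          change (u (ρ • x) + u' (ρ • x)) - e * (u x + u' x) =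
            (u (ρ • x) - e * u x) + (u' (ρ • x) - e * u' x)
          ring
        map_smul' := fun a u => by
          funext x
          change a * u (ρ • x) - e * (a * u x) = a * (u (ρ • x) - e * u x)
          ring }
    have h5 : Submodule.span ℚ (Set.range fun σ : G => fun x => u (σ • x)) ≤ LinearMap.ker D := by
      refine Submodule.span_le.2 ?_
      rintro _ ⟨σ, rfl⟩
      refine LinearMap.mem_ker.2 (funext fun y => ?_)
      change (v (σ • ρ • y) + e * v (ρ • σ • ρ • y)) - e * (v (σ • y) + e * v (ρ • σ • y)) = 0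
      rw [hab ρ σ (ρ • y), h2, hab σ ρ y]
      linear_combination (-v (ρ • σ • y)) * he
    intro y
    have h6 := congrFun (LinearMap.mem_ker.1 (h5 h4)) y
    exact sub_eq_zero.1 h6
  rcases key 1 (by norm_num) with ⟨a, ha⟩ | h5
  · rcases key (-1) (by norm_num) with ⟨b, hb⟩ | h6
    · refine hns ((a + b) / 2) (funext fun y => ?_)
      have h7 := ha y
      have h8 := hb y
      linarith
    · have h7 := trivial_of_orth hsq hne htrans h3 hI (ρ := c * ρ) (fun w hw hws y => by
        rw [mul_smul, hw, h6 w hw hws]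
        ring) x
      rw [mul_smul, hρ] at h7
      apply z2
      rw [← h7, hcc]
  · have h7 := trivial_of_orth hsq hne htrans h3 hI (ρ := ρ) (fun w hw hws y => by
      rw [h5 w hw hws, one_mul]) x
    rw [hρ] at h7
    exact z1 h7

include hcomm hsq hne htrans h3 hI in
/-- Relations. -/
theorem rel_eq {K : Type} {T : X → K → ℤ} (hTc : ∀ x k, T (c • x) k = -T x k)
    (hR : ∀ v : X → ℚ, (∀ k, ∑ x, v x * (T x k : ℚ) = 0) → ∀ (σ : G) (k : K),
      ∑ x, v (σ • x) * (T x k : ℚ) = 0) {u : X → ℚ} (hu : ∀ x, u (c • x) = -u x)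
    (hns : ∀ a : ℚ, u ≠ fun x => a * s x) (hrel : ∀ k, ∑ x, u x * (T x k : ℚ) = 0) (x y : X) :
    T y = T x ∨ T y = -T x := by
  classical
  have hcc : ∀ y : X, c • c • y = y := fun y => by rw [← mul_smul, hsq, one_smul]
  -- all orthogonal functions are relations
  have hall : ∀ w : X → ℚ, (∀ x, w (c • x) = -w x) → ∑ x, s x * w x = 0 →
      ∀ k, ∑ x, w x * (T x k : ℚ) = 0 := by
    intro w hw hws k
    let D : (X → ℚ) →ₗ[ℚ] ℚ :=
      { toFun := fun u => ∑ x, u x * (T x k : ℚ)
        map_add' := fun u u' => by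
          rw [← Finset.sum_add_distrib]
          refine Finset.sum_congr rfl fun x _ => ?_
          change (u x + u' x) * _ = _
          ring
        map_smul' := fun a u => by
          rw [RingHom.id_apply, smul_eq_mul, Finset.mul_sum]
          refine Finset.sum_congr rfl fun x _ => ?_
          change (a * u x) * _ = _
          ring }
    have h5 : Submodule.span ℚ (Set.range fun σ : G => fun x => u (σ • x)) ≤ LinearMap.ker D := by
      refine Submodule.span_le.2 ?_
      rintro _ ⟨σ, rfl⟩
      exact LinearMap.mem_ker.2 (hR u hrel σ k)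
    exact LinearMap.mem_ker.1 (h5 (IsIrr.irr hcomm hsq hne htrans h3 hI u w hu hw hns hws))
  have hTq : ∀ (k : K) (x : X), ((T (c • x) k : ℤ) : ℚ) = -(T x k : ℚ) := by
    intro k x
    rw [hTc]
    push_cast
    rfl
  obtain ⟨e, e1, e2, e3, e4⟩ := exists_delta hsq hne x
  obtain ⟨f, f1, f2, f3, f4⟩ := exists_delta hsq hne y
  by_cases hs0 : s x = 0
  · have hz := s_zero htrans hI hs0
    left
    funext k
    have h5 := hall e e1 (Finset.sum_eq_zero fun x _ => by rw [hz, zero_mul]) k
    have h6 := hall f f1 (Finset.sum_eq_zero fun x _ => by rw [hz, zero_mul]) k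
    rw [e4 _ (hTq k)] at h5
    rw [f4 _ (hTq k)] at h6
    have h7 : (T y k : ℚ) = (T x k : ℚ) := by linarith
    exact_mod_cast h7
  · have h5 : ∀ k, s y * (T x k : ℚ) = s x * (T y k : ℚ) := by
      intro k
      have h6 := hall (fun t => s y * e t - s x * f t) (fun t => by
        change s y * e (c • t) - s x * f (c • t) = -(s y * e t - s x * f t)
        rw [e1, f1]
        ring) (by
        have h4 : ∀ t, s t * (s y * e t - s x * f t) = s y * (e t * s t) - s x * (f t * s t) := by
          intro t
          ring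
        rw [Finset.sum_congr rfl fun t _ => h4 t, Finset.sum_sub_distrib, ← Finset.mul_sum,
          ← Finset.mul_sum, e4 s hI.odd, f4 s hI.odd]
        ring) k
      have h7 : ∀ t, (s y * e t - s x * f t) * (T t k : ℚ) =
          s y * (e t * (T t k : ℚ)) - s x * (f t * (T t k : ℚ)) := by
        intro t
        ring
      rw [Finset.sum_congr rfl fun t _ => h7 t, Finset.sum_sub_distrib, ← Finset.mul_sum,
        ← Finset.mul_sum, e4 _ (hTq k), f4 _ (hTq k)] at h6
      linarith
    obtain ⟨σ, hσ⟩ := htrans x y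
    have h8 : s y = s x ∨ s y = -s x := by
      rw [← hσ]
      exact (hI.sgn σ).imp (fun h => h x) fun h => h x
    rcases h8 with h8 | h8
    · left
      funext k
      have h9 := h5 k
      rw [h8] at h9
      exact_mod_cast (mul_left_cancel₀ hs0 h9).symm
    · right
      funext k
      have h9 := h5 k
      rw [h8] at h9
      have h10 : s x * (T y k : ℚ) = s x * (-(T x k : ℚ)) := by linarith
      have h11 := mul_left_cancel₀ hs0 h10
      change T y k = -T x k
      exact_mod_cast h11

end abs

end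

end Pool.Agent.Q43.HP
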