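import Pool.Agent.Q43.HP.Fam

/-!
# Abelian varieties with separated factors have elementary relations
-/

set_option autoImplicit false
set_option linter.unusedSectionVars false
set_option linter.unusedVariables false

namespace Pool.Agent.Q43.HP

open NumberField Pool.Agent.H204R3.CM Pool.Agent.W547.KB Pool.Agent.W547.LD Pool.Agent.W547.HR
  Pool.Agent.W495.TA Pool.Agent.W495.TB Pool.Agent.W495.TC Pool.Agent.TH117.F5
  Pool.Agent.TH117.PO Pool.Agent.TH117.BL Module Pool.Agent.W976.TA Equiv Pool.Agent.Q43.HN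
open scoped TensorProduct

noncomputable section

variable {p : ℕ} [Fact p.Prime] {ν : PadicAlgCl p ≃+* ℂ}
  {L : Type} [Field L] [NumberField L] [IsCMField L] [IsGalois ℚ L] {j : L →+* ℂ}
  {Z : RedAV p ν}

section

variable [Fintype (Wt Z.X L)]

theorem generated_inj (hZ : Big Z.X j) {i : Z.X.I} (h : IsGenerated Z i)
    (φ φ' : (Z.X.factor i).E →+* L) (hT : tw p ν j Z.X ⟨i, φ⟩ = tw p ν j Z.X ⟨i, φ'⟩) : φ = φ' := by
  obtain ⟨s, hs, h3⟩ := pow_eq_of_tw hZ (l := ⟨i, φ⟩) (l' := ⟨i, φ'⟩) hT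
  exact cancel_j (h _ _ s hs h3)

/-- The alternatives for one factor in a relation. -/
theorem factor_cases (hZ : Big Z.X j) {S : Set Z.X.I} {i : Z.X.I} (hiS : i ∉ S)
    (h : IsSupersingular Z i ∨ (6 < finrank ℚ (Z.X.factor i).E ∧ IsSeparatedFactor Z S i))
    {x : Wt Z.X L → ℤ} (hx : Re p ν j Z x) :
    ∃ (m : ℤ) (n : Emb Z → ℕ), (m = 0 ∨ (IsRel Z n ∧ IsWeilRelation Z n)) ∧
      (∀ w, n w ≠ 0 → w.1 = i ∨ w.1 ∈ S) ∧
      DD (tw p ν j Z.X) (res1 i fun l => x l - m * n (toEmb j Z l)) = 0 := by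
  classical
  have triv : DD (tw p ν j Z.X) (res1 i x) = 0 → ∃ (m : ℤ) (n : Emb Z → ℕ),
      (m = 0 ∨ (IsRel Z n ∧ IsWeilRelation Z n)) ∧ (∀ w, n w ≠ 0 → w.1 = i ∨ w.1 ∈ S) ∧
      DD (tw p ν j Z.X) (res1 i fun l => x l - m * n (toEmb j Z l)) = 0 := by
    intro h0
    refine ⟨0, fun _ => 0, Or.inl rfl, fun w hw => absurd rfl hw, ?_⟩
    have h1 : (fun l : Wt Z.X L => x l - 0 * ((0 : ℕ) : ℤ)) = x := by
      funext l
      simp
    rw [h1, h0]
  rcases h with hss | ⟨h6, hsep⟩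
  · refine triv (DD_of_eig (eigF_ss hZ hss) fun σ => ?_)
    unfold Fi
    refine Finset.sum_eq_zero fun l hl => ?_
    rw [tw_ss hZ hss (Finset.mem_filter.1 hl).2, Pi.zero_apply, mul_zero]
  by_cases hE : EigF p ν j Z i
  · by_cases hT : ∃ φ₁ : (Z.X.factor i).E →+* L, tw p ν j Z.X ⟨i, φ₁⟩ ≠ 0
    · obtain ⟨φ₁, hφ₁⟩ := hT
      obtain ⟨s, hs1, hs2, hs3, hs4, hs5⟩ := eig_data hE hφ₁
      obtain ⟨d, θ, t, hd, hθ, ht, h1, h2, h3, h4⟩ := exists_quad j hs1 hs2 hs3 φ₁ hs4
      have hnn := ne_neg_root hd hθ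
      rcases hsep.norm t d hd ht with ⟨-, h5⟩ | ⟨h5, -⟩
      · -- the field is contained in no other field
        have hσs : ∀ σ : L ≃ₐ[ℚ] L, σ θ = θ → ∀ φ, s (σ • φ) = s φ := by
          intro σ hσ
          rcases hs3 σ with h | h
          · exact h
          · exact absurd ((h2 σ h).symm.trans hσ) hnn
        have hσs' : ∀ σ : L ≃ₐ[ℚ] L, σ θ = -θ → ∀ φ, s (σ • φ) = -s φ := by
          intro σ hσ
          rcases hs3 σ with h | h
          · exact absurd (hσ.symm.trans (h1 σ h)) hnn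
          · exact h
        have hFσ : ∀ (u : ℤ) (σ : L ≃ₐ[ℚ] L), (∀ φ, s (σ • φ) = u * s φ) → ∀ g,
            Fi p ν j Z x i (g * σ) = u * Fi p ν j Z x i g := by
          intro u σ hu g
          unfold Fi
          rw [Finset.mul_sum]
          refine Finset.sum_congr rfl fun l hl => ?_
          have hl' := (Finset.mem_filter.1 hl).2
          obtain ⟨i', φ⟩ := l
          obtain rfl : i' = i := hl'
          have e1 : tw p ν j Z.X ⟨i', φ⟩ (g * σ) = tw p ν j Z.X ⟨i', σ • φ⟩ g :=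
            (congrFun (tw_smul (p := p) (ν := ν) (j := j) σ (⟨i', φ⟩ : Wt Z.X L)) g).symm
          rw [e1, hs5 (σ • φ), hs5 φ, hu]
          ring
        refine triv (DD_of_eig hE (Fi_zero hZ hd hθ hx (fun σ hσ => ?_) (fun σ hσ => ?_) h5))
        · funext g
          have e1 := hFσ 1 σ (fun φ => by rw [hσs σ hσ, one_mul]) g
          rw [one_mul] at e1
          exact e1
        · funext g
          have e1 := hFσ (-1) σ (fun φ => by rw [hσs' σ hσ]; ring) g
          rw [Pi.neg_apply]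
          rw [neg_one_mul] at e1
          exact e1
      · exfalso
        have h7 := inj_eig hZ (l := ⟨i, φ₁⟩) (fun φ φ' => generated_inj hZ h5 φ φ') (hE _ rfl)
        exact absurd h7 (by
          change ¬ finrank ℚ (Z.X.factor i).E ≤ 2
          omega)
    · push Not at hT
      refine triv (DD_of_eig hE fun σ => ?_)
      unfold Fi
      refine Finset.sum_eq_zero fun l hl => ?_
      have hl' := (Finset.mem_filter.1 hl).2
      obtain ⟨i', φ⟩ := l
      obtain rfl : i' = i := hl'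
      rw [hT φ, Pi.zero_apply, mul_zero]
  have hS := (sgn_of_separated hZ h6 hsep x hx).resolve_left hE
  by_cases hv : ∀ φ, vf x i φ = 0
  · exact triv (DD_of_vf hv)
  push Not at hv
  obtain ⟨φ₁, hφ₁⟩ := hv
  obtain ⟨s, hs1, hs2, hs3, hs4, hs5⟩ := sgn_data hS hφ₁ j
  obtain ⟨d, θ, t, hd, hθ, ht, h1, h2, h3, h4⟩ := exists_quad j hs1 hs2 hs3 φ₁ hs4
  have hnn := ne_neg_root hd hθ
  have him : (j θ).im ≠ 0 := im_ne_root hd (by rw [← map_pow, hθ, map_neg, map_natCast])
  -- the sign of the imaginary part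
  obtain ⟨u, hu, hus⟩ : ∃ u : ℤ, (u = 1 ∨ u = -1) ∧ ∀ φ : (Z.X.factor i).E →+* L,
      ((if 0 < (j (φ t)).im then 1 else 0 : ℤ) - (if 0 < (j ((cc L • φ) t)).im then 1 else 0)) =
        u * s φ := by
    have hsc : ∀ φ, s (cc L • φ) = -s φ := hs2
    rcases lt_or_gt_of_ne him with h0 | h0
    · refine ⟨-1, Or.inr rfl, fun φ => ?_⟩
      have hn : 0 < (j (-θ)).im := by
        rw [map_neg, Complex.neg_im]
        linarith
      rcases hs1 φ with e1 | e1
      · have e2 : s (cc L • φ) = -1 := by rw [hsc, e1]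
        rw [h3 φ e1, h4 _ e2, if_neg (not_lt.2 h0.le), if_pos hn, e1]
        norm_num
      · have e2 : s (cc L • φ) = 1 := by rw [hsc, e1, neg_neg]
        rw [h4 φ e1, h3 _ e2, if_neg (not_lt.2 h0.le), if_pos hn, e1]
        norm_num
    · refine ⟨1, Or.inl rfl, fun φ => ?_⟩
      have hn : ¬ 0 < (j (-θ)).im := by
        rw [map_neg, Complex.neg_im]
        linarith
      rcases hs1 φ with e1 | e1
      · have e2 : s (cc L • φ) = -1 := by rw [hsc, e1]
        rw [h3 φ e1, h4 _ e2, if_pos h0, if_neg hn, e1]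
        norm_num
      · have e2 : s (cc L • φ) = 1 := by rw [hsc, e1, neg_neg]
        rw [h4 φ e1, h3 _ e2, if_pos h0, if_neg hn, e1]
        norm_num
  have huu : u * u = 1 := by
    rcases hu with h | h <;> rw [h] <;> norm_num
  rcases hsep.norm t d hd ht with ⟨h5, h6'⟩ | ⟨-, n, hn1, hn2, hn3, hn4⟩
  · -- the field is contained in no other field
    exfalso
    have hsσ : ∀ σ : L ≃ₐ[ℚ] L, σ θ = θ → ∀ φ, s (σ • φ) = s φ := by
      intro σ hσ
      rcases hs3 σ with h | h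
      · exact h
      · exact absurd ((h2 σ h).symm.trans hσ) hnn
    have hsσ' : ∀ σ : L ≃ₐ[ℚ] L, σ θ = -θ → ∀ φ, s (σ • φ) = -s φ := by
      intro σ hσ
      rcases hs3 σ with h | h
      · exact absurd (hσ.symm.trans (h1 σ h)) hnn
      · exact h
    have hF0 : ∀ σ, Fi p ν j Z x i σ = 0 := by
      refine Fi_zero hZ hd hθ hx (fun σ hσ => ?_) (fun σ hσ => ?_) h6'
      · funext g
        have e1 := Rt_Fi_of_sgn (p := p) (ν := ν) (j := j) (x := x) (i := i) (σ := σ) 1
          (Or.inl rfl) (fun φ => by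
            rw [hs5 (σ • φ), hs5 φ, hsσ σ hσ, one_mul]) g
        rw [one_mul] at e1
        exact e1
      · funext g
        have e1 := Rt_Fi_of_sgn (p := p) (ν := ν) (j := j) (x := x) (i := i) (σ := σ) (-1)
          (Or.inr rfl) (fun φ => by
            rw [hs5 (σ • φ), hs5 φ, hsσ' σ hσ]
            ring) g
        rw [Pi.neg_apply]
        rw [neg_one_mul] at e1
        exact e1
    refine h5 (balanced_of hZ hd ht fun σ => ?_)
    have e1 := Fi_two (p := p) (ν := ν) (j := j) x i σ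
    rw [hF0, mul_zero] at e1
    set A := ∑ l : Wt Z.X L with l.1 = i, (if 0 < (j (l.2 ((Pi.single i t : Z.X.H1) l.1))).im
      then tw p ν j Z.X l σ else 0) with hA
    have e2 := sum_smul (cc L) i fun l : Wt Z.X L =>
      (if 0 < (j (l.2 ((Pi.single i t : Z.X.H1) l.1))).im then tw p ν j Z.X l σ else 0)
    rw [← hA] at e2
    have htt : (Pi.single i t : Z.X.H1) i = t :=
      Pi.single_eq_same (M := fun k => (Z.X.factor k).E) i t
    have e3 : ∑ l : Wt Z.X L with l.1 = i, xm x l * tw p ν j Z.X l σ =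
        vf x i φ₁ * u * (A + A) := by
      nth_rewrite 2 [← e2]
      rw [hA, ← Finset.sum_add_distrib, Finset.mul_sum]
      refine Finset.sum_congr rfl fun l hl => ?_
      have hl' := (Finset.mem_filter.1 hl).2
      obtain ⟨i', φ⟩ := l
      obtain rfl : i' = i := hl'
      have e4 : tw p ν j Z.X (cc L • (⟨i', φ⟩ : Wt Z.X L)) = -tw p ν j Z.X ⟨i', φ⟩ :=
        tw_cw (⟨i', φ⟩ : Wt Z.X L)
      have e5 : xm x (⟨i', φ⟩ : Wt Z.X L) = vf x i' φ₁ * s φ := hs5 φ
      have e6 := hus φ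
      rw [e4, e5]
      change vf x i' φ₁ * s φ * tw p ν j Z.X ⟨i', φ⟩ σ = vf x i' φ₁ * u *
        ((if 0 < (j (φ ((Pi.single i' t : Z.X.H1) i'))).im then tw p ν j Z.X ⟨i', φ⟩ σ else 0) +
          if 0 < (j ((cc L • φ) ((Pi.single i' t : Z.X.H1) i'))).im then
            (-tw p ν j Z.X ⟨i', φ⟩) σ else 0)
      rw [htt, Pi.neg_apply]
      have e7 : s φ = u * ((if 0 < (j (φ t)).im then 1 else 0 : ℤ) -
          (if 0 < (j ((cc L • φ) t)).im then 1 else 0)) := by
        rw [e6, ← mul_assoc, huu, one_mul]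
      rw [e7]
      by_cases c1 : 0 < (j (φ t)).im <;> by_cases c2 : 0 < (j ((cc L • φ) t)).im
      · rw [if_pos c1, if_pos c2, if_pos c1, if_pos c2]
        ring
      · rw [if_pos c1, if_neg c2, if_pos c1, if_neg c2]
        ring
      · rw [if_neg c1, if_pos c2, if_neg c1, if_pos c2]
        ring
      · rw [if_neg c1, if_neg c2, if_neg c1, if_neg c2]
        ring
    rw [e3] at e1
    have hune : u ≠ 0 := by
      rcases hu with h | h <;> rw [h] <;> norm_num
    have e4 := (mul_eq_zero.1 e1.symm).resolve_left (mul_ne_zero hφ₁ hune)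
    have e5 : A = 0 := by omega
    exact e5
  · -- the norm occurs in a Weil relation
    refine ⟨vf x i φ₁ * u, n, Or.inr ⟨hn1, hn2⟩, hn4, DD_of_vf fun φ => ?_⟩
    have e1 : vf (fun l => x l - vf x i φ₁ * u * n (toEmb j Z l)) i φ =
        vf x i φ - vf x i φ₁ * u * ((n ⟨i, j.comp φ⟩ : ℤ) - n ⟨i, j.comp (cc L • φ)⟩) := by
      change (x ⟨i, φ⟩ - vf x i φ₁ * u * n ⟨i, j.comp φ⟩) -
        (x (cw Z ⟨i, φ⟩) - vf x i φ₁ * u * n ⟨i, j.comp (cc L • φ)⟩) =
        (x ⟨i, φ⟩ - x (cw Z ⟨i, φ⟩)) - _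
      ring
    have e2 : ((n ⟨i, j.comp φ⟩ : ℤ) - n ⟨i, j.comp (cc L • φ)⟩) = u * s φ := by
      rw [hn3, hn3, ← hus φ]
      congr 1
      · push_cast
        rfl
      · push_cast
        rfl
    rw [e1, e2, hs5 φ]
    linear_combination (-(vf x i φ₁) * s φ) * huu

/-- Relations supported on a good set. -/
theorem mem_good (hZ : Big Z.X j) {S : Set Z.X.I} (hS : IsGoodSet Z S) {d : Emb Z → ℤ}
    (hd : ∀ w, d w ≠ 0 → w.1 ∈ S)
    (hrel : ∀ σ, ∑ l : Wt Z.X L, d (toEmb j Z l) * tw p ν j Z.X l σ = 0) : d ∈ elemGroup Z := by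
  classical
  have hbound : ∃ N : ℕ, ∀ w, 0 ≤ d w + N := by
    refine ⟨∑ w, (d w).natAbs, fun w => ?_⟩
    have h1 : (d w).natAbs ≤ ∑ w, (d w).natAbs :=
      Finset.single_le_sum (f := fun w => (d w).natAbs) (fun _ _ => Nat.zero_le _)
        (Finset.mem_univ w)
    omega
  obtain ⟨N, hN⟩ := hbound
  let n1 : Emb Z → ℕ := fun w => if w.1 ∈ S then (d w + N).toNat else 0
  let n2 : Emb Z → ℕ := fun w => if w.1 ∈ S then N else 0
  have e1 : ∀ w, (n1 w : ℤ) = if w.1 ∈ S then d w + N else 0 := by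
    intro w
    change (((if w.1 ∈ S then (d w + N).toNat else 0 : ℕ)) : ℤ) = _
    by_cases h : w.1 ∈ S
    · rw [if_pos h, if_pos h, Int.toNat_of_nonneg (hN w)]
    · rw [if_neg h, if_neg h, Nat.cast_zero]
  have e2 : ∀ w, (n2 w : ℤ) = if w.1 ∈ S then (N : ℤ) else 0 := by
    intro w
    change (((if w.1 ∈ S then N else 0 : ℕ)) : ℤ) = _
    by_cases h : w.1 ∈ S
    · rw [if_pos h, if_pos h]
    · rw [if_neg h, if_neg h, Nat.cast_zero]
  have hd0 : ∀ w, w.1 ∉ S → d w = 0 := by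
    intro w hw
    by_contra h
    exact hw (hd w h)
  have e3 : ∀ w, (n1 w : ℤ) = d w + n2 w := by
    intro w
    rw [e1, e2]
    by_cases h : w.1 ∈ S
    · rw [if_pos h, if_pos h]
    · rw [if_neg h, if_neg h, hd0 w h, add_zero]
  have hr2 : ∀ σ, ∑ l : Wt Z.X L, (n2 (toEmb j Z l) : ℤ) * tw p ν j Z.X l σ = 0 := by
    intro σ
    have h1 : ∑ l : Wt Z.X L, (n2 (toEmb j Z l) : ℤ) * tw p ν j Z.X l σ =
        -∑ l : Wt Z.X L, (n2 (toEmb j Z l) : ℤ) * tw p ν j Z.X l σ := by
      rw [← Finset.sum_neg_distrib]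
      refine Fintype.sum_equiv (MulAction.toPerm (cc L)) _ _ fun l => ?_
      rw [MulAction.toPerm_apply]
      have h2 : tw p ν j Z.X (cc L • l) = -tw p ν j Z.X l := tw_cw l
      have h3 : n2 (toEmb j Z (cc L • l)) = n2 (toEmb j Z l) := rfl
      rw [h2, h3, Pi.neg_apply]
      ring
    omega
  have hr1 : ∀ σ, ∑ l : Wt Z.X L, (n1 (toEmb j Z l) : ℤ) * tw p ν j Z.X l σ = 0 := by
    intro σ
    have h1 : ∑ l : Wt Z.X L, (n1 (toEmb j Z l) : ℤ) * tw p ν j Z.X l σ =
        ∑ l : Wt Z.X L, d (toEmb j Z l) * tw p ν j Z.X l σ +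
          ∑ l : Wt Z.X L, (n2 (toEmb j Z l) : ℤ) * tw p ν j Z.X l σ := by
      rw [← Finset.sum_add_distrib]
      exact Finset.sum_congr rfl fun l _ => by rw [e3]; ring
    rw [h1, hrel, hr2, add_zero]
  have m1 : (fun w => (n1 w : ℤ)) ∈ elemGroup Z := by
    refine AddSubgroup.subset_closure ⟨n1, (isRel_iff hZ n1).2 hr1, Or.inr (Or.inl ⟨S, hS,
      fun w hw => ?_⟩), fun _ => rfl⟩
    by_contra h
    exact hw (if_neg h)
  have m2 : (fun w => (n2 w : ℤ)) ∈ elemGroup Z := by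
    refine AddSubgroup.subset_closure ⟨n2, (isRel_iff hZ n2).2 hr2, Or.inr (Or.inl ⟨S, hS,
      fun w hw => ?_⟩), fun _ => rfl⟩
    by_contra h
    exact hw (if_neg h)
  have h4 : d = (fun w => (n1 w : ℤ)) - fun w => (n2 w : ℤ) := by
    funext w
    rw [Pi.sub_apply, e3]
    ring
  rw [h4]
  exact AddSubgroup.sub_mem _ m1 m2

end

/-- Abelian varieties with separated factors have elementary relations. -/
theorem elementary_of_separated (Z : RedAV p ν) (S : Set Z.X.I) (h : IsSeparated Z S) :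
    HasElementaryRelations Z := by
  classical
  have hne : Nonempty (Z.X.prod (single (kp p))).I := ⟨Sum.inr ()⟩
  obtain ⟨L, _, _, _, _, j, hj⟩ := exists_cm (Z.X.prod (single (kp p)))
  have hZ : Big Z.X j := fun i ψ => hj (Sum.inl i) ψ
  have hfin := finite_wt j hZ
  let _ : Fintype (Wt Z.X L) := Fintype.ofFinite _
  intro e he
  have hx : Re p ν j Z fun l : Wt Z.X L => (e (toEmb j Z l) : ℤ) := (isRel_iff hZ e).1 he
  have key : ∀ i : Z.X.I, ∃ (m : ℤ) (n : Emb Z → ℕ), i ∉ S →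
      (m = 0 ∨ (IsRel Z n ∧ IsWeilRelation Z n)) ∧ (∀ w, n w ≠ 0 → w.1 = i ∨ w.1 ∈ S) ∧
      DD (tw p ν j Z.X) (res1 i fun l => (e (toEmb j Z l) : ℤ) - m * n (toEmb j Z l)) = 0 := by
    intro i
    by_cases hi : i ∈ S
    · exact ⟨0, fun _ => 0, fun h' => absurd hi h'⟩
    · obtain ⟨m, n, h1, h2, h3⟩ := factor_cases hZ hi (h.other i hi) hx
      exact ⟨m, n, fun _ => ⟨h1, h2, h3⟩⟩
  choose m n hmn using key
  let B : Finset Z.X.I := Finset.univ.filter fun i => i ∉ S
  -- the part belonging to the Weil relations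
  let w0 : Emb Z → ℤ := ∑ i ∈ B, m i • fun w => (n i w : ℤ)
  have hw0 : w0 ∈ elemGroup Z := by
    refine AddSubgroup.sum_mem _ fun i hi => ?_
    have hi' := (Finset.mem_filter.1 hi).2
    rcases (hmn i hi').1 with h1 | ⟨h1, h2⟩
    · rw [h1, zero_smul]
      exact AddSubgroup.zero_mem _
    · have h3 : (fun w => (n i w : ℤ)) ∈ elemGroup Z :=
        AddSubgroup.subset_closure ⟨n i, h1, Or.inr (Or.inr h2), fun _ => rfl⟩
      exact AddSubgroup.zsmul_mem _ h3 _
  let y : Emb Z → ℤ := fun w => (e w : ℤ) - w0 w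
  have hyrel : ∀ σ, ∑ l : Wt Z.X L, y (toEmb j Z l) * tw p ν j Z.X l σ = 0 := by
    intro σ
    have h1 := sum_closure hZ w0 hw0 σ
    have h2 := hx σ
    have h3 : ∑ l : Wt Z.X L, y (toEmb j Z l) * tw p ν j Z.X l σ =
        ∑ l : Wt Z.X L, (e (toEmb j Z l) : ℤ) * tw p ν j Z.X l σ -
          ∑ l : Wt Z.X L, w0 (toEmb j Z l) * tw p ν j Z.X l σ := by
      rw [← Finset.sum_sub_distrib]
      refine Finset.sum_congr rfl fun l _ => ?_
      change ((e (toEmb j Z l) : ℤ) - w0 (toEmb j Z l)) * _ = _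
      ring
    rw [h3, h1, sub_zero]
    exact h2
  -- the parts of the factors outside of `S`
  have hyi : ∀ i, i ∉ S → DD (tw p ν j Z.X) (res1 i fun l : Wt Z.X L => y (toEmb j Z l)) = 0 := by
    intro i hi
    have h1 := (hmn i hi).2.2
    have h2 : res1 i (fun l : Wt Z.X L => y (toEmb j Z l)) =
        res1 i fun l => (e (toEmb j Z l) : ℤ) - m i * n i (toEmb j Z l) := by
      funext l
      unfold res1
      by_cases hl : l.1 = i
      · rw [if_pos hl, if_pos hl]
        change (e (toEmb j Z l) : ℤ) - w0 (toEmb j Z l) = _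
        congr 1
        change (∑ i ∈ B, m i • fun w => (n i w : ℤ)) (toEmb j Z l) = _
        rw [Finset.sum_apply, Finset.sum_eq_single i]
        · rfl
        · intro k hk hki
          have h3 : n k (toEmb j Z l) = 0 := by
            by_contra h4
            rcases (hmn k (Finset.mem_filter.1 hk).2).2.1 _ h4 with h5 | h5
            · exact hki (h5.symm.trans hl)
            · have h6 : l.1 ∈ S := h5
              rw [hl] at h6
              exact hi h6
          rw [Pi.smul_apply, h3, Nat.cast_zero, smul_zero]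
        · intro h3
          have h4 : i ∈ B := Finset.mem_filter.2 ⟨Finset.mem_univ _, hi⟩
          exact absurd h4 h3
      · rw [if_neg hl, if_neg hl]
    rw [h2, h1]
  let yB : Emb Z → ℤ := fun w => if w.1 ∈ S then 0 else y w
  have hyB : yB ∈ twoGroup Z := by
    refine mem_two hZ ?_
    funext f
    rw [Pi.zero_apply, DD_eq, ← Finset.sum_fiberwise Finset.univ (fun l : Wt Z.X L => l.1)]
    refine Finset.sum_eq_zero fun i _ => ?_
    by_cases hi : i ∈ S
    · refine Finset.sum_eq_zero fun l hl => ?_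
      have hl' := (Finset.mem_filter.1 hl).2
      have h1 : yB (toEmb j Z l) = 0 := if_pos (by
        change l.1 ∈ S
        rw [hl']
        exact hi)
      rw [h1, zero_mul]
    · have h1 := congrFun (hyi i hi) f
      rw [DD_res1, Pi.zero_apply] at h1
      refine Eq.trans ?_ h1
      refine Finset.sum_congr rfl fun l hl => ?_
      have hl' := (Finset.mem_filter.1 hl).2
      have h2 : yB (toEmb j Z l) = y (toEmb j Z l) := if_neg (by
        change l.1 ∉ S
        rw [hl']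
        exact hi)
      rw [h2]
  let yS : Emb Z → ℤ := fun w => if w.1 ∈ S then y w else 0
  have hyS : yS ∈ elemGroup Z := by
    refine mem_good hZ h.good (fun w hw => ?_) fun σ => ?_
    · by_contra h1
      exact hw (if_neg h1)
    · have h1 := sum_closure hZ yB (twoGroup_le Z hyB) σ
      have h2 := hyrel σ
      have h3 : ∑ l : Wt Z.X L, y (toEmb j Z l) * tw p ν j Z.X l σ =
          ∑ l : Wt Z.X L, yS (toEmb j Z l) * tw p ν j Z.X l σ +
            ∑ l : Wt Z.X L, yB (toEmb j Z l) * tw p ν j Z.X l σ := by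
        rw [← Finset.sum_add_distrib]
        refine Finset.sum_congr rfl fun l _ => ?_
        change _ = (if (toEmb j Z l).1 ∈ S then y (toEmb j Z l) else 0) * _ +
          (if (toEmb j Z l).1 ∈ S then 0 else y (toEmb j Z l)) * _
        by_cases h4 : (toEmb j Z l).1 ∈ S
        · rw [if_pos h4, if_pos h4, zero_mul, add_zero]
        · rw [if_neg h4, if_neg h4, zero_mul, zero_add]
      rw [h2, h1, add_zero] at h3
      exact h3.symm
  have hfinal : (fun w => (e w : ℤ)) = yS + yB + w0 := by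
    funext w
    change (e w : ℤ) = (if w.1 ∈ S then y w else 0) + (if w.1 ∈ S then 0 else y w) + w0 w
    have h1 : y w = (e w : ℤ) - w0 w := rfl
    by_cases h4 : w.1 ∈ S
    · rw [if_pos h4, if_pos h4, h1]
      ring
    · rw [if_neg h4, if_neg h4, h1]
      ring
  rw [hfinal]
  exact AddSubgroup.add_mem _ (AddSubgroup.add_mem _ hyS (twoGroup_le Z hyB)) hw0

end

end Pool.Agent.Q43.HP
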