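import Pool.Agent.Q43.HP.Trans

/-!
# Imaginary quadratic subfields and the contributions of the factors
-/

set_option autoImplicit false
set_option linter.unusedSectionVars false
set_option linter.unusedVariables false

namespace Pool.Agent.Q43.HP

open NumberField Pool.Agent.H204R3.CM Pool.Agent.W547.KB Pool.Agent.W547.LD Pool.Agent.W547.HR
  Pool.Agent.W495.TA Pool.Agent.W495.TB Pool.Agent.W495.TC Pool.Agent.TH117.F5
  Pool.Agent.TH117.PO Pool.Agent.TH117.BL Module Pool.Agent.W976.TA Equiv Pool.Agent.Q43.HN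
open scoped TensorProduct

noncomputable section

variable {p : ℕ} [Fact p.Prime] {ν : PadicAlgCl p ≃+* ℂ}
  {L : Type} [Field L] [NumberField L] [IsCMField L] [IsGalois ℚ L] {j : L →+* ℂ}
  {Z : RedAV p ν}

theorem ne_neg_root {d : ℕ} (hd : 0 < d) {θ : L} (hθ : θ ^ 2 = -(d : L)) : -θ ≠ θ := by
  intro h
  have h3 : (2 : L) * θ = 0 := by
    rw [two_mul]
    nth_rewrite 1 [← h]
    rw [neg_add_cancel]
  have h4 := (mul_eq_zero.1 h3).resolve_left two_ne_zero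
  rw [h4, zero_pow two_ne_zero, eq_comm, neg_eq_zero] at hθ
  exact hd.ne' (by exact_mod_cast hθ)

theorem im_ne_root {d : ℕ} (hd : 0 < d) {z : ℂ} (hz : z ^ 2 = -(d : ℂ)) : z.im ≠ 0 := by
  intro h
  have h2 := congrArg Complex.re hz
  rw [sq, Complex.mul_re, h, Complex.neg_re, Complex.natCast_re] at h2
  have h8 : (0 : ℝ) < d := by exact_mod_cast hd
  nlinarith [mul_self_nonneg z.re]

/-- The field belonging to signs. -/
theorem exists_quad (j : L →+* ℂ) {A : CMPair} {s : (A.E →+* L) → ℤ}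
    (hs : ∀ φ, s φ = 1 ∨ s φ = -1) (hodd : OddF (cc L) s) (hS : SgnF (L ≃ₐ[ℚ] L) s)
    (φ₁ : A.E →+* L) (h1 : s φ₁ = 1) :
    ∃ (d : ℕ) (θ : L) (t : A.E), 0 < d ∧ θ ^ 2 = -(d : L) ∧ t ^ 2 = -(d : A.E) ∧
      (∀ σ : L ≃ₐ[ℚ] L, (∀ φ, s (σ • φ) = s φ) → σ θ = θ) ∧
      (∀ σ : L ≃ₐ[ℚ] L, (∀ φ, s (σ • φ) = -s φ) → σ θ = -θ) ∧
      (∀ φ, s φ = 1 → φ t = θ) ∧ ∀ φ, s φ = -1 → φ t = -θ := by
  classical
  let H : Subgroup (L ≃ₐ[ℚ] L) :=
    { carrier := {σ | ∀ φ, s (σ • φ) = s φ}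
      mul_mem' := fun {a b} ha hb φ => by rw [mul_smul, ha, hb]
      one_mem' := fun φ => by rw [one_smul]
      inv_mem' := fun {a} ha φ => by rw [← ha (a⁻¹ • φ), smul_inv_smul] }
  have hcH : cc L ∉ H := by
    intro h
    have h2 := h φ₁
    rw [hodd, h1] at h2
    norm_num at h2
  have h2 : ∀ σ, σ ∉ H → cc L * σ ∈ H := by
    intro σ hσ φ
    rcases hS σ with h | h
    · exact absurd h hσ
    · rw [mul_smul, hodd, h, neg_neg]
  obtain ⟨d, θ, hd, hθ, hθ1, hθ2⟩ := exists_root j H hcH h2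
  have hst : ∀ σ : L ≃ₐ[ℚ] L, σ • φ₁ = φ₁ → σ ∈ H := by
    intro σ hσ
    rcases hS σ with h | h
    · exact h
    · exfalso
      have h3 := h φ₁
      rw [hσ, h1] at h3
      norm_num at h3
  obtain ⟨t, ht⟩ := mem_range φ₁ (θ := θ) fun σ hσ => hθ1 σ (hst σ hσ)
  have hneg : ∀ σ : L ≃ₐ[ℚ] L, (∀ φ, s (σ • φ) = -s φ) → σ θ = -θ := by
    intro σ hσ
    refine hθ2 σ fun h => ?_
    have h3 := hσ φ₁
    rw [h φ₁, h1] at h3
    norm_num at h3
  refine ⟨d, θ, t, hd, hθ, ?_, fun σ hσ => hθ1 σ hσ, hneg, fun φ hφ => ?_, fun φ hφ => ?_⟩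
  · apply φ₁.injective
    rw [map_pow, ht, hθ, map_neg, map_natCast]
  · obtain ⟨σ, rfl⟩ := (setting j A).trans φ₁ φ
    change σ (φ₁ t) = θ
    rw [ht]
    refine hθ1 σ ?_
    rcases hS σ with h | h
    · exact h
    · exfalso
      rw [h, h1] at hφ
      norm_num at hφ
  · obtain ⟨σ, rfl⟩ := (setting j A).trans φ₁ φ
    change σ (φ₁ t) = -θ
    rw [ht]
    refine hneg σ ?_
    rcases hS σ with h | h
    · exfalso
      rw [h, h1] at hφ
      norm_num at hφ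
    · exact h

/-- Supersingular factors. -/
theorem tw_ss (hZ : Big Z.X j) {k : Z.X.I} (h : IsSupersingular Z k) {l : Wt Z.X L}
    (hl : l.1 = k) : tw p ν j Z.X l = 0 := by
  subst hl
  have h7 := Pool.Agent.W495.TC.tf_zero Pool.Agent.W366.TA.val hZ l.1 h l.2
  rw [tf_hs] at h7
  exact h7

theorem eigF_ss (hZ : Big Z.X j) {k : Z.X.I} (h : IsSupersingular Z k) : EigF p ν j Z k := by
  intro l hl σ
  left
  rw [tw_ss hZ h hl]
  rfl

section

variable [Fintype (Wt Z.X L)]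

/-- Contributions of a factor whose imaginary quadratic field is contained in no other CM field. -/
theorem Fi_zero (hZ : Big Z.X j) {i : Z.X.I} {d : ℕ} {θ : L} (hd : 0 < d)
    (hθ : θ ^ 2 = -(d : L)) {x : Wt Z.X L → ℤ} (hx : Re p ν j Z x)
    (h1 : ∀ σ : L ≃ₐ[ℚ] L, σ θ = θ → Rt σ (Fi p ν j Z x i) = Fi p ν j Z x i)
    (h2 : ∀ σ : L ≃ₐ[ℚ] L, σ θ = -θ → Rt σ (Fi p ν j Z x i) = -Fi p ν j Z x i)
    (halone : ∀ k, k ≠ i → ¬ IsSupersingular Z k →
      ∀ t' : (Z.X.factor k).E, t' ^ 2 ≠ -(d : (Z.X.factor k).E)) (h : L ≃ₐ[ℚ] L) :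
    Fi p ν j Z x i h = 0 := by
  classical
  have hnn := ne_neg_root hd hθ
  have hpm : ∀ σ : L ≃ₐ[ℚ] L, σ θ = θ ∨ σ θ = -θ := fun σ => by
    apply sq_eq_sq_iff_eq_or_eq_neg.1
    rw [← map_pow, hθ, map_neg, map_natCast]
  let χ : (L ≃ₐ[ℚ] L) → ℤ := fun σ => if σ θ = θ then 1 else -1
  have hχ : ∀ σ τ : L ≃ₐ[ℚ] L, χ (σ * τ) = χ σ * χ τ := by
    intro σ τ
    change (if σ (τ θ) = θ then (1 : ℤ) else -1) = (if σ θ = θ then 1 else -1) *
      if τ θ = θ then 1 else -1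
    rcases hpm σ with e1 | e1 <;> rcases hpm τ with e2 | e2
    · rw [e2, e1, if_pos rfl, one_mul]
    · rw [e2, map_neg, e1, if_neg hnn, if_pos rfl, one_mul]
    · rw [e2, e1, if_neg hnn, if_pos rfl, mul_one]
    · rw [e2, map_neg, e1, neg_neg, if_pos rfl, if_neg hnn]
      norm_num
  -- the components of the other factors
  have hT : ∀ k, k ≠ i → ∀ l : Wt Z.X L, l.1 = k → ∑ σ, χ σ * tw p ν j Z.X l σ = 0 := by
    intro k hk l hl
    by_cases hss : IsSupersingular Z k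
    · refine Finset.sum_eq_zero fun σ _ => ?_
      rw [tw_ss hZ hss hl, Pi.zero_apply, mul_zero]
    obtain ⟨τ, hτ1, hτ2⟩ : ∃ τ : L ≃ₐ[ℚ] L, τ • l.2 = l.2 ∧ τ θ ≠ θ := by
      by_contra hcon
      push Not at hcon
      obtain ⟨t', ht'⟩ := mem_range l.2 (θ := θ) hcon
      subst hl
      refine halone l.1 hk hss t' ?_
      apply l.2.injective
      rw [map_pow, ht', hθ, map_neg, map_natCast]
    have hτl : τ • l = l := by
      obtain ⟨i', φ⟩ := l
      change (⟨i', τ • φ⟩ : Wt Z.X L) = ⟨i', φ⟩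
      rw [show τ • φ = φ from hτ1]
    have h3 : ∀ σ, tw p ν j Z.X l (σ * τ) = tw p ν j Z.X l σ := by
      intro σ
      have h4 := congrFun (tw_smul (p := p) (ν := ν) (j := j) τ l) σ
      rw [hτl] at h4
      exact h4.symm
    have h4 : χ τ = -1 := if_neg hτ2
    have h5 : ∑ σ, χ σ * tw p ν j Z.X l σ = -∑ σ, χ σ * tw p ν j Z.X l σ := by
      rw [← Finset.sum_neg_distrib]
      refine (Fintype.sum_equiv (Equiv.mulRight τ) _ _ fun σ => ?_).symm
      rw [Equiv.coe_mulRight, hχ, h4, h3]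
      ring
    omega
  have hF : ∀ k, k ≠ i → ∑ σ, χ σ * Fi p ν j Z x k σ = 0 := by
    intro k hk
    unfold Fi
    simp only [Finset.mul_sum]
    rw [Finset.sum_comm]
    refine Finset.sum_eq_zero fun l hl => ?_
    have h3 : ∑ σ, χ σ * (x l * tw p ν j Z.X l σ) = x l * ∑ σ, χ σ * tw p ν j Z.X l σ := by
      rw [Finset.mul_sum]
      exact Finset.sum_congr rfl fun σ _ => by ring
    rw [h3, hT k hk l (Finset.mem_filter.1 hl).2, mul_zero]
  have hI : ∑ σ, χ σ * Fi p ν j Z x i σ = 0 := by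
    have h3 : ∑ σ, χ σ * ∑ k, Fi p ν j Z x k σ = 0 := by
      refine Finset.sum_eq_zero fun σ _ => ?_
      rw [Fi_sum, hx σ, mul_zero]
    simp only [Finset.mul_sum] at h3
    rw [Finset.sum_comm, ← Finset.add_sum_erase Finset.univ _ (Finset.mem_univ i),
      Finset.sum_eq_zero (fun k hk => hF k (Finset.ne_of_mem_erase hk)), add_zero] at h3
    exact h3
  have hval : ∀ σ, χ σ * Fi p ν j Z x i σ = Fi p ν j Z x i 1 := by
    intro σ
    change (if σ θ = θ then (1 : ℤ) else -1) * _ = _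
    rcases hpm σ with e1 | e1
    · rw [if_pos e1, apply_of_eq (h1 σ e1), one_mul]
    · rw [if_neg (by rw [e1]; exact hnn), apply_of_neg (h2 σ e1)]
      ring
  rw [Finset.sum_congr rfl fun σ _ => hval σ, Finset.sum_const, nsmul_eq_mul] at hI
  have h0 : Fi p ν j Z x i 1 = 0 := by
    refine (mul_eq_zero.1 hI).resolve_left ?_
    have h3 : 0 < (Finset.univ : Finset (L ≃ₐ[ℚ] L)).card := Finset.card_pos.2 ⟨1, Finset.mem_univ _⟩
    exact_mod_cast h3.ne'
  rcases hpm h with e1 | e1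
  · rw [apply_of_eq (h1 h e1), h0]
  · rw [apply_of_neg (h2 h e1), h0, neg_zero]

/-- Signs of the multiplicities and of the contribution. -/
theorem Rt_Fi_of_sgn {x : Wt Z.X L → ℤ} {i : Z.X.I} {σ : L ≃ₐ[ℚ] L} (u : ℤ) (hu : u = 1 ∨ u = -1)
    (h : ∀ φ, vf x i (σ • φ) = u * vf x i φ) :
    ∀ g, Fi p ν j Z x i (g * σ) = u * Fi p ν j Z x i g := by
  classical
  intro g
  have huu : u * u = 1 := by
    rcases hu with h | h <;> rw [h] <;> norm_num
  have h1 : 2 * Fi p ν j Z x i (g * σ) =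
      ∑ l : Wt Z.X L with l.1 = i, u * (xm x l * tw p ν j Z.X l g) := by
    rw [Fi_two, ← sum_smul σ i fun l => u * (xm x l * tw p ν j Z.X l g)]
    refine Finset.sum_congr rfl fun l hl => ?_
    have hl' := (Finset.mem_filter.1 hl).2
    obtain ⟨i', φ⟩ := l
    obtain rfl : i' = i := hl'
    have h2 : xm x (σ • (⟨i', φ⟩ : Wt Z.X L)) = u * xm x ⟨i', φ⟩ := h φ
    rw [h2, tw_smul]
    unfold Rt
    linear_combination (-(xm x ⟨i', φ⟩) * tw p ν j Z.X ⟨i', φ⟩ (g * σ)) * huu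
  rw [← Finset.mul_sum, ← Fi_two] at h1
  linarith

end

end

end Pool.Agent.Q43.HP
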