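import Pool.Agent.Q43.HN.Cyc

/-!
# Odd functions on a set with a group action: functions on which the group acts by signs
-/

set_option autoImplicit false
set_option linter.unusedSectionVars false
set_option linter.unusedVariables false

namespace Pool.Agent.Q43.HP

open Pool.Agent.Q43.HN (cyc)

variable {G X : Type} [Group G] [MulAction G X]

/-- Odd functions. -/
def OddF (c : G) (v : X → ℤ) : Prop := ∀ x, v (c • x) = -v x

/-- The group acts on the function by signs. -/
def SgnF (G : Type) {X : Type} [Group G] [MulAction G X] (v : X → ℤ) : Prop :=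
  ∀ σ : G, (∀ x, v (σ • x) = v x) ∨ ∀ x, v (σ • x) = -v x

/-- Elements of the group which change all translates of an odd function (on which the group does not
act by signs) only by functions on which the group acts by signs are trivial. -/
def Rigid (c : G) (X : Type) [MulAction G X] : Prop :=
  ∀ v : X → ℤ, OddF c v → ¬ SgnF G v → ∀ ρ : G,
    (∀ σ : G, SgnF G fun x : X => v (σ • x) - v (σ • ρ • x)) → ∀ x : X, ρ • x = x

theorem sgnF_zero {v : X → ℤ} (h : ∀ x, v x = 0) : SgnF G v := fun σ => Or.inl fun x => by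
  rw [h, h]

theorem SgnF.abs {v : X → ℤ} (hv : SgnF G v) (σ : G) (x : X) : v (σ • x) = v x ∨
    v (σ • x) = -v x := (hv σ).imp (fun h => h x) fun h => h x

theorem SgnF.comp {v : X → ℤ} (hv : SgnF G v) (σ : G) : SgnF G fun x => v (σ • x) := by
  intro τ
  rcases hv (σ * τ) with h | h <;> rcases hv σ with h' | h'
  · left
    intro x
    change v (σ • τ • x) = v (σ • x)
    rw [← mul_smul, h, h']
  · right
    intro x
    change v (σ • τ • x) = -v (σ • x)
    rw [← mul_smul, h, h', neg_neg]
  · right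
    intro x
    change v (σ • τ • x) = -v (σ • x)
    rw [← mul_smul, h, h']
  · left
    intro x
    change v (σ • τ • x) = v (σ • x)
    rw [← mul_smul, h, h']

/-- The differences of the translates are zero or twice the function, up to the sign. -/
theorem SgnF.sub {v : X → ℤ} (hv : SgnF G v) (σ ρ : G) :
    SgnF G fun x => v (σ • x) - v (σ • ρ • x) := by
  have key : (∀ x, v (σ • x) - v (σ • ρ • x) = 0) ∨ (∀ x, v (σ • x) - v (σ • ρ • x) = 2 * v x) ∨
      ∀ x, v (σ • x) - v (σ • ρ • x) = -(2 * v x) := by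
    rcases hv σ with h | h <;> rcases hv (σ * ρ) with h' | h'
    · left
      intro x
      rw [← mul_smul, h, h', sub_self]
    · right
      left
      intro x
      rw [← mul_smul, h, h']
      ring
    · right
      right
      intro x
      rw [← mul_smul, h, h']
      ring
    · left
      intro x
      rw [← mul_smul, h, h', sub_self]
  rcases key with h | h | h
  · exact sgnF_zero h
  · intro τ
    refine (hv τ).imp (fun h' x => ?_) fun h' x => ?_
    · change v (σ • τ • x) - v (σ • ρ • τ • x) = v (σ • x) - v (σ • ρ • x)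
      rw [h, h, h']
    · change v (σ • τ • x) - v (σ • ρ • τ • x) = -(v (σ • x) - v (σ • ρ • x))
      rw [h, h, h']
      ring
  · intro τ
    refine (hv τ).imp (fun h' x => ?_) fun h' x => ?_
    · change v (σ • τ • x) - v (σ • ρ • τ • x) = v (σ • x) - v (σ • ρ • x)
      rw [h, h, h']
    · change v (σ • τ • x) - v (σ • ρ • τ • x) = -(v (σ • x) - v (σ • ρ • x))
      rw [h, h, h']
      ring

variable {c : G} (hcomm : ∀ h, c * h = h * c)

include hcomm in
theorem smul_c (σ : G) (x : X) : σ • c • x = c • σ • x := by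
  rw [← mul_smul, ← mul_smul, hcomm]

include hcomm in
theorem OddF.comp {v : X → ℤ} (hv : OddF c v) (σ : G) : OddF c fun x => v (σ • x) := by
  intro x
  change v (σ • c • x) = -v (σ • x)
  rw [smul_c hcomm, hv]

include hcomm in
theorem OddF.sub {v : X → ℤ} (hv : OddF c v) (σ ρ : G) :
    OddF c fun x => v (σ • x) - v (σ • ρ • x) := by
  intro x
  change v (σ • c • x) - v (σ • ρ • c • x) = -(v (σ • x) - v (σ • ρ • x))
  rw [smul_c hcomm ρ, smul_c hcomm, smul_c hcomm, hv, hv]
  ring

include hcomm in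
/-- Removing the part on which the group acts by signs. -/
theorem reduce [Fintype X] [Nonempty X] {s : X → ℤ} (hs : ∀ x, s x = 1 ∨ s x = -1)
    (hso : OddF c s) (hU : ∀ w : X → ℤ, OddF c w → SgnF G w → ∃ a : ℤ, ∀ x, w x = a * s x)
    {v : X → ℤ} (hv : OddF c v) (hvS : ¬ SgnF G v) {ρ : G}
    (h : ∀ σ : G, SgnF G fun x : X => v (σ • x) - v (σ • ρ • x)) :
    ∃ v' : X → ℤ, OddF c v' ∧ ¬ SgnF G v' ∧ ∀ (σ : G) (x : X), v' (σ • x) = v' (σ • ρ • x) := by
  classical
  by_cases hS : SgnF G s
  · set N : ℤ := ∑ x : X, s x * s x with hN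
    set M : ℤ := ∑ x : X, s x * v x with hM
    have hss : ∀ x, s x * s x = 1 := by
      intro x
      rcases hs x with h | h <;> rw [h] <;> norm_num
    have hNpos : 0 < N := by
      rw [hN, Finset.sum_congr rfl fun x _ => hss x, Finset.sum_const, nsmul_eq_mul, mul_one]
      have h1 : 0 < Fintype.card X := Fintype.card_pos
      exact_mod_cast h1
    let v' : X → ℤ := fun x => N * v x - M * s x
    have hv' : OddF c v' := by
      intro x
      change N * v (c • x) - M * s (c • x) = -(N * v x - M * s x)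
      rw [hv, hso]
      ring
    have horth : ∑ x : X, s x * v' x = 0 := by
      have h1 : ∀ x, s x * v' x = N * (s x * v x) - M * (s x * s x) := fun x => by
        change s x * (N * v x - M * s x) = _
        ring
      rw [Finset.sum_congr rfl fun x _ => h1 x, Finset.sum_sub_distrib, ← Finset.mul_sum,
        ← Finset.mul_sum, ← hN, ← hM]
      ring
    have horth' : ∀ σ : G, ∑ x : X, s x * v' (σ • x) = 0 := by
      intro σ
      have h1 : ∑ x : X, s (σ • x) * v' (σ • x) = ∑ x : X, s x * v' x :=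
        Equiv.sum_comp (MulAction.toPerm σ) fun x => s x * v' x
      rw [horth] at h1
      rcases hS σ with h2 | h2
      · rw [← h1]
        exact Finset.sum_congr rfl fun x _ => by rw [h2]
      · have h3 : ∑ x : X, s x * v' (σ • x) = -∑ x : X, s (σ • x) * v' (σ • x) := by
          rw [← Finset.sum_neg_distrib]
          exact Finset.sum_congr rfl fun x _ => by rw [h2]; ring
        rw [h3, h1, neg_zero]
    refine ⟨v', hv', fun hcon => hvS ?_, fun σ x => ?_⟩
    · obtain ⟨a, ha⟩ := hU v' hv' hcon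
      have ha0 : a = 0 := by
        have h1 : ∑ x : X, s x * v' x = a * N := by
          rw [hN, Finset.mul_sum]
          exact Finset.sum_congr rfl fun x _ => by rw [ha]; ring
        rw [horth] at h1
        exact (mul_eq_zero.1 h1.symm).resolve_right hNpos.ne'
      have h2 : ∀ x, N * v x = M * s x := by
        intro x
        have h3 := ha x
        rw [ha0, zero_mul] at h3
        exact sub_eq_zero.1 h3
      intro σ
      refine (hS σ).imp (fun h3 x => ?_) fun h3 x => ?_
      · apply mul_left_cancel₀ hNpos.ne'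
        rw [h2, h2, h3]
      · apply mul_left_cancel₀ hNpos.ne'
        rw [h2, h3, mul_neg, mul_neg, h2]
    · obtain ⟨a, ha⟩ := hU _ (hv.sub hcomm σ ρ) (h σ)
      obtain ⟨b, hb⟩ := hU _ (hso.sub hcomm σ ρ) (hS.sub σ ρ)
      have h1 : ∀ x, v' (σ • x) - v' (σ • ρ • x) = (N * a - M * b) * s x := by
        intro x
        have h2 : v' (σ • x) - v' (σ • ρ • x) = N * (v (σ • x) - v (σ • ρ • x)) -
            M * (s (σ • x) - s (σ • ρ • x)) := by
          change (N * v (σ • x) - M * s (σ • x)) - (N * v (σ • ρ • x) - M * s (σ • ρ • x)) = _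
          ring
        have ha' : v (σ • x) - v (σ • ρ • x) = a * s x := ha x
        have hb' : s (σ • x) - s (σ • ρ • x) = b * s x := hb x
        rw [h2, ha', hb']
        ring
      have h2 : (N * a - M * b) * N = 0 := by
        have h3 : ∑ x : X, s x * (v' (σ • x) - v' (σ • ρ • x)) = (N * a - M * b) * N := by
          rw [hN, Finset.mul_sum]
          exact Finset.sum_congr rfl fun x _ => by rw [h1]; ring
        rw [← h3]
        simp only [mul_sub, Finset.sum_sub_distrib]
        have h4 : ∑ x : X, s x * v' (σ • ρ • x) = ∑ x : X, s x * v' ((σ * ρ) • x) :=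
          Finset.sum_congr rfl fun x _ => by rw [mul_smul]
        rw [horth', h4, horth', sub_zero]
      have h3 := h1 x
      rw [(mul_eq_zero.1 h2).resolve_right hNpos.ne', zero_mul] at h3
      exact sub_eq_zero.1 h3
  · refine ⟨v, hv, hvS, fun σ x => ?_⟩
    obtain ⟨a, ha⟩ := hU _ (hv.sub hcomm σ ρ) (h σ)
    by_cases ha0 : a = 0
    · have h1 : v (σ • x) - v (σ • ρ • x) = a * s x := ha x
      rw [ha0, zero_mul] at h1
      exact sub_eq_zero.1 h1
    · exfalso
      apply hS
      intro τ
      refine (h σ τ).imp (fun h1 y => ?_) fun h1 y => ?_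
      · apply mul_left_cancel₀ ha0
        have h2 := h1 y
        have h3 : v (σ • τ • y) - v (σ • ρ • τ • y) = a * s (τ • y) := ha (τ • y)
        have h4 : v (σ • y) - v (σ • ρ • y) = a * s y := ha y
        rw [← h3, ← h4]
        exact h2
      · apply mul_left_cancel₀ ha0
        have h2 := h1 y
        have h3 : v (σ • τ • y) - v (σ • ρ • τ • y) = a * s (τ • y) := ha (τ • y)
        have h4 : v (σ • y) - v (σ • ρ • y) = a * s y := ha y
        rw [mul_neg, ← h3, ← h4]
        exact h2

/-! ### An element of odd order with two orbits -/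

section prime

variable {τ : G} {g : ℕ} {x₀ : X} (hbij : Function.Bijective (cyc c τ g x₀))
include hbij

/-- The signs defined by the two orbits. -/
theorem exists_signs [Nonempty X] (hsq : c * c = 1) : ∃ s : X → ℤ, (∀ x, s x = 1 ∨ s x = -1) ∧
    OddF c s ∧ ∀ (k : Fin g) (b : Bool), s (cyc c τ g x₀ (k, b)) = if b then -1 else 1 := by
  classical
  let E := Equiv.ofBijective _ hbij
  let s : X → ℤ := fun x => if (E.symm x).2 then -1 else 1
  have hs : ∀ (k : Fin g) (b : Bool), s (cyc c τ g x₀ (k, b)) = if b then -1 else 1 := by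
    intro k b
    have h1 : E.symm (cyc c τ g x₀ (k, b)) = (k, b) := E.symm_apply_apply (k, b)
    change (if (E.symm (cyc c τ g x₀ (k, b))).2 then (-1 : ℤ) else 1) = _
    rw [h1]
  refine ⟨s, fun x => ?_, fun x => ?_, hs⟩
  · change (if (E.symm x).2 then (-1 : ℤ) else 1) = 1 ∨ (if (E.symm x).2 then (-1 : ℤ) else 1) = -1
    split_ifs
    · exact Or.inr rfl
    · exact Or.inl rfl
  · obtain ⟨⟨k, b⟩, rfl⟩ := hbij.2 x
    rcases b with _ | _
    · have h1 : c • cyc c τ g x₀ (k, false) = cyc c τ g x₀ (k, true) := rfl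
      rw [h1, hs, hs]
      rfl
    · have h1 : c • cyc c τ g x₀ (k, true) = cyc c τ g x₀ (k, false) := by
        change c • c • τ ^ (k : ℕ) • x₀ = τ ^ (k : ℕ) • x₀
        rw [← mul_smul, hsq, one_smul]
      rw [h1, hs, hs]
      rfl

/-- Functions with signs are determined by one value. -/
theorem sgn_line (hodd : Odd (orderOf τ)) {s : X → ℤ}
    (hs : ∀ (k : Fin g) (b : Bool), s (cyc c τ g x₀ (k, b)) = if b then -1 else 1)
    {w : X → ℤ} (hw : OddF c w) (hwS : SgnF G w) : ∃ a : ℤ, ∀ x, w x = a * s x := by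
  classical
  have hτ : ∀ x, w (τ • x) = w x := by
    rcases hwS τ with h | h
    · exact h
    · have h2 : ∀ (k : ℕ) (x : X), w (τ ^ (2 * k) • x) = w x := by
        intro k
        induction k with
        | zero =>
          intro x
          rw [mul_zero, pow_zero, one_smul]
        | succ k ih =>
          intro x
          have h3 : τ ^ (2 * (k + 1)) • x = τ • τ • τ ^ (2 * k) • x := by
            change τ ^ (2 * k + 1 + 1) • x = _
            rw [pow_succ', pow_succ', mul_smul, mul_smul]
          rw [h3, h, h, neg_neg, ih]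
      obtain ⟨k, hk⟩ := hodd
      intro x
      have h4 : w (τ ^ (orderOf τ) • x) = -w x := by
        rw [hk, pow_succ', mul_smul, h, h2]
      rw [pow_orderOf_eq_one, one_smul] at h4
      rw [h, ← h4]
  have hk : ∀ k : ℕ, w (τ ^ k • x₀) = w x₀ := by
    intro k
    induction k with
    | zero => rw [pow_zero, one_smul]
    | succ k ih => rw [pow_succ', mul_smul, hτ, ih]
  refine ⟨w x₀, fun x => ?_⟩
  obtain ⟨⟨k, b⟩, rfl⟩ := hbij.2 x
  rw [hs]
  rcases b with _ | _
  · change w (τ ^ (k : ℕ) • x₀) = w x₀ * (if false = true then -1 else 1)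
    rw [hk, if_neg (by decide), mul_one]
  · change w (c • τ ^ (k : ℕ) • x₀) = w x₀ * (if true = true then -1 else 1)
    rw [hw, hk, if_pos rfl, mul_neg, mul_one]

include hcomm in
/-- Functions whose translates are constant on the orbit. -/
theorem sgn_of_orbit {v : X → ℤ} (hv : OddF c v)
    (hall : ∀ (σ : G) (n : ℕ), n < g → v (σ • τ ^ n • x₀) = v (σ • x₀)) : SgnF G v := by
  classical
  intro σ
  obtain ⟨⟨k', b'⟩, hkb'⟩ := hbij.2 (σ • x₀)
  have hone : ∀ n : ℕ, n < g → v (τ ^ n • x₀) = v x₀ := by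
    intro n hn
    have h1 := hall 1 n hn
    rwa [one_smul, one_smul] at h1
  rcases b' with _ | _
  · left
    intro z
    have h1 : τ ^ (k' : ℕ) • x₀ = σ • x₀ := hkb'
    have h2 : v (σ • x₀) = v x₀ := by rw [← h1, hone _ k'.2]
    obtain ⟨⟨n, b⟩, rfl⟩ := hbij.2 z
    rcases b with _ | _
    · change v (σ • τ ^ (n : ℕ) • x₀) = v (τ ^ (n : ℕ) • x₀)
      rw [hall _ _ n.2, hone _ n.2, h2]
    · change v (σ • c • τ ^ (n : ℕ) • x₀) = v (c • τ ^ (n : ℕ) • x₀)
      rw [smul_c hcomm, hv, hv, hall _ _ n.2, hone _ n.2, h2]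
  · right
    intro z
    have h1 : c • τ ^ (k' : ℕ) • x₀ = σ • x₀ := hkb'
    have h2 : v (σ • x₀) = -v x₀ := by rw [← h1, hv, hone _ k'.2]
    obtain ⟨⟨n, b⟩, rfl⟩ := hbij.2 z
    rcases b with _ | _
    · change v (σ • τ ^ (n : ℕ) • x₀) = -v (τ ^ (n : ℕ) • x₀)
      rw [hall _ _ n.2, hone _ n.2, h2]
    · change v (σ • c • τ ^ (n : ℕ) • x₀) = -v (c • τ ^ (n : ℕ) • x₀)
      rw [smul_c hcomm, hv, hv, hall _ _ n.2, hone _ n.2, h2]

include hcomm in
/-- Functions with equal values on the orbits of an element. -/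
theorem core_prime (htrans : ∀ x y : X, ∃ h : G, h • x = y) (hg : g.Prime) (hg2 : g ≠ 2)
    (hτg : τ ^ g • x₀ = x₀) {v : X → ℤ} (hv : OddF c v) {ρ : G}
    (h : ∀ (σ : G) (x : X), v (σ • x) = v (σ • ρ • x)) : SgnF G v ∨ ∀ x : X, ρ • x = x := by
  classical
  by_contra hcon
  push Not at hcon
  obtain ⟨hnS, x, hx⟩ := hcon
  apply hnS
  obtain ⟨α, hα⟩ := htrans x₀ x
  obtain ⟨y, hy⟩ : ∃ y, y = α⁻¹ • ρ • x := ⟨_, rfl⟩
  have hyx : y ≠ x₀ := by
    intro h1
    apply hx
    rw [hy, inv_smul_eq_iff, hα] at h1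
    exact h1
  have hvy : ∀ σ : G, v (σ • y) = v (σ • x₀) := by
    intro σ
    have h1 := h (σ * α⁻¹) x
    rw [mul_smul, mul_smul, ← hy, ← hα, inv_smul_smul] at h1
    exact h1.symm
  have hper : ∀ m : ℕ, τ ^ (g * m) • x₀ = x₀ := by
    intro m
    induction m with
    | zero => rw [mul_zero, pow_zero, one_smul]
    | succ m ih => rw [mul_add, mul_one, pow_add, mul_smul, hτg, ih]
  obtain ⟨⟨k, b⟩, hkb⟩ := hbij.2 y
  rcases b with _ | _
  · have hk : τ ^ (k : ℕ) • x₀ = y := hkb
    let S : AddSubgroup ℤ :=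
      { carrier := {n | ∀ σ : G, v (σ • τ ^ n • x₀) = v (σ • x₀)}
        zero_mem' := fun σ => by rw [zpow_zero, one_smul]
        add_mem' := fun {a b} ha hb σ => by
          have h1 := hb (σ * τ ^ a)
          rw [mul_smul, mul_smul] at h1
          rw [zpow_add, mul_smul, h1, ha]
        neg_mem' := fun {a} ha σ => by
          have h1 := ha (σ * τ ^ (-a))
          rw [mul_smul, mul_smul] at h1
          rw [← h1, ← mul_smul (τ ^ (-a)), ← zpow_add, neg_add_cancel, zpow_zero, one_smul] }
    have hkS : (k : ℤ) ∈ S := by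
      intro σ
      rw [zpow_natCast, hk]
      exact hvy σ
    have hgS : (g : ℤ) ∈ S := by
      intro σ
      rw [zpow_natCast, hτg]
    have hcop : IsCoprime (k : ℤ) (g : ℤ) := by
      rw [Nat.isCoprime_iff_coprime]
      refine (Nat.Coprime.symm ((Nat.Prime.coprime_iff_not_dvd hg).2 ?_))
      intro hd
      rcases Nat.eq_zero_or_pos (k : ℕ) with h0 | h0
      · apply hyx
        rw [← hk, h0, pow_zero, one_smul]
      · exact absurd (Nat.le_of_dvd h0 hd) (by have := k.2; omega)
    obtain ⟨a, b, hab⟩ := hcop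
    have h1S : (1 : ℤ) ∈ S := by
      rw [← hab]
      refine S.add_mem ?_ ?_
      · rw [← smul_eq_mul]
        exact S.zsmul_mem hkS a
      · rw [← smul_eq_mul]
        exact S.zsmul_mem hgS b
    have hall : ∀ (σ : G) (n : ℕ), v (σ • τ ^ n • x₀) = v (σ • x₀) := by
      intro σ n
      have h1 : (n : ℤ) ∈ S := by
        have h2 := S.zsmul_mem h1S (n : ℤ)
        rwa [smul_eq_mul, mul_one] at h2
      have h2 := h1 σ
      rwa [zpow_natCast] at h2
    exact sgn_of_orbit hcomm hbij hv fun σ n _ => hall σ n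
  · have hk : c • τ ^ (k : ℕ) • x₀ = y := hkb
    have h1 : ∀ σ : G, v (σ • τ ^ (k : ℕ) • x₀) = -v (σ • x₀) := by
      intro σ
      rw [← hvy, ← hk, smul_c hcomm, hv, neg_neg]
    have h2 : ∀ (m : ℕ) (σ : G), v (σ • τ ^ (k * m : ℕ) • x₀) = (-1) ^ m * v (σ • x₀) := by
      intro m
      induction m with
      | zero =>
        intro σ
        rw [mul_zero, pow_zero, one_smul, pow_zero, one_mul]
      | succ m ih =>
        intro σ
        have h3 : σ • τ ^ ((k : ℕ) * (m + 1)) • x₀ = (σ * τ ^ ((k : ℕ) * m)) • τ ^ (k : ℕ) • x₀ := by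
          rw [mul_smul, ← mul_smul (τ ^ ((k : ℕ) * m)), ← pow_add, mul_add, mul_one]
        rw [h3, h1, mul_smul, ih, pow_succ]
        ring
    have h3 : ∀ σ : G, v (σ • x₀) = 0 := by
      intro σ
      have h4 := h2 g σ
      rw [mul_comm (k : ℕ) g, hper, (hg.odd_of_ne_two hg2).neg_one_pow] at h4
      omega
    refine sgnF_zero fun z => ?_
    obtain ⟨σ, rfl⟩ := htrans x₀ z
    exact h3 σ

include hcomm in
/-- Orbits of length twice an odd prime number are rigid. -/
theorem rigid_prime [Fintype X] (hsq : c * c = 1) (htrans : ∀ x y : X, ∃ h : G, h • x = y)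
    (hg : g.Prime) (hg2 : g ≠ 2) (hτg : τ ^ g • x₀ = x₀) (hodd : Odd (orderOf τ)) :
    Rigid c X := by
  intro v hv hvS ρ h
  have : Nonempty X := ⟨x₀⟩
  obtain ⟨s, hs1, hs2, hs3⟩ := exists_signs hbij hsq
  obtain ⟨v', h1, h2, h3⟩ := reduce hcomm hs1 hs2 (fun w hw hwS =>
    sgn_line hbij hodd hs3 hw hwS) hv hvS h
  exact (core_prime hcomm hbij htrans hg hg2 hτg h1 h3).resolve_left h2

end prime

/-! ### Four elements -/

section four

variable {τ : G} {x₀ : X} (hτ : τ • τ • x₀ = c • x₀)
  (hbij : Function.Bijective (cyc c τ 2 x₀))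
include hτ hbij

theorem sgn_four {w : X → ℤ} (hw : OddF c w) (hwS : SgnF G w) (x : X) : w x = 0 := by
  have h0 : w x₀ = 0 := by
    have h1 : w (τ • τ • x₀) = -w x₀ := by rw [hτ, hw]
    rcases hwS τ with h | h
    · rw [h, h] at h1
      omega
    · rw [h, h] at h1
      omega
  have h1 : w (τ • x₀) = 0 := by
    rcases hwS.abs τ x₀ with h | h
    · rw [h, h0]
    · rw [h, h0, neg_zero]
  obtain ⟨⟨k, b⟩, rfl⟩ := hbij.2 x
  have h2 : w (τ ^ (k : ℕ) • x₀) = 0 := by
    fin_cases k
    · change w (τ ^ 0 • x₀) = 0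
      rw [pow_zero, one_smul, h0]
    · change w (τ ^ 1 • x₀) = 0
      rw [pow_one, h1]
  rcases b with _ | _
  · exact h2
  · change w (c • τ ^ (k : ℕ) • x₀) = 0
    rw [hw, h2, neg_zero]

include hcomm in
theorem rigid_four (htrans : ∀ x y : X, ∃ h : G, h • x = y) : Rigid c X := by
  classical
  intro v hv hvS ρ h
  have hz : ∀ (σ : G) (x : X), v (σ • x) = v (σ • ρ • x) := fun σ x =>
    sub_eq_zero.1 (sgn_four hτ hbij (hv.sub hcomm σ ρ) (h σ) x)
  by_contra hcon
  push Not at hcon
  obtain ⟨x, hx⟩ := hcon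
  apply hvS
  obtain ⟨α, hα⟩ := htrans x₀ x
  obtain ⟨y, hy⟩ : ∃ y, y = α⁻¹ • ρ • x := ⟨_, rfl⟩
  have hyx : y ≠ x₀ := by
    intro h1
    apply hx
    rw [hy, inv_smul_eq_iff, hα] at h1
    exact h1
  have hvy : ∀ σ : G, v (σ • y) = v (σ • x₀) := by
    intro σ
    have h1 := hz (σ * α⁻¹) x
    rw [mul_smul, mul_smul, ← hy, ← hα, inv_smul_smul] at h1
    exact h1.symm
  have h0 : ∀ σ : G, v (σ • x₀) = 0 := by
    obtain ⟨⟨k, b⟩, hkb⟩ := hbij.2 y
    have htwo : ∀ u : ℤ, u * u = 1 → (∀ σ : G, v (σ • τ • x₀) = u * v (σ • x₀)) →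
        ∀ σ : G, v (σ • x₀) = 0 := by
      intro u hu h1 σ
      have h2 : v (σ • τ • τ • x₀) = u * (u * v (σ • x₀)) := by
        rw [← mul_smul σ, h1, mul_smul, h1]
      rw [hτ, smul_c hcomm, hv, ← mul_assoc, hu] at h2
      omega
    fin_cases k <;> rcases b with _ | _
    · exfalso
      apply hyx
      rw [← hkb]
      change τ ^ 0 • x₀ = x₀
      rw [pow_zero, one_smul]
    · intro σ
      have h1 := hvy σ
      rw [← hkb] at h1
      change v (σ • c • τ ^ 0 • x₀) = _ at h1
      rw [pow_zero, one_smul, smul_c hcomm, hv] at h1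
      omega
    · refine htwo 1 (by norm_num) fun σ => ?_
      have h1 := hvy σ
      rw [← hkb] at h1
      change v (σ • τ ^ 1 • x₀) = _ at h1
      rw [pow_one] at h1
      rw [h1, one_mul]
    · refine htwo (-1) (by norm_num) fun σ => ?_
      have h1 := hvy σ
      rw [← hkb] at h1
      change v (σ • c • τ ^ 1 • x₀) = _ at h1
      rw [pow_one, smul_c hcomm, hv] at h1
      omega
  refine sgnF_zero fun z => ?_
  obtain ⟨σ, rfl⟩ := htrans x₀ z
  exact h0 σ

end four

/-! ### Complex conjugations on one of two embeddings -/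

section self

/-- For each two points which are different and not conjugate, an element of the group fixes the first
one and conjugates the second one. -/
def IsSelf (c : G) (X : Type) [MulAction G X] : Prop :=
  (∀ x y : X, y ≠ x → y ≠ c • x → ∃ σ : G, σ • x = x ∧ σ • y = c • y) ∧
    ∀ x : X, ∃ y, y ≠ x ∧ y ≠ c • x

variable (hS : IsSelf c X) (htrans : ∀ x y : X, ∃ h : G, h • x = y)
include hS htrans

theorem sgn_self {w : X → ℤ} (hw : OddF c w) (hwS : SgnF G w) (x : X) : w x = 0 := by
  obtain ⟨y, hy1, hy2⟩ := hS.2 x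
  obtain ⟨σ, h1, h2⟩ := hS.1 x y hy1 hy2
  obtain ⟨α, hα⟩ := htrans y x
  rcases hwS σ with h | h
  · have h3 := h y
    rw [h2, hw] at h3
    have h4 : w y = 0 := by omega
    rcases hwS.abs α y with h5 | h5
    · rw [← hα, h5, h4]
    · rw [← hα, h5, h4, neg_zero]
  · have h3 := h x
    rw [h1] at h3
    omega

include hcomm in
theorem rigid_self : Rigid c X := by
  classical
  intro v hv hvS ρ h
  have hz : ∀ (σ : G) (x : X), v (σ • x) = v (σ • ρ • x) := fun σ x =>
    sub_eq_zero.1 (sgn_self hS htrans (hv.sub hcomm σ ρ) (h σ) x)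
  by_contra hcon
  push Not at hcon
  obtain ⟨x, hx⟩ := hcon
  apply hvS
  have h0 : ∀ σ : G, v (σ • x) = 0 := by
    intro σ
    by_cases hy : ρ • x = c • x
    · have h1 := hz σ x
      rw [hy, smul_c hcomm, hv] at h1
      omega
    · obtain ⟨σ₀, h1, h2⟩ := hS.1 x (ρ • x) hx hy
      have h3 := hz (σ * σ₀) x
      rw [mul_smul, mul_smul, h1, h2, smul_c hcomm, hv] at h3
      have h4 := hz σ x
      omega
  refine sgnF_zero fun z => ?_
  obtain ⟨σ, rfl⟩ := htrans x z
  exact h0 σ

end self

/-! ### Doubly transitive actions -/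

section double

/-- Signs `s` for which the stabilizer of each point is transitive on the other points with the same
sign (and there are at least three of them). -/
structure IsDouble (c : G) (s : X → ℤ) : Prop where
  sign : ∀ x, s x = 1 ∨ s x = -1
  odd : OddF c s
  sgn : SgnF G s
  trans : ∀ x y z : X, s y = s x → s z = s x → y ≠ x → z ≠ x → ∃ σ : G, σ • x = x ∧ σ • y = z
  three : ∀ x : X, ∃ y z, s y = s x ∧ s z = s x ∧ y ≠ x ∧ z ≠ x ∧ y ≠ z

variable {s : X → ℤ} (hD : IsDouble c s) (htrans : ∀ x y : X, ∃ h : G, h • x = y)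
include hD htrans

theorem IsDouble.of_ne {x y : X} (h : s y ≠ s x) : s (c • y) = s x := by
  rw [hD.odd]
  rcases hD.sign x with h1 | h1 <;> rcases hD.sign y with h2 | h2 <;> rw [h1, h2] at h ⊢
  · exact absurd rfl h
  · norm_num
  · exact absurd rfl h

theorem sgn_double (hsq : c * c = 1) {w : X → ℤ} (hw : OddF c w) (hwS : SgnF G w) :
    ∃ a : ℤ, ∀ x, w x = a * s x := by
  classical
  have habs : ∀ x y : X, w y = w x ∨ w y = -w x := by
    intro x y
    obtain ⟨σ, rfl⟩ := htrans x y
    exact hwS.abs σ x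
  have key : ∀ x y z : X, s y = s x → s z = s x → y ≠ x → z ≠ x → w z = w y := by
    intro x y z h1 h2 h3 h4
    obtain ⟨σ, h5, h6⟩ := hD.trans x y z h1 h2 h3 h4
    rcases hwS σ with h | h
    · rw [← h6, h]
    · have h7 := h x
      rw [h5] at h7
      have h8 : w x = 0 := by omega
      have h9 : ∀ t, w t = 0 := by
        intro t
        rcases habs x t with h | h
        · rw [h, h8]
        · rw [h, h8, neg_zero]
      rw [h9, h9]
  have same : ∀ x y : X, s y = s x → w y = w x := by
    intro x y hxy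
    by_cases hne : y = x
    · rw [hne]
    · obtain ⟨z, t, h1, h2, h3, h4, h5⟩ := hD.three x
      obtain ⟨r, hr1, hr2, hr3⟩ : ∃ r, s r = s x ∧ r ≠ x ∧ r ≠ y := by
        by_cases h : z = y
        · exact ⟨t, h2, h4, fun h' => h5 (h.trans h'.symm)⟩
        · exact ⟨z, h1, h3, h⟩
      exact key r x y hr1.symm (hxy.trans hr1.symm) hr2.symm hr3.symm
  rcases isEmpty_or_nonempty X with he | ⟨⟨x₀⟩⟩
  · exact ⟨0, fun x => he.elim x⟩
  · refine ⟨w x₀ * s x₀, fun x => ?_⟩
    have hss : s x₀ * s x₀ = 1 := by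
      rcases hD.sign x₀ with h | h <;> rw [h] <;> norm_num
    by_cases h : s x = s x₀
    · rw [same x₀ x h, h, mul_assoc, hss, mul_one]
    · have h1 := hD.of_ne htrans h
      have h2 := same x₀ (c • x) h1
      rw [hw] at h2
      rw [hD.odd] at h1
      have h3 : s x = -s x₀ := by omega
      have h4 : w x = -w x₀ := by omega
      rw [h3, h4]
      calc -w x₀ = w x₀ * -1 := by ring
        _ = w x₀ * (-(s x₀ * s x₀)) := by rw [hss]
        _ = _ := by ring

include hcomm in
theorem core_double (hsq : c * c = 1) {v : X → ℤ} (hv : OddF c v) {ρ : G}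
    (h : ∀ (σ : G) (x : X), v (σ • x) = v (σ • ρ • x)) : SgnF G v ∨ ∀ x : X, ρ • x = x := by
  classical
  by_contra hcon
  push Not at hcon
  obtain ⟨hnS, x, hx⟩ := hcon
  apply hnS
  have hccx : ∀ y : X, c • c • y = y := fun y => by rw [← mul_smul, hsq, one_smul]
  by_cases hs : s (ρ • x) = s x
  · have h1 : ∀ (σ : G) (z : X), s z = s x → v (σ • z) = v (σ • x) := by
      intro σ z hz
      by_cases hzx : z = x
      · rw [hzx]
      · obtain ⟨σ₀, h2, h3⟩ := hD.trans x (ρ • x) z hs hz hx hzx
        have h4 := h (σ * σ₀) x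
        rw [mul_smul, mul_smul, h2, h3] at h4
        exact h4.symm
    have h2 : ∀ z : X, v z = v x * s x * s z := by
      intro z
      have hss : s x * s x = 1 := by
        rcases hD.sign x with h | h <;> rw [h] <;> norm_num
      by_cases hz : s z = s x
      · have h3 := h1 1 z hz
        rw [one_smul, one_smul] at h3
        rw [h3, hz, mul_assoc, hss, mul_one]
      · have h3 := hD.of_ne htrans hz
        have h4 := h1 1 (c • z) h3
        rw [one_smul, one_smul, hv] at h4
        rw [hD.odd] at h3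
        have h5 : s z = -s x := by omega
        have h6 : v z = -v x := by omega
        rw [h5, h6]
        calc -v x = v x * -1 := by ring
          _ = v x * (-(s x * s x)) := by rw [hss]
          _ = _ := by ring
    intro σ
    refine (hD.sgn σ).imp (fun h3 z => ?_) fun h3 z => ?_
    · rw [h2 (σ • z), h3, ← h2]
    · rw [h2 (σ • z), h3, mul_neg, ← h2]
  · have hy := hD.of_ne htrans hs
    have h1 : ∀ σ : G, v (σ • c • ρ • x) = -v (σ • x) := by
      intro σ
      rw [smul_c hcomm, hv, ← h]
    have h0 : ∀ σ : G, v (σ • x) = 0 := by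
      by_cases hyx : c • ρ • x = x
      · intro σ
        have h2 := h1 σ
        rw [hyx] at h2
        omega
      · have h2 : ∀ (σ : G) (z : X), s z = s x → z ≠ x → v (σ • z) = -v (σ • x) := by
          intro σ z hz hzx
          obtain ⟨σ₀, h3, h4⟩ := hD.trans x (c • ρ • x) z hy hz hyx hzx
          have h5 := h1 (σ * σ₀)
          rw [mul_smul, mul_smul, h3, h4] at h5
          exact h5
        obtain ⟨y, z, h3, h4, h5, h6, h7⟩ := hD.three x
        intro σ
        -- an element that maps `x` to `y`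
        obtain ⟨α, hα⟩ := htrans x y
        have hsα : ∀ t, s (α • t) = s t := by
          rcases hD.sgn α with h8 | h8
          · exact h8
          · exfalso
            have h9 := h8 x
            rw [hα, h3] at h9
            rcases hD.sign x with h' | h' <;> rw [h'] at h9 <;> norm_num at h9
        have hsα' : ∀ t, s (α⁻¹ • t) = s t := by
          intro t
          rw [← hsα (α⁻¹ • t), smul_inv_smul]
        have h8 : v (σ • z) = -v (σ • y) := by
          have h9 := h2 (σ * α) (α⁻¹ • z) (by rw [hsα', h4]) (by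
            intro h'
            rw [inv_smul_eq_iff, hα] at h'
            exact h7 h'.symm)
          rw [mul_smul, smul_inv_smul, mul_smul, hα] at h9
          exact h9
        have h9 := h2 σ y h3 h5
        have h10 := h2 σ z h4 h6
        omega
    refine sgnF_zero fun z => ?_
    obtain ⟨σ, rfl⟩ := htrans x z
    exact h0 σ

include hcomm in
theorem rigid_double [Fintype X] [Nonempty X] (hsq : c * c = 1) : Rigid c X := by
  intro v hv hvS ρ h
  obtain ⟨v', h1, h2, h3⟩ := reduce hcomm hD.sign hD.odd (fun w hw hwS =>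
    sgn_double hD htrans hsq hw hwS) hv hvS h
  exact (core_double hcomm hD htrans hsq h1 h3).resolve_left h2

end double

end Pool.Agent.Q43.HP
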