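import Pool.Agent.Q43.HP.Rigid
import Pool.Agent.Q43.HN.Fac

/-!
# Separation of the factors in a relation
-/

set_option autoImplicit false
set_option linter.unusedSectionVars false
set_option linter.unusedVariables false

namespace Pool.Agent.Q43.HP

open NumberField Pool.Agent.H204R3.CM Pool.Agent.W547.KB Pool.Agent.W547.LD Pool.Agent.W547.HR
  Pool.Agent.W495.TA Pool.Agent.W495.TB Pool.Agent.W495.TC Pool.Agent.TH117.F5
  Pool.Agent.TH117.PO Pool.Agent.TH117.BL Module Pool.Agent.W976.TA Equiv Pool.Agent.Q43.HN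
open scoped TensorProduct

noncomputable section

variable {p : ℕ} [Fact p.Prime] {ν : PadicAlgCl p ≃+* ℂ}
  {L : Type} [Field L] [NumberField L] [IsCMField L] [IsGalois ℚ L] {j : L →+* ℂ}
  {Z : RedAV p ν}

/-- The element acts trivially on the embeddings of the field. -/
def Tr (L : Type) [Field L] [NumberField L] (A : CMPair) (σ : L ≃ₐ[ℚ] L) : Prop :=
  ∀ φ : A.E →+* L, σ • φ = φ

theorem Tr.mul {A : CMPair} {σ τ : L ≃ₐ[ℚ] L} (h : Tr L A σ) (h' : Tr L A τ) : Tr L A (σ * τ) :=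
  fun φ => by rw [mul_smul, h', h]

theorem Tr.inv {A : CMPair} {σ : L ≃ₐ[ℚ] L} (h : Tr L A σ) : Tr L A σ⁻¹ := fun φ => by
  rw [inv_smul_eq_iff, h]

theorem Tr.conj {A : CMPair} {σ : L ≃ₐ[ℚ] L} (h : Tr L A σ) (τ : L ≃ₐ[ℚ] L) :
    Tr L A (τ * σ * τ⁻¹) := fun φ => by
  rw [mul_smul, mul_smul, h, smul_inv_smul]

section

variable [Fintype (Wt Z.X L)]

/-- The odd part on one factor. -/
def vf (x : Wt Z.X L → ℤ) (i : Z.X.I) (φ : (Z.X.factor i).E →+* L) : ℤ := xm x ⟨i, φ⟩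

theorem vf_odd (x : Wt Z.X L → ℤ) (i : Z.X.I) : OddF (cc L) (vf x i) := fun φ =>
  xm_cw x ⟨i, φ⟩

theorem sgn_iff {x : Wt Z.X L → ℤ} {i : Z.X.I} : Sgn x i ↔ SgnF (L ≃ₐ[ℚ] L) (vf x i) := by
  constructor
  · intro h σ
    exact (h σ).imp (fun h' φ => h' ⟨i, φ⟩ rfl) fun h' φ => h' ⟨i, φ⟩ rfl
  · intro h σ
    refine (h σ).imp (fun h' => ?_) fun h' => ?_
    · rintro ⟨i', φ⟩ hi'
      obtain rfl : i' = i := hi'
      exact h' φ
    · rintro ⟨i', φ⟩ hi'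
      obtain rfl : i' = i := hi'
      exact h' φ

theorem re_sub {x y : Wt Z.X L → ℤ} (hx : Re p ν j Z x) (hy : Re p ν j Z y) :
    Re p ν j Z fun l => x l - y l := by
  intro σ
  simp only [sub_mul, Finset.sum_sub_distrib]
  rw [hx σ, hy σ, sub_zero]

theorem re_sum {κ : Type} (s : Finset κ) {x : κ → Wt Z.X L → ℤ}
    (hx : ∀ k ∈ s, Re p ν j Z (x k)) : Re p ν j Z fun l => ∑ k ∈ s, x k l := by
  intro σ
  simp only [Finset.sum_mul]
  rw [Finset.sum_comm]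
  exact Finset.sum_eq_zero fun k hk => hx k hk σ

include j in
theorem vf_smul (x : Wt Z.X L → ℤ) (σ : L ≃ₐ[ℚ] L) (i : Z.X.I) (φ : (Z.X.factor i).E →+* L) :
    vf (fun l => x (σ • l)) i φ = vf x i (σ • φ) := by
  change x (σ • ⟨i, φ⟩) - x (σ • cw Z ⟨i, φ⟩) = x (σ • ⟨i, φ⟩) - x (cw Z (σ • ⟨i, φ⟩))
  rw [smul_cw' σ _ j]

/-- In relations in which all other factors contribute functions on which the Galois group acts by
signs it acts on the multiplicities of the factor by signs. -/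
def IndepAt (p : ℕ) [Fact p.Prime] (ν : PadicAlgCl p ≃+* ℂ) (j : L →+* ℂ) (Z : RedAV p ν)
    [Fintype (Wt Z.X L)] (i : Z.X.I) : Prop :=
  ∀ x : Wt Z.X L → ℤ, Re p ν j Z x → (∀ k, k ≠ i → IsEig (Fi p ν j Z x k)) →
    EigF p ν j Z i ∨ Sgn x i

/-- The induction. -/
theorem sgn_step {i : Z.X.I} (hR : Rigid (cc L) ((Z.X.factor i).E →+* L))
    (hI : IndepAt p ν j Z i) (n : ℕ) : ∀ x : Wt Z.X L → ℤ, Re p ν j Z x → ¬ Sgn x i →
      (∀ k, k ≠ i → EigF p ν j Z k ∨ Sgn x k ∨ ∃ ρ : L ≃ₐ[ℚ] L, Tr L (Z.X.factor k) ρ ∧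
        ¬ Tr L (Z.X.factor i) ρ) →
      Nat.card {k : Z.X.I // k ≠ i ∧ ¬ EigF p ν j Z k ∧ ¬ Sgn x k} ≤ n → EigF p ν j Z i := by
  classical
  induction n with
  | zero =>
    intro x hx hn hall hcard
    have hE : IsEmpty {k : Z.X.I // k ≠ i ∧ ¬ EigF p ν j Z k ∧ ¬ Sgn x k} := by
      have h1 := Nat.le_zero.1 hcard
      rw [Nat.card_eq_zero] at h1
      exact h1.resolve_right fun h => h.not_finite (Subtype.finite)
    refine (hI x hx fun k hk => ?_).resolve_right hn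
    by_cases h1 : EigF p ν j Z k
    · exact isEig_Fi_of_eig h1
    · by_cases h2 : Sgn x k
      · exact isEig_Fi_of_sgn h2
      · exact (hE.false ⟨k, hk, h1, h2⟩).elim
  | succ n ih =>
    intro x hx hn hall hcard
    by_cases hE : IsEmpty {k : Z.X.I // k ≠ i ∧ ¬ EigF p ν j Z k ∧ ¬ Sgn x k}
    · refine (hI x hx fun k hk => ?_).resolve_right hn
      by_cases h1 : EigF p ν j Z k
      · exact isEig_Fi_of_eig h1
      · by_cases h2 : Sgn x k
        · exact isEig_Fi_of_sgn h2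
        · exact (hE.false ⟨k, hk, h1, h2⟩).elim
    · rw [not_isEmpty_iff] at hE
      obtain ⟨k, hk, hk1, hk2⟩ := hE
      obtain ⟨ρ, hρ, hρi⟩ := ((hall k hk).resolve_left hk1).resolve_left hk2
      -- a translate
      obtain ⟨σ, hσ⟩ : ∃ σ : L ≃ₐ[ℚ] L, ¬ SgnF (L ≃ₐ[ℚ] L)
          fun φ : (Z.X.factor i).E →+* L => vf x i (σ • φ) - vf x i (σ • ρ • φ) := by
        by_contra hcon
        push Not at hcon
        exact hρi (hR (vf x i) (vf_odd x i) (fun h => hn (sgn_iff.2 h)) ρ hcon)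
      let y : Wt Z.X L → ℤ := fun l => x (σ • l) - x ((σ * ρ) • l)
      have hy : Re p ν j Z y := re_sub (hx.smul σ) (hx.smul (σ * ρ))
      have hvy : ∀ (k : Z.X.I) (φ : (Z.X.factor k).E →+* L),
          vf y k φ = vf x k (σ • φ) - vf x k (σ • ρ • φ) := by
        intro k φ
        have h1 := vf_smul (j := j) x σ k φ
        have h2 := vf_smul (j := j) x (σ * ρ) k φ
        rw [mul_smul] at h2
        rw [← h1, ← h2]
        change (x (σ • ⟨k, φ⟩) - x ((σ * ρ) • ⟨k, φ⟩)) -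
          (x (σ • cw Z ⟨k, φ⟩) - x ((σ * ρ) • cw Z ⟨k, φ⟩)) =
          (x (σ • ⟨k, φ⟩) - x (σ • cw Z ⟨k, φ⟩)) - (x ((σ * ρ) • ⟨k, φ⟩) -
            x ((σ * ρ) • cw Z ⟨k, φ⟩))
        ring
      have hSy : ∀ k, Sgn x k → Sgn y k := by
        intro k hk
        rw [sgn_iff] at hk ⊢
        have h1 : vf y k = fun φ => vf x k (σ • φ) - vf x k (σ • ρ • φ) := funext (hvy k)
        rw [h1]
        exact hk.sub σ ρ
      have hky : Sgn y k := by
        rw [sgn_iff]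
        refine sgnF_zero fun φ => ?_
        rw [hvy, hρ, sub_self]
      refine ih y hy ?_ ?_ ?_
      · rw [sgn_iff]
        have h1 : vf y i = fun φ => vf x i (σ • φ) - vf x i (σ • ρ • φ) := funext (hvy i)
        rw [h1]
        exact hσ
      · intro k' hk'
        rcases hall k' hk' with h | h | h
        · exact Or.inl h
        · exact Or.inr (Or.inl (hSy k' h))
        · exact Or.inr (Or.inr h)
      · have hlt : Nat.card {k : Z.X.I // k ≠ i ∧ ¬ EigF p ν j Z k ∧ ¬ Sgn y k} <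
            Nat.card {k : Z.X.I // k ≠ i ∧ ¬ EigF p ν j Z k ∧ ¬ Sgn x k} := by
          have h1 : {k : Z.X.I | k ≠ i ∧ ¬ EigF p ν j Z k ∧ ¬ Sgn y k} ⊂
              {k : Z.X.I | k ≠ i ∧ ¬ EigF p ν j Z k ∧ ¬ Sgn x k} := by
            refine ⟨fun k' hk' => ⟨hk'.1, hk'.2.1, fun h => hk'.2.2 (hSy k' h)⟩, fun hsub => ?_⟩
            have h2 : k ∈ {k : Z.X.I | k ≠ i ∧ ¬ EigF p ν j Z k ∧ ¬ Sgn y k} :=
              hsub ⟨hk, hk1, hk2⟩
            exact h2.2.2 hky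
          exact Set.ncard_lt_ncard h1 (Set.toFinite _)
        omega

/-- The Galois group acts on the multiplicities of the factor by signs. -/
theorem sgn_of_sep {i : Z.X.I} (hR : Rigid (cc L) ((Z.X.factor i).E →+* L))
    (hI : IndepAt p ν j Z i)
    (hsep : ∀ k, k ≠ i → EigF p ν j Z k ∨
      (∃ ρ : L ≃ₐ[ℚ] L, Tr L (Z.X.factor k) ρ ∧ ¬ Tr L (Z.X.factor i) ρ) ∨
      (Rigid (cc L) ((Z.X.factor k).E →+* L) ∧
        ∃ ρ : L ≃ₐ[ℚ] L, Tr L (Z.X.factor i) ρ ∧ ¬ Tr L (Z.X.factor k) ρ))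
    (x : Wt Z.X L → ℤ) (hx : Re p ν j Z x) : EigF p ν j Z i ∨ Sgn x i := by
  classical
  by_cases hS : Sgn x i
  · exact Or.inr hS
  left
  let N : Finset (L ≃ₐ[ℚ] L) := Finset.univ.filter fun ρ => Tr L (Z.X.factor i) ρ
  let x' : Wt Z.X L → ℤ := fun l => ∑ ρ ∈ N, x (ρ • l)
  have hx' : Re p ν j Z x' := re_sum N fun ρ _ => hx.smul ρ
  have hv : ∀ (k : Z.X.I) (φ : (Z.X.factor k).E →+* L),
      vf x' k φ = ∑ ρ ∈ N, vf x k (ρ • φ) := by
    intro k φ
    change ∑ ρ ∈ N, x (ρ • ⟨k, φ⟩) - ∑ ρ ∈ N, x (ρ • cw Z ⟨k, φ⟩) = _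
    rw [← Finset.sum_sub_distrib]
    refine Finset.sum_congr rfl fun ρ _ => ?_
    exact vf_smul (j := j) x ρ k φ
  have hN1 : (1 : L ≃ₐ[ℚ] L) ∈ N := by
    rw [Finset.mem_filter]
    exact ⟨Finset.mem_univ _, fun φ => one_smul _ _⟩
  have hi : ∀ φ : (Z.X.factor i).E →+* L, vf x' i φ = N.card * vf x i φ := by
    intro φ
    rw [hv, Finset.sum_congr rfl fun ρ hρ => by rw [(Finset.mem_filter.1 hρ).2 φ],
      Finset.sum_const, nsmul_eq_mul]
  have hNpos : (N.card : ℤ) ≠ 0 := by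
    have h1 : 0 < N.card := Finset.card_pos.2 ⟨1, hN1⟩
    exact_mod_cast h1.ne'
  have hS' : ¬ Sgn x' i := by
    intro h
    apply hS
    rw [sgn_iff] at h ⊢
    intro σ
    refine (h σ).imp (fun h1 φ => ?_) fun h1 φ => ?_
    · have h2 := h1 φ
      rw [hi, hi] at h2
      exact mul_left_cancel₀ hNpos h2
    · have h2 := h1 φ
      rw [hi, hi, ← mul_neg] at h2
      exact mul_left_cancel₀ hNpos h2
  refine sgn_step hR hI _ x' hx' hS' (fun k hk => ?_) le_rfl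
  rcases hsep k hk with h | h | ⟨h, ρ₀, h1, h2⟩
  · exact Or.inl h
  · exact Or.inr (Or.inr h)
  · right
    left
    by_contra hcon
    apply h2
    refine h (vf x' k) (vf_odd x' k) (fun h' => hcon (sgn_iff.2 h')) ρ₀ fun σ => ?_
    refine sgnF_zero fun φ => ?_
    have h3 : vf x' k (σ • ρ₀ • φ) = vf x' k (σ • φ) := by
      rw [hv, hv]
      refine Finset.sum_bij (fun ρ _ => ρ * (σ * ρ₀ * σ⁻¹)) ?_ ?_ ?_ ?_
      · intro ρ hρ
        rw [Finset.mem_filter] at hρ ⊢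
        exact ⟨Finset.mem_univ _, hρ.2.mul (h1.conj σ)⟩
      · intro ρ _ ρ' _ h4
        exact mul_right_cancel h4
      · intro ρ hρ
        rw [Finset.mem_filter] at hρ
        refine ⟨ρ * (σ * ρ₀ * σ⁻¹)⁻¹, ?_, ?_⟩
        · rw [Finset.mem_filter]
          exact ⟨Finset.mem_univ _, hρ.2.mul (h1.conj σ).inv⟩
        · rw [inv_mul_cancel_right]
      · intro ρ _
        rw [← mul_smul, ← mul_smul, ← mul_smul]
        congr 2
        group
    rw [h3, sub_self]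

end

end

end Pool.Agent.Q43.HP
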