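import Pool.Agent.Q43.HP.Main
import Pool.Agent.Q43.HP.Class
import Pool.Agent.TH117.GN.Wt

/-!
# Schemes over finite fields generated by abelian varieties with separated factors
-/

set_option autoImplicit false

namespace Pool.Agent.Q43.HP

open Pool.Agent.W495.TA Pool.Agent.W495.FM Pool.Agent.TH117.BL Pool.Agent.TH117.GN Module

variable {p : ℕ} [Fact p.Prime] {ν : PadicAlgCl p ≃+* ℂ} {Ω : Type} [Field Ω] [IsAlgClosed Ω]
  [CharZero Ω]

/-- The Tate conjecture for the class. -/
theorem tate_separated (Y : RedAV p ν) (hY : IsSeparatedAV Y) (s m : ℕ) (hs : 0 < s)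
    (f : (TM Ω Y) [⋀^Fin (2 * m)]→ₗ[Ω] Ω) (hf : IsTateClass Ω Y s m f) :
    Alg Ω Y (Fin (2 * m)) f := by
  obtain ⟨Z, S, h1, h2⟩ := hY
  exact elementary Z (elementary_of_separated Z S h1) Ω Y h2 s m hs f hf

theorem tateHolds_separated {Y : RedAV p ν} {C : Cycles Ω Y} (hY : IsSeparatedAV Y)
    (hC : IsChow C) : TateHolds C := by
  obtain ⟨Z, S, h1, h2⟩ := hY
  exact tateHolds_elem (elementary_of_separated Z S h1) h2 hC

variable {V : Type} {T : Homology Ω V}

theorem tb_separated (hT : IsHomology T) {X : V}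
    (hX : Generated T (IsSeparatedAbelian p ν T) X) : TB T X := by
  refine tb_generated hT (fun X hX => ?_) hX
  obtain ⟨Y, C, M, g, hY, hC, hM, hX⟩ := hX
  exact tb_abelian hT hC (tateHolds_separated hY hC) hM hX

theorem isoAbove_separated (hT : IsHomology T) (hW : HasWeights T) :
    IsoAbove T (IsSeparatedAbelian p ν T) := fun _ _ _ _ h hX hZ i hi =>
  iso_opened hT hW h (onto_of_dim hT hZ hi) ((tb_separated hT hX).iso hT i)

theorem onto_separated (hT : IsHomology T) (hW : HasWeights T) {X : V}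
    (hX : Spread T (Generated T (IsSeparatedAbelian p ν T)) X) (i : ℤ) : IsOnto T X i :=
  onto_spread hT hW (fun _ h1 i => ((tb_separated hT h1).iso hT i).1) hX i

end Pool.Agent.Q43.HP
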